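import Pool.Agent.Lib.H28P.Poly

/-!
# H28P: auxiliary definitions

Gadgets (triangulated triangles inside a graph), path systems through a gadget, the numerical
relation of their values, the sequence A006046 and the piecewise linear bounds.
-/

set_option autoImplicit false

namespace Pool.Agent.Lib.H28P

variable {V : Type*} [DecidableEq V]

/-- A gadget: a stacked triangulation of the triangle `x y z` inside the graph `G`, with set `S` of
interior vertices and set `L` of inner faces. Its number of faces is `2 * S.card + 1`. -/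
inductive Gad (G : SimpleGraph V) : V → V → V → Finset V → Finset (Finset V) → Prop
  | leaf (x y z : V) (hxy : G.Adj x y) (hyz : G.Adj y z) (hxz : G.Adj x z) :
      Gad G x y z ∅ {{x, y, z}}
  | node (x y z c : V) (S₁ S₂ S₃ : Finset V) (L₁ L₂ L₃ : Finset (Finset V))
      (h₁ : Gad G c y z S₁ L₁) (h₂ : Gad G x c z S₂ L₂) (h₃ : Gad G x y c S₃ L₃)
      (hx : x ∉ S₁) (hy : y ∉ S₂) (hz : z ∉ S₃)
      (h12 : Disjoint S₁ S₂) (h13 : Disjoint S₁ S₃) (h23 : Disjoint S₂ S₃) :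
      Gad G x y z (insert c (S₁ ∪ S₂ ∪ S₃)) (L₁ ∪ L₂ ∪ L₃)

/-- A path from `x` to `y` with interior vertices in `S` and at least `w` edges. -/
def Thr (G : SimpleGraph V) (S : Finset V) (x y : V) (w : ℕ) : Prop :=
  ∃ l : List V, l.Nodup ∧ (∀ v ∈ l, v ∈ S) ∧ (x :: (l ++ [y])).IsChain G.Adj ∧ w ≤ l.length + 1

/-- A path from `x` to `y` and a path starting at `z`, disjoint, with interior vertices in `S`;
the value `X` counts the new vertices plus two. -/
def TF (G : SimpleGraph V) (S : Finset V) (x y z : V) (X : ℕ) : Prop :=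
  ∃ l₁ l₂ : List V, (l₁ ++ l₂).Nodup ∧ (∀ v ∈ l₁ ++ l₂, v ∈ S) ∧
    (x :: (l₁ ++ [y])).IsChain G.Adj ∧ (z :: l₂).IsChain G.Adj ∧ X ≤ l₁.length + l₂.length + 2

/-- Both kinds of path systems exist in all positions. -/
def Prof (G : SimpleGraph V) (x y z : V) (S : Finset V) (w X : ℕ) : Prop :=
  (Thr G S x y w ∧ Thr G S y x w ∧ Thr G S y z w ∧ Thr G S z y w ∧ Thr G S x z w ∧ Thr G S z x w) ∧
  (TF G S x y z X ∧ TF G S y x z X ∧ TF G S y z x X ∧ TF G S z y x X ∧ TF G S x z y X ∧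
    TF G S z x y X)

/-- The numerical relation satisfied by (number of faces, through value, through plus free value). -/
inductive R : ℕ → ℕ → ℕ → Prop
  | leaf : R 1 1 2
  | node (M₁ M₂ M₃ w₁ w₂ w₃ X₁ X₂ X₃ : ℕ) (h₁ : R M₁ w₁ X₁) (h₂ : R M₂ w₂ X₂) (h₃ : R M₃ w₃ X₃) :
      R (M₁ + M₂ + M₃) (max (w₁ + w₂) (max (w₁ + w₃) (w₂ + w₃)))
        (max (w₁ + w₂ + w₃) (max (max (X₁ + w₂) (X₁ + w₃))
          (max (max (X₂ + w₁) (X₂ + w₃)) (max (X₃ + w₁) (X₃ + w₂)))))

/-- a path inside `T` with at least `k - 1` vertices -/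
def HasPath (G : SimpleGraph V) (T : Finset V) (k : ℕ) : Prop :=
  ∃ l : List V, l.Nodup ∧ (∀ v ∈ l, v ∈ T) ∧ l.IsChain G.Adj ∧ k ≤ l.length + 1

/-- A triangulation of the sphere seen as a complete graph on four points `p i` with a gadget in each
of its four triangles (`S i`, `L i` belong to the triangle opposite to `p i`). -/
def Quad (G : SimpleGraph V) (p : Fin 4 → V) (S : Fin 4 → Finset V)
    (L : Fin 4 → Finset (Finset V)) : Prop :=
  (∀ i j k l : Fin 4, i ≠ j → i ≠ k → i ≠ l → j ≠ k → j ≠ l → k ≠ l →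
    Gad G (p j) (p k) (p l) (S i) (L i)) ∧
  (∀ i j, i ≠ j → Disjoint (S i) (S j)) ∧ (∀ i j, p i ∉ S j) ∧ Function.Injective p

/-- the vertex set of a `Quad` -/
def quadV (p : Fin 4 → V) (S : Fin 4 → Finset V) : Finset V :=
  Finset.univ.image p ∪ Finset.univ.biUnion S

/-- The sequence A006046 (number of odd entries in the first `n` rows of the triangle of Pascal):
`a 0 = 0`, `a 1 = 1`, `a (2n) = 3 a n`, `a (2n+1) = 2 a n + a (n+1)`. -/
def a (n : ℕ) : ℕ :=
  if h : n < 2 then n else if n % 2 = 0 then 3 * a (n / 2) else 2 * a (n / 2) + a (n / 2 + 1)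
termination_by n
decreasing_by all_goals omega

/-- distance to the nearest odd integer -/
noncomputable def D (t : ℝ) : ℝ := |t - (2 * (round ((t - 1) / 2) : ℤ) + 1)|

/-- The piecewise linear lower bounds for the through value `w` of a gadget with `m` faces, at all
scales `(3 ^ j, 2 ^ j)`. -/
def WF (m w : ℝ) : Prop :=
  ∀ j : ℤ, (m / 3 ^ j ≤ 1 → m / 3 ^ j ≤ w / 2 ^ j) ∧
    (1 ≤ m / 3 ^ j → m / 3 ^ j ≤ 3 →
      (9 * (m / 3 ^ j) - 1) / 8 ≤ w / 2 ^ j ∨ (9 * (m / 3 ^ j) + 9) / 16 ≤ w / 2 ^ j ∨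
        (9 * (m / 3 ^ j) + 37) / 32 ≤ w / 2 ^ j)

/-- The piecewise linear lower bound for the through plus free value. -/
def XF (m x : ℝ) : Prop :=
  ∀ j : ℤ, 3 ≤ m / 3 ^ j → m / 3 ^ j ≤ 9 →
    (m / 3 ^ j + 3) / 2 + D (m / 3 ^ j) / 20 ≤ x / 2 ^ j

end Pool.Agent.Lib.H28P
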