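import Pool.Agent.Lib.H28P.Defs

/-!
# G01 (S/M): through paths

PROOFS. `Thr.symm`: reverse the list (`List.reverse_append`, `List.isChain_reverse`, symmetry of
`G.Adj`). `Thr.mono`, `TF.mono`, `Thr.max`, `TF.max`: trivial. `TF.symm`: reverse `l₁` only.
`Thr.trans`: take `l₁ ++ c :: l₂` (`l₁` from `h₁`, `l₂` from `h₂`); it has no duplicates because
`S₁`, `S₂` are disjoint and `c` is in none of them; the chain `x :: (l₁ ++ c :: l₂ ++ [y])` is the
concatenation of two chains with common point `c`; its length is `l₁.length + l₂.length + 1`.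
-/

set_option autoImplicit false

namespace Pool.Agent.Lib.H28P

variable {V : Type*} [DecidableEq V] {G : SimpleGraph V}

/-- Two chains with a common end point can be glued. -/
theorem g01_glue {A : Type*} {r : A → A → Prop} (l₁ l₂ : List A) (c : A)
    (h₁ : (l₁ ++ [c]).IsChain r) (h₂ : (c :: l₂).IsChain r) : (l₁ ++ c :: l₂).IsChain r :=
  List.isChain_split.2 ⟨h₁, h₂⟩

omit [DecidableEq V] in
theorem g01_rev {x y : V} {l : List V} (h : (x :: (l ++ [y])).IsChain G.Adj) :
    (y :: (l.reverse ++ [x])).IsChain G.Adj := by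
  have h1 : y :: (l.reverse ++ [x]) = (x :: (l ++ [y])).reverse := by
    simp
  rw [h1, List.isChain_reverse]
  exact h.imp fun a b hab => hab.symm

theorem Thr.symm {S : Finset V} {x y : V} {w : ℕ} (h : Thr G S x y w) : Thr G S y x w := by
  obtain ⟨l, h1, h2, h3, h4⟩ := h
  exact ⟨l.reverse, List.nodup_reverse.2 h1, fun v hv => h2 v (List.mem_reverse.1 hv), g01_rev h3,
    by rw [List.length_reverse]; exact h4⟩

theorem Thr.mono {S T : Finset V} {x y : V} {w w' : ℕ} (h : Thr G S x y w) (hS : S ⊆ T)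
    (hw : w' ≤ w) : Thr G T x y w' := by
  obtain ⟨l, h1, h2, h3, h4⟩ := h
  exact ⟨l, h1, fun v hv => hS (h2 v hv), h3, hw.trans h4⟩

theorem Thr.max {S : Finset V} {x y : V} {w w' : ℕ} (h : Thr G S x y w) (h' : Thr G S x y w') :
    Thr G S x y (max w w') := by
  rcases le_total w w' with h1 | h1
  · rw [max_eq_right h1]
    exact h'
  · rw [max_eq_left h1]
    exact h

theorem Thr.trans {S₁ S₂ : Finset V} {x c y : V} {w₁ w₂ : ℕ} (h₁ : Thr G S₁ x c w₁)
    (h₂ : Thr G S₂ c y w₂) (hd : Disjoint S₁ S₂) (hc₁ : c ∉ S₁) (hc₂ : c ∉ S₂) :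
    Thr G (insert c (S₁ ∪ S₂)) x y (w₁ + w₂) := by
  obtain ⟨l, h1, h2, h3, h4⟩ := h₁
  obtain ⟨m, k1, k2, k3, k4⟩ := h₂
  refine ⟨l ++ c :: m, ?_, ?_, ?_, ?_⟩
  · rw [List.nodup_append]
    refine ⟨h1, ?_, ?_⟩
    · rw [List.nodup_cons]
      exact ⟨fun h => hc₂ (k2 c h), k1⟩
    · rintro a ha b hb rfl
      rcases List.mem_cons.1 hb with rfl | hb
      · exact hc₁ (h2 _ ha)
      · exact Finset.disjoint_left.1 hd (h2 _ ha) (k2 _ hb)
  · intro v hv
    rw [Finset.mem_insert, Finset.mem_union]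
    rcases List.mem_append.1 hv with hv | hv
    · exact Or.inr (Or.inl (h2 v hv))
    · rcases List.mem_cons.1 hv with rfl | hv
      · exact Or.inl rfl
      · exact Or.inr (Or.inr (k2 v hv))
  · have h5 := g01_glue (x :: l) (m ++ [y]) c h3 k3
    simpa using h5
  · rw [List.length_append, List.length_cons]
    omega

theorem TF.symm {S : Finset V} {x y z : V} {X : ℕ} (h : TF G S x y z X) : TF G S y x z X := by
  obtain ⟨l, m, h1, h2, h3, h4, h5⟩ := h
  refine ⟨l.reverse, m, ?_, ?_, g01_rev h3, h4, by rw [List.length_reverse]; exact h5⟩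
  · rw [List.nodup_append] at h1 ⊢
    exact ⟨List.nodup_reverse.2 h1.1, h1.2.1, fun a ha b hb =>
      h1.2.2 a (List.mem_reverse.1 ha) b hb⟩
  · intro v hv
    apply h2
    rw [List.mem_append] at hv ⊢
    rcases hv with hv | hv
    · exact Or.inl (List.mem_reverse.1 hv)
    · exact Or.inr hv

theorem TF.mono {S T : Finset V} {x y z : V} {X X' : ℕ} (h : TF G S x y z X) (hS : S ⊆ T)
    (hX : X' ≤ X) : TF G T x y z X' := by
  obtain ⟨l, m, h1, h2, h3, h4, h5⟩ := h
  exact ⟨l, m, h1, fun v hv => hS (h2 v hv), h3, h4, hX.trans h5⟩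

theorem TF.max {S : Finset V} {x y z : V} {X X' : ℕ} (h : TF G S x y z X)
    (h' : TF G S x y z X') : TF G S x y z (max X X') := by
  rcases le_total X X' with h1 | h1
  · rw [max_eq_right h1]
    exact h'
  · rw [max_eq_left h1]
    exact h

end Pool.Agent.Lib.H28P
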