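import Pool.Agent.Lib.H28P.G01

/-!
# G02 (M): through plus free path systems

PROOFS (`l`, `l'` are the lists of the hypotheses).
`TF.mk1`: `x` to `c` through `S₁`, `c` to `y` through `S₂`; the free path starts at `z` and is the
list of `h₃` without its end point `t`. So `l₁ := l ++ c :: l'`, `l₂ :=` list of `h₃`; a prefix of a
chain is a chain. Value: `(#l + #l' + 1) + #l'' + 2 ≥ w₁ + w₂ + w₃`.
`TF.mk2`: `h₁` gives `c :: (l₁ ++ [y])` and `z :: l₂`, `h₂` gives `x :: (l ++ [c])`: take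
`l ++ c :: l₁` and `l₂`.
`TF.mk3`: `h₁` gives `x :: (l₁ ++ [y])` and `c :: l₂`, `h₂` gives `z :: (l ++ [c])`: take `l₁` and
`l ++ c :: l₂`.
In all cases there are no duplicates because the sets are disjoint and `c` is in none of them.
-/

set_option autoImplicit false

namespace Pool.Agent.Lib.H28P

variable {V : Type*} [DecidableEq V] {G : SimpleGraph V}

theorem TF.mk1 {S₁ S₂ S₃ : Finset V} {x y z c t : V} {w₁ w₂ w₃ : ℕ} (h₁ : Thr G S₁ x c w₁)
    (h₂ : Thr G S₂ c y w₂) (h₃ : Thr G S₃ z t w₃) (h12 : Disjoint S₁ S₂) (h13 : Disjoint S₁ S₃)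
    (h23 : Disjoint S₂ S₃) (hc₁ : c ∉ S₁) (hc₂ : c ∉ S₂) (hc₃ : c ∉ S₃) :
    TF G (insert c (S₁ ∪ S₂ ∪ S₃)) x y z (w₁ + w₂ + w₃) := by
  obtain ⟨l, hn, hm, hc, hw⟩ := h₁
  obtain ⟨l', hn', hm', hc', hw'⟩ := h₂
  obtain ⟨l'', hn'', hm'', hc'', hw''⟩ := h₃
  rw [Finset.disjoint_left] at h12 h13 h23
  refine ⟨l ++ c :: l', l'', ?_, ?_, ?_, ?_, ?_⟩
  · have e : (l ++ c :: l') ++ l'' = l ++ (c :: (l' ++ l'')) := by simp
    rw [e]
    refine List.Nodup.append hn ?_ ?_
    · rw [List.nodup_cons]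
      refine ⟨?_, List.Nodup.append hn' hn'' ?_⟩
      · intro h
        rcases List.mem_append.1 h with h | h
        · exact hc₂ (hm' _ h)
        · exact hc₃ (hm'' _ h)
      · intro v h1 h2
        exact h23 (hm' _ h1) (hm'' _ h2)
    · intro v h1 h2
      rcases List.mem_cons.1 h2 with h | h
      · exact hc₁ (h ▸ hm _ h1)
      · rcases List.mem_append.1 h with h | h
        · exact h12 (hm _ h1) (hm' _ h)
        · exact h13 (hm _ h1) (hm'' _ h)
  · intro v hv
    simp only [List.mem_append, List.mem_cons] at hv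
    simp only [Finset.mem_insert, Finset.mem_union]
    rcases hv with (h | h | h) | h
    · exact Or.inr (Or.inl (Or.inl (hm _ h)))
    · exact Or.inl h
    · exact Or.inr (Or.inl (Or.inr (hm' _ h)))
    · exact Or.inr (Or.inr (hm'' _ h))
  · have := g01_glue (r := G.Adj) (x :: l) (l' ++ [y]) c (by simpa using hc) hc'
    simpa using this
  · have e : z :: (l'' ++ [t]) = (z :: l'') ++ [t] := by simp
    rw [e] at hc''
    exact hc''.left_of_append
  · simp only [List.length_append, List.length_cons]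
    omega

theorem TF.mk2 {S₁ S₂ : Finset V} {x y z c : V} {X₁ w₂ : ℕ} (h₁ : TF G S₁ c y z X₁)
    (h₂ : Thr G S₂ x c w₂) (hd : Disjoint S₁ S₂) (hc₁ : c ∉ S₁) (hc₂ : c ∉ S₂) :
    TF G (insert c (S₁ ∪ S₂)) x y z (X₁ + w₂) := by
  obtain ⟨l₁, l₂, hn, hm, hc, hc', hw⟩ := h₁
  obtain ⟨l, hn', hm', hc'', hw'⟩ := h₂
  rw [Finset.disjoint_left] at hd
  refine ⟨l ++ c :: l₁, l₂, ?_, ?_, ?_, hc', ?_⟩
  · have e : (l ++ c :: l₁) ++ l₂ = l ++ (c :: (l₁ ++ l₂)) := by simp
    rw [e]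
    refine List.Nodup.append hn' ?_ ?_
    · rw [List.nodup_cons]
      exact ⟨fun h => hc₁ (hm _ h), hn⟩
    · intro v h1 h2
      rcases List.mem_cons.1 h2 with h | h
      · exact hc₂ (h ▸ hm' _ h1)
      · exact hd (hm _ h) (hm' _ h1)
  · intro v hv
    simp only [List.mem_append, List.mem_cons] at hv hm
    simp only [Finset.mem_insert, Finset.mem_union]
    rcases hv with (h | h | h) | h
    · exact Or.inr (Or.inr (hm' _ h))
    · exact Or.inl h
    · exact Or.inr (Or.inl (hm _ (Or.inl h)))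
    · exact Or.inr (Or.inl (hm _ (Or.inr h)))
  · have := g01_glue (r := G.Adj) (x :: l) (l₁ ++ [y]) c (by simpa using hc'') hc
    simpa using this
  · simp only [List.length_append, List.length_cons]
    omega

theorem TF.mk3 {S₁ S₂ : Finset V} {x y z c : V} {X₁ w₂ : ℕ} (h₁ : TF G S₁ x y c X₁)
    (h₂ : Thr G S₂ z c w₂) (hd : Disjoint S₁ S₂) (hc₁ : c ∉ S₁) (hc₂ : c ∉ S₂) :
    TF G (insert c (S₁ ∪ S₂)) x y z (X₁ + w₂) := by
  obtain ⟨l₁, l₂, hn, hm, hc, hc', hw⟩ := h₁
  obtain ⟨l, hn', hm', hc'', hw'⟩ := h₂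
  rw [Finset.disjoint_left] at hd
  refine ⟨l₁, l ++ c :: l₂, ?_, ?_, hc, ?_, ?_⟩
  · have e1 : (l₁ ++ (l ++ c :: l₂)).Perm (l ++ (c :: (l₁ ++ l₂))) := by
      refine (List.perm_append_comm_assoc l₁ l (c :: l₂)).trans ?_
      exact List.Perm.append_left l List.perm_middle
    rw [e1.nodup_iff]
    refine List.Nodup.append hn' ?_ ?_
    · rw [List.nodup_cons]
      exact ⟨fun h => hc₁ (hm _ h), hn⟩
    · intro v h1 h2
      rcases List.mem_cons.1 h2 with h | h
      · exact hc₂ (h ▸ hm' _ h1)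
      · exact hd (hm _ h) (hm' _ h1)
  · intro v hv
    simp only [List.mem_append, List.mem_cons] at hv hm
    simp only [Finset.mem_insert, Finset.mem_union]
    rcases hv with h | (h | (h | h))
    · exact Or.inr (Or.inl (hm _ (Or.inl h)))
    · exact Or.inr (Or.inr (hm' _ h))
    · exact Or.inl h
    · exact Or.inr (Or.inl (hm _ (Or.inr h)))
  · have := g01_glue (r := G.Adj) (z :: l) l₂ c (by simpa using hc'') hc'
    simpa using this
  · simp only [List.length_append, List.length_cons]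
    omega

end Pool.Agent.Lib.H28P
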