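import Pool.Agent.Lib.H28P.Defs

/-!
# G03 (S/M): gadgets

PROOFS: all by induction on `h`. `Gad.adj`: in the node case `G.Adj x y` comes from `h₃`,
`G.Adj y z` from `h₁`, `G.Adj x z` from `h₂`. `Gad.notMem`: `x ∉ S₂`, `x ∉ S₃` are the induction
hypotheses for `h₂`, `h₃`, `x ∉ S₁` is `hx`, and `x ≠ c` because `G.Adj x c` (from `Gad.adj` of `h₂`);
similarly `y`, `z`. `Gad.center_notMem`: the corner `c` of the three parts. `Gad.swap12`: the new
parts are `h₂.swap12`, `h₁.swap12`, `h₃.swap12`; then commute the unions (`Finset.union_comm`).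
`Gad.swap23`: the new parts are `h₁.swap23`, `h₃.swap23`, `h₂.swap23`. `Gad.perm`: any permutation of
the corners is a product of the two swaps. `Gad.mono`: induction.
-/

set_option autoImplicit false

namespace Pool.Agent.Lib.H28P

variable {V : Type*} [DecidableEq V] {G : SimpleGraph V}

theorem Gad.adj {x y z : V} {S : Finset V} {L : Finset (Finset V)} (h : Gad G x y z S L) :
    G.Adj x y ∧ G.Adj y z ∧ G.Adj x z := by
  induction h with
  | leaf x y z hxy hyz hxz => exact ⟨hxy, hyz, hxz⟩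
  | node x y z c S₁ S₂ S₃ L₁ L₂ L₃ h₁ h₂ h₃ hx hy hz h12 h13 h23 ih₁ ih₂ ih₃ =>
    exact ⟨ih₃.1, ih₁.2.1, ih₂.2.2⟩

theorem Gad.notMem {x y z : V} {S : Finset V} {L : Finset (Finset V)} (h : Gad G x y z S L) :
    x ∉ S ∧ y ∉ S ∧ z ∉ S := by
  induction h with
  | leaf x y z hxy hyz hxz => simp
  | node x y z c S₁ S₂ S₃ L₁ L₂ L₃ h₁ h₂ h₃ hx hy hz h12 h13 h23 ih₁ ih₂ ih₃ =>
    have hxc : x ≠ c := h₂.adj.1.ne
    have hyc : y ≠ c := h₁.adj.1.ne'
    have hzc : z ≠ c := h₁.adj.2.2.ne'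
    refine ⟨?_, ?_, ?_⟩
    · simp only [Finset.mem_insert, Finset.mem_union, not_or]
      exact ⟨hxc, ⟨hx, ih₂.1⟩, ih₃.1⟩
    · simp only [Finset.mem_insert, Finset.mem_union, not_or]
      exact ⟨hyc, ⟨ih₁.2.1, hy⟩, ih₃.2.1⟩
    · simp only [Finset.mem_insert, Finset.mem_union, not_or]
      exact ⟨hzc, ⟨ih₁.2.2, ih₂.2.2⟩, hz⟩

theorem Gad.swap12 {x y z : V} {S : Finset V} {L : Finset (Finset V)} (h : Gad G x y z S L) :
    Gad G y x z S L := by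
  induction h with
  | leaf x y z hxy hyz hxz =>
    have h1 : ({x, y, z} : Finset V) = {y, x, z} := Finset.insert_comm x y {z}
    rw [h1]
    exact Gad.leaf y x z hxy.symm hxz hyz
  | node x y z c S₁ S₂ S₃ L₁ L₂ L₃ h₁ h₂ h₃ hx hy hz h12 h13 h23 ih₁ ih₂ ih₃ =>
    rw [Finset.union_comm S₁ S₂, Finset.union_comm L₁ L₂]
    exact Gad.node y x z c S₂ S₁ S₃ L₂ L₁ L₃ ih₂ ih₁ ih₃ hy hx hz h12.symm h23 h13

theorem Gad.swap23 {x y z : V} {S : Finset V} {L : Finset (Finset V)} (h : Gad G x y z S L) :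
    Gad G x z y S L := by
  induction h with
  | leaf x y z hxy hyz hxz =>
    have h1 : ({x, y, z} : Finset V) = {x, z, y} := by
      rw [Finset.pair_comm y z]
    rw [h1]
    exact Gad.leaf x z y hxz hyz.symm hxy
  | node x y z c S₁ S₂ S₃ L₁ L₂ L₃ h₁ h₂ h₃ hx hy hz h12 h13 h23 ih₁ ih₂ ih₃ =>
    rw [Finset.union_right_comm S₁ S₂ S₃, Finset.union_right_comm L₁ L₂ L₃]
    exact Gad.node x z y c S₁ S₃ S₂ L₁ L₃ L₂ ih₁ ih₃ ih₂ hx hz hy h13 h12 h23.symm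

theorem Gad.mono {G' : SimpleGraph V} {x y z : V} {S : Finset V} {L : Finset (Finset V)}
    (h : Gad G x y z S L) (hG : G ≤ G') : Gad G' x y z S L := by
  induction h with
  | leaf x y z hxy hyz hxz => exact Gad.leaf x y z (hG hxy) (hG hyz) (hG hxz)
  | node x y z c S₁ S₂ S₃ L₁ L₂ L₃ h₁ h₂ h₃ hx hy hz h12 h13 h23 ih₁ ih₂ ih₃ =>
    exact Gad.node x y z c S₁ S₂ S₃ L₁ L₂ L₃ ih₁ ih₂ ih₃ hx hy hz h12 h13 h23

end Pool.Agent.Lib.H28P
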