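import Pool.Agent.Lib.H28P.G02

/-!
# G04 (M): the profile of a subdivided triangle, and of an empty one

PROOFS. `Prof.leaf`: empty lists. `Prof.node`: the parts are `T₁ = (c, y, z)`, `T₂ = (x, c, z)`,
`T₃ = (x, y, c)`.
THROUGH. From `x` to `y` via `c`: `w₁ + w₂`: `x` to `c` in `T₂`, `c` to `y` in `T₁`; `w₁ + w₃`: `x` to
`c` in `T₃`, `c` to `y` in `T₁`; `w₂ + w₃`: `x` to `c` in `T₂`, `c` to `y` in `T₃` (`Thr.trans`, then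
`Thr.mono`, `Thr.max`). The other pairs in the same way: it is convenient to prove the six through
statements and the six `TF` statements from ONE lemma with the roles permuted, i.e. first prove the
lemma for `x`, `y` (resp. `x`, `y`, free `z`) from the needed components of the three profiles and then
apply it with permuted corners and parts (for the permuted triangle the union of the `S i` has to be
rewritten by `Finset.union_comm`, or use `Thr.mono` with an inclusion proved by `intro v; simp; tauto`).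
THROUGH `x`-`y`, FREE `z`. `w₁ + w₂ + w₃`: `TF.mk1` with `x` to `c` in `T₃`, `c` to `y` in `T₁`, free
from `z` in `T₂` (through path `z` to `x`). `X₁ + w₃`, `X₁ + w₂`: `TF.mk2` with `TF` of `T₁` at
`(c, y | z)` and `x` to `c` in `T₃` resp. `T₂`. `X₂ + w₁`, `X₂ + w₃`: symmetric (`TF.symm`):
`TF` of `T₂` at `(c, x | z)` and `y` to `c` in `T₁` resp. `T₃`, which gives `TF .. y x z`. `X₃ + w₁`,
`X₃ + w₂`: `TF.mk3` with `TF` of `T₃` at `(x, y | c)` and `z` to `c` in `T₁` resp. `T₂`.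
-/

set_option autoImplicit false

namespace Pool.Agent.Lib.H28P

variable {V : Type*} [DecidableEq V] {G : SimpleGraph V}

theorem Prof.leaf {x y z : V} (hxy : G.Adj x y) (hyz : G.Adj y z) (hxz : G.Adj x z) :
    Prof G x y z ∅ 1 2 := by
  have h1 : ∀ {u v : V}, G.Adj u v → Thr G ∅ u v 1 := fun {u v} h =>
    ⟨[], by simp, by simp, by simpa using h, by simp⟩
  have h2 : ∀ {u v w : V}, G.Adj u v → TF G ∅ u v w 2 := fun {u v w} h =>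
    ⟨[], [], by simp, by simp, by simpa using h, by simp, by simp⟩
  exact ⟨⟨h1 hxy, h1 hxy.symm, h1 hyz, h1 hyz.symm, h1 hxz, h1 hxz.symm⟩,
    ⟨h2 hxy, h2 hxy.symm, h2 hyz, h2 hyz.symm, h2 hxz, h2 hxz.symm⟩⟩

private theorem g04_swap12 {x y z : V} {S : Finset V} {w X : ℕ} (h : Prof G x y z S w X) :
    Prof G y x z S w X := by
  obtain ⟨⟨a1, a2, a3, a4, a5, a6⟩, ⟨b1, b2, b3, b4, b5, b6⟩⟩ := h
  exact ⟨⟨a2, a1, a5, a6, a3, a4⟩, ⟨b2, b1, b5, b6, b3, b4⟩⟩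

private theorem g04_swap23 {x y z : V} {S : Finset V} {w X : ℕ} (h : Prof G x y z S w X) :
    Prof G x z y S w X := by
  obtain ⟨⟨a1, a2, a3, a4, a5, a6⟩, ⟨b1, b2, b3, b4, b5, b6⟩⟩ := h
  exact ⟨⟨a5, a6, a4, a3, a1, a2⟩, ⟨b5, b6, b4, b3, b1, b2⟩⟩

private theorem g04_main {x y z c : V} {S₁ S₂ S₃ T : Finset V} {w₁ w₂ w₃ X₁ X₂ X₃ w X : ℕ}
    (h₁ : Prof G c y z S₁ w₁ X₁) (h₂ : Prof G x c z S₂ w₂ X₂) (h₃ : Prof G x y c S₃ w₃ X₃)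
    (h12 : Disjoint S₁ S₂) (h13 : Disjoint S₁ S₃) (h23 : Disjoint S₂ S₃)
    (hc₁ : c ∉ S₁) (hc₂ : c ∉ S₂) (hc₃ : c ∉ S₃)
    (hT : insert c (S₁ ∪ S₂ ∪ S₃) ⊆ T)
    (hw : w ≤ max (w₁ + w₂) (max (w₁ + w₃) (w₂ + w₃)))
    (hX : X ≤ max (w₁ + w₂ + w₃) (max (max (X₁ + w₂) (X₁ + w₃))
        (max (max (X₂ + w₁) (X₂ + w₃)) (max (X₃ + w₁) (X₃ + w₂))))) :
    (Thr G T x y w ∧ Thr G T y x w) ∧ (TF G T x y z X ∧ TF G T y x z X) := by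
  obtain ⟨⟨a1, a2, a3, a4, a5, a6⟩, ⟨b1, b2, b3, b4, b5, b6⟩⟩ := h₁
  obtain ⟨⟨c1, c2, c3, c4, c5, c6⟩, ⟨d1, d2, d3, d4, d5, d6⟩⟩ := h₂
  obtain ⟨⟨e1, e2, e3, e4, e5, e6⟩, ⟨f1, f2, f3, f4, f5, f6⟩⟩ := h₃
  have hT' : ∀ v, v = c ∨ v ∈ S₁ ∨ v ∈ S₂ ∨ v ∈ S₃ → v ∈ T := by
    intro v hv
    apply hT
    simp only [Finset.mem_insert, Finset.mem_union]
    tauto
  have sub : ∀ {A B : Finset V}, (∀ v ∈ A, v ∈ S₁ ∨ v ∈ S₂ ∨ v ∈ S₃) →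
      (∀ v ∈ B, v ∈ S₁ ∨ v ∈ S₂ ∨ v ∈ S₃) → insert c (A ∪ B) ⊆ T := by
    intro A B hA hB v hv
    simp only [Finset.mem_insert, Finset.mem_union] at hv
    apply hT'
    rcases hv with hv | hv | hv
    · exact Or.inl hv
    · exact Or.inr (hA v hv)
    · exact Or.inr (hB v hv)
  have s1 : ∀ v ∈ S₁, v ∈ S₁ ∨ v ∈ S₂ ∨ v ∈ S₃ := fun v hv => Or.inl hv
  have s2 : ∀ v ∈ S₂, v ∈ S₁ ∨ v ∈ S₂ ∨ v ∈ S₃ := fun v hv => Or.inr (Or.inl hv)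
  have s3 : ∀ v ∈ S₃, v ∈ S₁ ∨ v ∈ S₂ ∨ v ∈ S₃ := fun v hv => Or.inr (Or.inr hv)
  have t1 : Thr G T x y (w₂ + w₁) := (c1.trans a1 h12.symm hc₂ hc₁).mono (sub s2 s1) le_rfl
  have t2 : Thr G T x y (w₃ + w₁) := (e5.trans a1 h13.symm hc₃ hc₁).mono (sub s3 s1) le_rfl
  have t3 : Thr G T x y (w₂ + w₃) := (c1.trans e4 h23 hc₂ hc₃).mono (sub s2 s3) le_rfl
  have t : Thr G T x y w := by
    refine ((t1.max t2).max t3).mono (Finset.Subset.refl T) ?_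
    omega
  have u1 : TF G T x y z (w₃ + w₁ + w₂) := by
    refine (TF.mk1 e5 a1 c6 h13.symm h23.symm h12 hc₃ hc₁ hc₂).mono ?_ le_rfl
    intro v hv
    simp only [Finset.mem_insert, Finset.mem_union] at hv
    apply hT'
    tauto
  have u2 : TF G T x y z (X₁ + w₃) := (TF.mk2 b1 e5 h13 hc₁ hc₃).mono (sub s1 s3) le_rfl
  have u3 : TF G T x y z (X₁ + w₂) := (TF.mk2 b1 c1 h12 hc₁ hc₂).mono (sub s1 s2) le_rfl
  have u4 : TF G T x y z (X₂ + w₁) :=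
    ((TF.mk2 d2 a2 h12.symm hc₂ hc₁).symm).mono (sub s2 s1) le_rfl
  have u5 : TF G T x y z (X₂ + w₃) :=
    ((TF.mk2 d2 e3 h23 hc₂ hc₃).symm).mono (sub s2 s3) le_rfl
  have u6 : TF G T x y z (X₃ + w₁) := (TF.mk3 f1 a6 h13.symm hc₃ hc₁).mono (sub s3 s1) le_rfl
  have u7 : TF G T x y z (X₃ + w₂) := (TF.mk3 f1 c4 h23.symm hc₃ hc₂).mono (sub s3 s2) le_rfl
  have u : TF G T x y z X := by
    refine ((((((u1.max u2).max u3).max u4).max u5).max u6).max u7).mono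
      (Finset.Subset.refl T) ?_
    omega
  exact ⟨⟨t, t.symm⟩, ⟨u, u.symm⟩⟩

theorem Prof.node {x y z c : V} {S₁ S₂ S₃ : Finset V} {w₁ w₂ w₃ X₁ X₂ X₃ : ℕ}
    (h₁ : Prof G c y z S₁ w₁ X₁) (h₂ : Prof G x c z S₂ w₂ X₂) (h₃ : Prof G x y c S₃ w₃ X₃)
    (h12 : Disjoint S₁ S₂) (h13 : Disjoint S₁ S₃) (h23 : Disjoint S₂ S₃)
    (hc₁ : c ∉ S₁) (hc₂ : c ∉ S₂) (hc₃ : c ∉ S₃) :
    Prof G x y z (insert c (S₁ ∪ S₂ ∪ S₃)) (max (w₁ + w₂) (max (w₁ + w₃) (w₂ + w₃)))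
      (max (w₁ + w₂ + w₃) (max (max (X₁ + w₂) (X₁ + w₃))
        (max (max (X₂ + w₁) (X₂ + w₃)) (max (X₃ + w₁) (X₃ + w₂))))) := by
  obtain ⟨⟨p1, p2⟩, ⟨q1, q2⟩⟩ := g04_main (T := insert c (S₁ ∪ S₂ ∪ S₃)) h₁ h₂ h₃ h12 h13 h23
    hc₁ hc₂ hc₃ (Finset.Subset.refl _) le_rfl le_rfl
  obtain ⟨⟨p3, p4⟩, ⟨q3, q4⟩⟩ := g04_main (T := insert c (S₁ ∪ S₂ ∪ S₃))
    (w := max (w₁ + w₂) (max (w₁ + w₃) (w₂ + w₃)))
    (X := max (w₁ + w₂ + w₃) (max (max (X₁ + w₂) (X₁ + w₃))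
        (max (max (X₂ + w₁) (X₂ + w₃)) (max (X₃ + w₁) (X₃ + w₂)))))
    (x := y) (y := z) (z := x) (c := c)
    (g04_swap23 (g04_swap12 h₂)) (g04_swap23 (g04_swap12 h₃)) (g04_swap23 (g04_swap12 h₁))
    h23 h12.symm h13.symm
    hc₂ hc₃ hc₁ (by intro v hv; simp only [Finset.mem_insert, Finset.mem_union] at hv ⊢; tauto)
    (by omega) (by omega)
  obtain ⟨⟨p5, p6⟩, ⟨q5, q6⟩⟩ := g04_main (T := insert c (S₁ ∪ S₂ ∪ S₃))
    (w := max (w₁ + w₂) (max (w₁ + w₃) (w₂ + w₃)))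
    (X := max (w₁ + w₂ + w₃) (max (max (X₁ + w₂) (X₁ + w₃))
        (max (max (X₂ + w₁) (X₂ + w₃)) (max (X₃ + w₁) (X₃ + w₂)))))
    (x := x) (y := z) (z := y) (c := c)
    (g04_swap23 h₁) (g04_swap23 h₃) (g04_swap23 h₂)
    h13 h12 h23.symm
    hc₁ hc₃ hc₂ (by intro v hv; simp only [Finset.mem_insert, Finset.mem_union] at hv ⊢; tauto)
    (by omega) (by omega)
  exact ⟨⟨p1, p2, p3, p4, p5, p6⟩, ⟨q1, q2, q3, q4, q5, q6⟩⟩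

end Pool.Agent.Lib.H28P
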