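import Pool.Agent.Lib.H28P.G03
import Pool.Agent.Lib.H28P.G04

/-!
# G05 (S): every gadget has a profile

PROOF: induction on `h`. Leaf: `R.leaf`, `Prof.leaf`. Node: `R.node`, `Prof.node`; `c` is in none of
the `S i` by `Gad.notMem` of the parts, so the set has `1 + #S₁ + #S₂ + #S₃` elements, and
`2 * (1 + s₁ + s₂ + s₃) + 1 = (2 s₁ + 1) + (2 s₂ + 1) + (2 s₃ + 1)`.
-/

set_option autoImplicit false

namespace Pool.Agent.Lib.H28P

variable {V : Type*} [DecidableEq V] {G : SimpleGraph V}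

theorem Gad.exists_prof {x y z : V} {S : Finset V} {L : Finset (Finset V)} (h : Gad G x y z S L) :
    ∃ w X, R (2 * S.card + 1) w X ∧ Prof G x y z S w X := by
  induction h with
  | leaf x y z hxy hyz hxz =>
    exact ⟨1, 2, by simpa using R.leaf, Prof.leaf hxy hyz hxz⟩
  | node x y z c S₁ S₂ S₃ L₁ L₂ L₃ h₁ h₂ h₃ hx hy hz h12 h13 h23 ih₁ ih₂ ih₃ =>
    obtain ⟨w₁, X₁, r₁, p₁⟩ := ih₁
    obtain ⟨w₂, X₂, r₂, p₂⟩ := ih₂
    obtain ⟨w₃, X₃, r₃, p₃⟩ := ih₃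
    have hc₁ := h₁.notMem.1
    have hc₂ := h₂.notMem.2.1
    have hc₃ := h₃.notMem.2.2
    have hcard : 2 * (insert c (S₁ ∪ S₂ ∪ S₃)).card + 1
        = (2 * S₁.card + 1) + (2 * S₂.card + 1) + (2 * S₃.card + 1) := by
      have hd : Disjoint (S₁ ∪ S₂) S₃ := by
        rw [Finset.disjoint_union_left]
        exact ⟨h13, h23⟩
      have hc : c ∉ S₁ ∪ S₂ ∪ S₃ := by
        simp only [Finset.mem_union, not_or]
        exact ⟨⟨hc₁, hc₂⟩, hc₃⟩
      rw [Finset.card_insert_of_notMem hc, Finset.card_union_of_disjoint hd,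
        Finset.card_union_of_disjoint h12]
      ring
    refine ⟨_, _, ?_, Prof.node p₁ p₂ p₃ h12 h13 h23 hc₁ hc₂ hc₃⟩
    rw [hcard]
    exact R.node _ _ _ _ _ _ _ _ _ r₁ r₂ r₃

end Pool.Agent.Lib.H28P
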