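import Pool.Agent.Lib.H28P.G01

/-!
# G06 (M): long paths in a triangulation of the sphere

PROOFS. `hasPath_A`: `hX` gives `b :: (l₁ ++ [c])` and `a :: l₂` in `S₄`, `h₃` gives
`a :: (l₃ ++ [b])`, `h₁` gives `c :: (l ++ [d])`, `h₂` gives `d :: (l' ++ [t])`, so `d :: l'` is a
chain. The path is `l₂.reverse ++ a :: (l₃ ++ b :: (l₁ ++ c :: (l ++ d :: l')))`: no duplicates (the
sets are disjoint, the four corners are distinct and in none of the sets), consecutive vertices are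
adjacent (`g01_glue` repeatedly), it has `#l₂ + #l₃ + #l₁ + #l + #l' + 4` vertices, which is at least
`X + w₃ + w₁ + w₂ - 1`.
`hasPath_B`: `h₄` gives `b :: (l₁ ++ [c])`, `a :: l₂` in `S₄`, `h₃` gives `a :: (k₁ ++ [b])`,
`d :: k₂` in `S₃`, `h₁` gives `c :: (l ++ [d])`: the path is
`l₂.reverse ++ a :: (k₁ ++ b :: (l₁ ++ c :: (l ++ d :: k₂)))`.
`hasPath_T`: `h` gives `p :: (l₁ ++ [q])`, `r :: l₂` in `S`, `h'` gives `q :: (k₁ ++ [r])`, `p :: k₂` in
`S'`: the path is `k₂.reverse ++ p :: (l₁ ++ q :: (k₁ ++ r :: l₂))`.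
-/

set_option autoImplicit false

namespace Pool.Agent.Lib.H28P

variable {V : Type*} [DecidableEq V] {G : SimpleGraph V}

omit [DecidableEq V] in
theorem g06_rev {G : SimpleGraph V} (a : V) (l : List V) (h : (a :: l).IsChain G.Adj) :
    (l.reverse ++ [a]).IsChain G.Adj := by
  have h2 : (a :: l).reverse.IsChain G.Adj := by
    rw [List.isChain_reverse]
    exact h.imp (fun _ _ h => h.symm)
  simpa using h2

omit [DecidableEq V] in
theorem g06_pre {G : SimpleGraph V} (a t : V) (l : List V) (h : (a :: (l ++ [t])).IsChain G.Adj) :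
    (a :: l).IsChain G.Adj := by
  have h2 : ((a :: l) ++ [t]).IsChain G.Adj := by simpa using h
  exact h2.left_of_append

theorem hasPath_A {T S₁ S₂ S₃ S₄ : Finset V} {a b c d t : V} {X w₁ w₂ w₃ : ℕ}
    (hX : TF G S₄ b c a X) (h₃ : Thr G S₃ a b w₃) (h₁ : Thr G S₁ c d w₁) (h₂ : Thr G S₂ d t w₂)
    (h12 : Disjoint S₁ S₂) (h13 : Disjoint S₁ S₃) (h14 : Disjoint S₁ S₄) (h23 : Disjoint S₂ S₃)
    (h24 : Disjoint S₂ S₄) (h34 : Disjoint S₃ S₄)
    (hab : a ≠ b) (hac : a ≠ c) (had : a ≠ d) (hbc : b ≠ c) (hbd : b ≠ d) (hcd : c ≠ d)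
    (hp : ∀ v, v = a ∨ v = b ∨ v = c ∨ v = d → v ∉ S₁ ∧ v ∉ S₂ ∧ v ∉ S₃ ∧ v ∉ S₄ ∧ v ∈ T)
    (hS : S₁ ⊆ T ∧ S₂ ⊆ T ∧ S₃ ⊆ T ∧ S₄ ⊆ T) :
    HasPath G T (X + w₁ + w₂ + w₃) := by
  obtain ⟨l₁, l₂, hn, hm, hc1, hc2, hXle⟩ := hX
  obtain ⟨l₃, hn3, hm3, hch3, hw3⟩ := h₃
  obtain ⟨l, hnl, hml, hchl, hwl⟩ := h₁
  obtain ⟨l', hnl', hml', hchl', hwl'⟩ := h₂
  have ha := hp a (by simp)
  have hb := hp b (by simp)
  have hc := hp c (by simp)
  have hd := hp d (by simp)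
  have m1 : ∀ v ∈ l₁, v ∈ S₄ := fun v hv => hm v (by simp [hv])
  have m2 : ∀ v ∈ l₂, v ∈ S₄ := fun v hv => hm v (by simp [hv])
  rw [List.nodup_append] at hn
  obtain ⟨n1, n2, n12⟩ := hn
  refine ⟨l₂.reverse ++ a :: (l₃ ++ b :: (l₁ ++ c :: (l ++ d :: l'))), ?_, ?_, ?_, ?_⟩
  · have f : ∀ {A B : Finset V}, Disjoint A B → ∀ v, v ∈ A → v ∈ B → False :=
      fun h v h1 h2 => Finset.disjoint_left.1 h h1 h2
    simp only [List.nodup_append, List.nodup_cons, List.nodup_reverse, List.mem_append,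
      List.mem_cons, List.mem_reverse]
    refine ⟨n2, ⟨?_, hn3, ⟨?_, n1, ⟨?_, hnl, ⟨?_, hnl'⟩, ?_⟩, ?_⟩, ?_⟩, ?_⟩
    · rintro (h | h | h | h | h | h | h)
      · exact ha.2.2.1 (hm3 a h)
      · exact hab h
      · exact ha.2.2.2.1 (m1 a h)
      · exact hac h
      · exact ha.1 (hml a h)
      · exact had h
      · exact ha.2.1 (hml' a h)
    · rintro (h | h | h | h | h)
      · exact hb.2.2.2.1 (m1 b h)
      · exact hbc h
      · exact hb.1 (hml b h)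
      · exact hbd h
      · exact hb.2.1 (hml' b h)
    · rintro (h | h | h)
      · exact hc.1 (hml c h)
      · exact hcd h
      · exact hc.2.1 (hml' c h)
    · exact fun h => hd.2.1 (hml' d h)
    · rintro v hv w (rfl | hw) rfl
      · exact hd.1 (hml _ hv)
      · exact f h12 _ (hml _ hv) (hml' _ hw)
    · rintro v hv w (rfl | hw | rfl | hw) rfl
      · exact hc.2.2.2.1 (m1 _ hv)
      · exact f h14 _ (hml _ hw) (m1 _ hv)
      · exact hd.2.2.2.1 (m1 _ hv)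
      · exact f h24 _ (hml' _ hw) (m1 _ hv)
    · rintro v hv w (rfl | hw | rfl | hw | rfl | hw) rfl
      · exact hb.2.2.1 (hm3 _ hv)
      · exact f h34 _ (hm3 _ hv) (m1 _ hw)
      · exact hc.2.2.1 (hm3 _ hv)
      · exact f h13 _ (hml _ hw) (hm3 _ hv)
      · exact hd.2.2.1 (hm3 _ hv)
      · exact f h23 _ (hml' _ hw) (hm3 _ hv)
    · rintro v hv w (rfl | hw | rfl | hw | rfl | hw | rfl | hw) rfl
      · exact ha.2.2.2.1 (m2 _ hv)
      · exact f h34 _ (hm3 _ hw) (m2 _ hv)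
      · exact hb.2.2.2.1 (m2 _ hv)
      · exact n12 _ hw _ hv rfl
      · exact hc.2.2.2.1 (m2 _ hv)
      · exact f h14 _ (hml _ hw) (m2 _ hv)
      · exact hd.2.2.2.1 (m2 _ hv)
      · exact f h24 _ (hml' _ hw) (m2 _ hv)
  · intro v hv
    simp only [List.mem_append, List.mem_cons, List.mem_reverse] at hv
    rcases hv with h | rfl | h | rfl | h | rfl | h | rfl | h
    · exact hS.2.2.2 (m2 _ h)
    · exact ha.2.2.2.2
    · exact hS.2.2.1 (hm3 _ h)
    · exact hb.2.2.2.2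
    · exact hS.2.2.2 (m1 _ h)
    · exact hc.2.2.2.2
    · exact hS.1 (hml _ h)
    · exact hd.2.2.2.2
    · exact hS.2.1 (hml' _ h)
  · have e4 : ((c :: l) ++ d :: l').IsChain G.Adj :=
      g01_glue (c :: l) l' d (by simpa using hchl) (g06_pre d t l' hchl')
    have e3 : ((b :: l₁) ++ c :: (l ++ d :: l')).IsChain G.Adj :=
      g01_glue (b :: l₁) _ c (by simpa using hc1) (by simpa using e4)
    have e2 : ((a :: l₃) ++ b :: (l₁ ++ c :: (l ++ d :: l'))).IsChain G.Adj :=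
      g01_glue (a :: l₃) _ b (by simpa using hch3) (by simpa using e3)
    exact g01_glue l₂.reverse _ a (g06_rev a l₂ hc2) (by simpa using e2)
  · simp only [List.length_append, List.length_cons, List.length_reverse]
    omega

theorem hasPath_B {T S₁ S₃ S₄ : Finset V} {a b c d : V} {X Y w : ℕ}
    (h₄ : TF G S₄ b c a X) (h₃ : TF G S₃ a b d Y) (h₁ : Thr G S₁ c d w)
    (h13 : Disjoint S₁ S₃) (h14 : Disjoint S₁ S₄) (h34 : Disjoint S₃ S₄)
    (hab : a ≠ b) (hac : a ≠ c) (had : a ≠ d) (hbc : b ≠ c) (hbd : b ≠ d) (hcd : c ≠ d)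
    (hp : ∀ v, v = a ∨ v = b ∨ v = c ∨ v = d → v ∉ S₁ ∧ v ∉ S₃ ∧ v ∉ S₄ ∧ v ∈ T)
    (hS : S₁ ⊆ T ∧ S₃ ⊆ T ∧ S₄ ⊆ T) :
    HasPath G T (X + Y + w) := by
  obtain ⟨l₁, l₂, hn, hm, hc1, hc2, hXle⟩ := h₄
  obtain ⟨k₁, k₂, hk, hmk, hk1, hk2, hYle⟩ := h₃
  obtain ⟨l, hnl, hml, hchl, hwl⟩ := h₁
  have ha := hp a (by simp)
  have hb := hp b (by simp)
  have hc := hp c (by simp)
  have hd := hp d (by simp)
  have m1 : ∀ v ∈ l₁, v ∈ S₄ := fun v hv => hm v (by simp [hv])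
  have m2 : ∀ v ∈ l₂, v ∈ S₄ := fun v hv => hm v (by simp [hv])
  have q1 : ∀ v ∈ k₁, v ∈ S₃ := fun v hv => hmk v (by simp [hv])
  have q2 : ∀ v ∈ k₂, v ∈ S₃ := fun v hv => hmk v (by simp [hv])
  rw [List.nodup_append] at hn hk
  obtain ⟨n1, n2, n12⟩ := hn
  obtain ⟨p1, p2, p12⟩ := hk
  refine ⟨l₂.reverse ++ a :: (k₁ ++ b :: (l₁ ++ c :: (l ++ d :: k₂))), ?_, ?_, ?_, ?_⟩
  · have f : ∀ {A B : Finset V}, Disjoint A B → ∀ v, v ∈ A → v ∈ B → False :=
      fun h v h1 h2 => Finset.disjoint_left.1 h h1 h2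
    simp only [List.nodup_append, List.nodup_cons, List.nodup_reverse, List.mem_append,
      List.mem_cons, List.mem_reverse]
    refine ⟨n2, ⟨?_, p1, ⟨?_, n1, ⟨?_, hnl, ⟨?_, p2⟩, ?_⟩, ?_⟩, ?_⟩, ?_⟩
    · rintro (h | h | h | h | h | h | h)
      · exact ha.2.1 (q1 a h)
      · exact hab h
      · exact ha.2.2.1 (m1 a h)
      · exact hac h
      · exact ha.1 (hml a h)
      · exact had h
      · exact ha.2.1 (q2 a h)
    · rintro (h | h | h | h | h)
      · exact hb.2.2.1 (m1 b h)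
      · exact hbc h
      · exact hb.1 (hml b h)
      · exact hbd h
      · exact hb.2.1 (q2 b h)
    · rintro (h | h | h)
      · exact hc.1 (hml c h)
      · exact hcd h
      · exact hc.2.1 (q2 c h)
    · exact fun h => hd.2.1 (q2 d h)
    · rintro v hv w (rfl | hw) rfl
      · exact hd.1 (hml _ hv)
      · exact f h13 _ (hml _ hv) (q2 _ hw)
    · rintro v hv w (rfl | hw | rfl | hw) rfl
      · exact hc.2.2.1 (m1 _ hv)
      · exact f h14 _ (hml _ hw) (m1 _ hv)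
      · exact hd.2.2.1 (m1 _ hv)
      · exact f h34 _ (q2 _ hw) (m1 _ hv)
    · rintro v hv w (rfl | hw | rfl | hw | rfl | hw) rfl
      · exact hb.2.1 (q1 _ hv)
      · exact f h34 _ (q1 _ hv) (m1 _ hw)
      · exact hc.2.1 (q1 _ hv)
      · exact f h13 _ (hml _ hw) (q1 _ hv)
      · exact hd.2.1 (q1 _ hv)
      · exact p12 _ hv _ hw rfl
    · rintro v hv w (rfl | hw | rfl | hw | rfl | hw | rfl | hw) rfl
      · exact ha.2.2.1 (m2 _ hv)
      · exact f h34 _ (q1 _ hw) (m2 _ hv)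
      · exact hb.2.2.1 (m2 _ hv)
      · exact n12 _ hw _ hv rfl
      · exact hc.2.2.1 (m2 _ hv)
      · exact f h14 _ (hml _ hw) (m2 _ hv)
      · exact hd.2.2.1 (m2 _ hv)
      · exact f h34 _ (q2 _ hw) (m2 _ hv)
  · intro v hv
    simp only [List.mem_append, List.mem_cons, List.mem_reverse] at hv
    rcases hv with h | rfl | h | rfl | h | rfl | h | rfl | h
    · exact hS.2.2 (m2 _ h)
    · exact ha.2.2.2
    · exact hS.2.1 (q1 _ h)
    · exact hb.2.2.2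
    · exact hS.2.2 (m1 _ h)
    · exact hc.2.2.2
    · exact hS.1 (hml _ h)
    · exact hd.2.2.2
    · exact hS.2.1 (q2 _ h)
  · have e4 : ((c :: l) ++ d :: k₂).IsChain G.Adj :=
      g01_glue (c :: l) k₂ d (by simpa using hchl) hk2
    have e3 : ((b :: l₁) ++ c :: (l ++ d :: k₂)).IsChain G.Adj :=
      g01_glue (b :: l₁) _ c (by simpa using hc1) (by simpa using e4)
    have e2 : ((a :: k₁) ++ b :: (l₁ ++ c :: (l ++ d :: k₂))).IsChain G.Adj :=
      g01_glue (a :: k₁) _ b (by simpa using hk1) (by simpa using e3)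
    exact g01_glue l₂.reverse _ a (g06_rev a l₂ hc2) (by simpa using e2)
  · simp only [List.length_append, List.length_cons, List.length_reverse]
    omega

theorem hasPath_T {T S S' : Finset V} {p q r : V} {X Y : ℕ}
    (h : TF G S p q r X) (h' : TF G S' q r p Y) (hd : Disjoint S S')
    (hpq : p ≠ q) (hpr : p ≠ r) (hqr : q ≠ r)
    (hp : ∀ v, v = p ∨ v = q ∨ v = r → v ∉ S ∧ v ∉ S' ∧ v ∈ T) (hS : S ⊆ T ∧ S' ⊆ T) :
    HasPath G T (X + Y) := by
  obtain ⟨l₁, l₂, hn, hm, hc1, hc2, hXle⟩ := h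
  obtain ⟨k₁, k₂, hk, hmk, hk1, hk2, hYle⟩ := h'
  have ha := hp p (by simp)
  have hb := hp q (by simp)
  have hc := hp r (by simp)
  have m1 : ∀ v ∈ l₁, v ∈ S := fun v hv => hm v (by simp [hv])
  have m2 : ∀ v ∈ l₂, v ∈ S := fun v hv => hm v (by simp [hv])
  have q1 : ∀ v ∈ k₁, v ∈ S' := fun v hv => hmk v (by simp [hv])
  have q2 : ∀ v ∈ k₂, v ∈ S' := fun v hv => hmk v (by simp [hv])
  rw [List.nodup_append] at hn hk
  obtain ⟨n1, n2, n12⟩ := hn
  obtain ⟨p1, p2, p12⟩ := hk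
  refine ⟨k₂.reverse ++ p :: (l₁ ++ q :: (k₁ ++ r :: l₂)), ?_, ?_, ?_, ?_⟩
  · have f : ∀ v, v ∈ S → v ∈ S' → False := fun v h1 h2 => Finset.disjoint_left.1 hd h1 h2
    simp only [List.nodup_append, List.nodup_cons, List.nodup_reverse, List.mem_append,
      List.mem_cons, List.mem_reverse]
    refine ⟨p2, ⟨?_, n1, ⟨?_, p1, ⟨?_, n2⟩, ?_⟩, ?_⟩, ?_⟩
    · rintro (h | h | h | h | h)
      · exact ha.1 (m1 _ h)
      · exact hpq h
      · exact ha.2.1 (q1 _ h)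
      · exact hpr h
      · exact ha.1 (m2 _ h)
    · rintro (h | h | h)
      · exact hb.2.1 (q1 _ h)
      · exact hqr h
      · exact hb.1 (m2 _ h)
    · exact fun h => hc.1 (m2 _ h)
    · rintro v hv w (rfl | hw) rfl
      · exact hc.2.1 (q1 _ hv)
      · exact f _ (m2 _ hw) (q1 _ hv)
    · rintro v hv w (rfl | hw | rfl | hw) rfl
      · exact hb.1 (m1 _ hv)
      · exact f _ (m1 _ hv) (q1 _ hw)
      · exact hc.1 (m1 _ hv)
      · exact n12 _ hv _ hw rfl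
    · rintro v hv w (rfl | hw | rfl | hw | rfl | hw) rfl
      · exact ha.2.1 (q2 _ hv)
      · exact f _ (m1 _ hw) (q2 _ hv)
      · exact hb.2.1 (q2 _ hv)
      · exact p12 _ hw _ hv rfl
      · exact hc.2.1 (q2 _ hv)
      · exact f _ (m2 _ hw) (q2 _ hv)
  · intro v hv
    simp only [List.mem_append, List.mem_cons, List.mem_reverse] at hv
    rcases hv with h | rfl | h | rfl | h | rfl | h
    · exact hS.2 (q2 _ h)
    · exact ha.2.2
    · exact hS.1 (m1 _ h)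
    · exact hb.2.2
    · exact hS.2 (q1 _ h)
    · exact hc.2.2
    · exact hS.1 (m2 _ h)
  · have e3 : ((q :: k₁) ++ r :: l₂).IsChain G.Adj :=
      g01_glue (q :: k₁) _ r (by simpa using hk1) hc2
    have e2 : ((p :: l₁) ++ q :: (k₁ ++ r :: l₂)).IsChain G.Adj :=
      g01_glue (p :: l₁) _ q (by simpa using hc1) (by simpa using e3)
    exact g01_glue k₂.reverse _ p (g06_rev p k₂ hk2) (by simpa using e2)
  · simp only [List.length_append, List.length_cons, List.length_reverse]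
    omega

end Pool.Agent.Lib.H28P
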