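import Pool.Agent.Lib.H28P.G05
import Pool.Agent.Lib.H28P.G06

/-!
# G07 (M): the numerical data of a quadruple of gadgets

PROOF. For each `i` choose an order `j, k, l` of the other indices and apply `Gad.exists_prof` to
`Gad G (p j) (p k) (p l) (S i) (L i)`: this gives `w i`, `X i` with `R` and `Prof`; the profile in
every other order of the corners follows because `Prof` contains all positions (prove once a lemma
`Prof.perm`: `Prof G x y z S w X → Prof G y x z S w X ∧ Prof G x z y S w X`, a reordering of the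
conjunction). The inequality `X i + w j + w k + w l ≤ H`: `hasPath_A` with `S₄ = S i`,
`b, c, a = p j, p k, p l`, `d = p i`: the triangle opposite to `a = p l` contains `b, c, d`. So, with
`a = p l`, `b = p j`, `c = p k`, `d = p i`: `TF` in `S i` at `(b, c | a)`, `a` to `b` in `S k` (the
triangle opposite to `p k = c`), `c` to `d` in `S l` (opposite to `a`), free from `d` in `S j`
(opposite to `b`; through path from `d` to `a`). `X i + X j + w k ≤ H`: `hasPath_B` with `S₄ = S i`,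
`S₃ = S j`: let `l` be the fourth index, `d = p i`, `c = p j`, `a = p k`, `b = p l`: `TF` in `S i`
at `(b, c | a)`, `TF` in `S j` at `(a, b | d)`, `c` to `d` in `S k` (opposite to `a`).
`X i + Y i ≤ H`: the outside of the triangle `p j, p k, p l` is the gadget with centre `p i` and the
parts `S j`, `S k`, `S l`: `Gad.node` with `c = p i`, parts `Gad G (p i) (p k) (p l) (S j)`,
`Gad G (p j) (p i) (p l) (S k)`, `Gad G (p j) (p k) (p i) (S l)`; its set of vertices has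
`1 + #S j + #S k + #S l` elements, so its number of faces is the sum of the other three. Apply
`Gad.exists_prof` to it and `hasPath_T` with `S = S i`, `S' =` this set. All sets are inside
`quadV p S`, a `HasPath G (quadV p S) k` gives `k ≤ H` by `hH`.
-/

set_option autoImplicit false

namespace Pool.Agent.Lib.H28P

variable {V : Type*} [DecidableEq V] {G : SimpleGraph V}

theorem g07_mem4 : ∀ i a b c x : Fin 4, i ≠ a → i ≠ b → i ≠ c → a ≠ b → a ≠ c → b ≠ c → i ≠ x →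
    x = a ∨ x = b ∨ x = c := by
  decide

theorem g07_perm (i j0 k0 l0 j k l : Fin 4) (h1 : i ≠ j0) (h2 : i ≠ k0) (h3 : i ≠ l0)
    (h4 : j0 ≠ k0) (h5 : j0 ≠ l0) (h6 : k0 ≠ l0) (g1 : i ≠ j) (g2 : i ≠ k) (g3 : i ≠ l)
    (g4 : j ≠ k) (g5 : j ≠ l) (g6 : k ≠ l) :
    (j = j0 ∧ k = k0 ∧ l = l0) ∨ (j = k0 ∧ k = j0 ∧ l = l0) ∨ (j = k0 ∧ k = l0 ∧ l = j0) ∨
      (j = l0 ∧ k = k0 ∧ l = j0) ∨ (j = j0 ∧ k = l0 ∧ l = k0) ∨ (j = l0 ∧ k = j0 ∧ l = k0) := by
  have e1 := g07_mem4 i j0 k0 l0 j h1 h2 h3 h4 h5 h6 g1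
  have e2 := g07_mem4 i j0 k0 l0 k h1 h2 h3 h4 h5 h6 g2
  have e3 := g07_mem4 i j0 k0 l0 l h1 h2 h3 h4 h5 h6 g3
  rcases e1 with rfl | rfl | rfl <;> rcases e2 with rfl | rfl | rfl <;>
    rcases e3 with rfl | rfl | rfl <;> simp_all

/-- the profile in all positions -/
theorem g07_all {p : Fin 4 → V} {S : Fin 4 → Finset V} {L : Fin 4 → Finset (Finset V)}
    (h : Quad G p S L) (i : Fin 4) : ∃ w X, R (2 * (S i).card + 1) w X ∧
      ∀ j k l : Fin 4, i ≠ j → i ≠ k → i ≠ l → j ≠ k → j ≠ l → k ≠ l →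
        Thr G (S i) (p j) (p k) w ∧ TF G (S i) (p j) (p k) (p l) X := by
  obtain ⟨j0, k0, l0, h1, h2, h3, h4, h5, h6⟩ : ∃ j0 k0 l0 : Fin 4, i ≠ j0 ∧ i ≠ k0 ∧ i ≠ l0 ∧
      j0 ≠ k0 ∧ j0 ≠ l0 ∧ k0 ≠ l0 := by
    fin_cases i
    · exact ⟨1, 2, 3, by decide, by decide, by decide, by decide, by decide, by decide⟩
    · exact ⟨0, 2, 3, by decide, by decide, by decide, by decide, by decide, by decide⟩
    · exact ⟨0, 1, 3, by decide, by decide, by decide, by decide, by decide, by decide⟩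
    · exact ⟨0, 1, 2, by decide, by decide, by decide, by decide, by decide, by decide⟩
  obtain ⟨w, X, hR, hP⟩ := (h.1 i j0 k0 l0 h1 h2 h3 h4 h5 h6).exists_prof
  obtain ⟨⟨t1, t2, t3, t4, t5, t6⟩, ⟨f1, f2, f3, f4, f5, f6⟩⟩ := hP
  refine ⟨w, X, hR, fun j k l g1 g2 g3 g4 g5 g6 => ?_⟩
  rcases g07_perm i j0 k0 l0 j k l h1 h2 h3 h4 h5 h6 g1 g2 g3 g4 g5 g6 with
    ⟨rfl, rfl, rfl⟩ | ⟨rfl, rfl, rfl⟩ | ⟨rfl, rfl, rfl⟩ | ⟨rfl, rfl, rfl⟩ | ⟨rfl, rfl, rfl⟩ |
    ⟨rfl, rfl, rfl⟩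
  · exact ⟨t1, f1⟩
  · exact ⟨t2, f2⟩
  · exact ⟨t3, f3⟩
  · exact ⟨t4, f4⟩
  · exact ⟨t5, f5⟩
  · exact ⟨t6, f6⟩

theorem g07_sum (f : Fin 4 → ℕ) (i j k l : Fin 4) (h1 : i ≠ j) (h2 : i ≠ k) (h3 : i ≠ l)
    (h4 : j ≠ k) (h5 : j ≠ l) (h6 : k ≠ l) : ∑ a, f a = f i + f j + f k + f l := by
  have huniv : (Finset.univ : Finset (Fin 4)) = {i, j, k, l} := by
    symm
    apply Finset.eq_univ_of_card
    rw [Finset.card_insert_of_notMem (by simp [h1, h2, h3]),
      Finset.card_insert_of_notMem (by simp [h4, h5]),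
      Finset.card_insert_of_notMem (by simp [h6]), Finset.card_singleton]
    rfl
  rw [huniv, Finset.sum_insert (by simp [h1, h2, h3]), Finset.sum_insert (by simp [h4, h5]),
    Finset.sum_insert (by simp [h6]), Finset.sum_singleton]
  ring

theorem g07_sub (p : Fin 4 → V) (S : Fin 4 → Finset V) (i : Fin 4) : S i ⊆ quadV p S := by
  intro v hv
  unfold quadV
  exact Finset.mem_union_right _ (Finset.mem_biUnion.2 ⟨i, Finset.mem_univ i, hv⟩)

theorem g07_mem (p : Fin 4 → V) (S : Fin 4 → Finset V) (i : Fin 4) : p i ∈ quadV p S := by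
  unfold quadV
  exact Finset.mem_union_left _ (Finset.mem_image.2 ⟨i, Finset.mem_univ i, rfl⟩)

theorem g07_le {p : Fin 4 → V} {S : Fin 4 → Finset V} {H k : ℕ}
    (hH : ∀ l : List V, l.Nodup → (∀ v ∈ l, v ∈ quadV p S) → l.IsChain G.Adj →
      l.length + 1 ≤ H) (h : HasPath G (quadV p S) k) : k ≤ H := by
  obtain ⟨l, h1, h2, h3, h4⟩ := h
  exact h4.trans (hH l h1 h2 h3)

/-- the gadget outside of a triangle -/
theorem g07_out {p : Fin 4 → V} {S : Fin 4 → Finset V} {L : Fin 4 → Finset (Finset V)}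
    (h : Quad G p S L) (i j k l : Fin 4) (h1 : i ≠ j) (h2 : i ≠ k) (h3 : i ≠ l)
    (h4 : j ≠ k) (h5 : j ≠ l) (h6 : k ≠ l) :
    ∃ w' Y, R ((2 * (S j).card + 1) + (2 * (S k).card + 1) + (2 * (S l).card + 1)) w' Y ∧
      TF G (insert (p i) (S j ∪ S k ∪ S l)) (p k) (p l) (p j) Y := by
  obtain ⟨hG, hD, hn, hinj⟩ := h
  have g := Gad.node (G := G) (p j) (p k) (p l) (p i) (S j) (S k) (S l) (L j) (L k) (L l)
    (hG j i k l h1.symm h4 h5 h2 h3 h6) (hG k j i l h4.symm h2.symm h6 h1.symm h5 h3)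
    (hG l j k i h5.symm h6.symm h3.symm h4 h1.symm h2.symm) (hn j j) (hn k k) (hn l l)
    (hD j k h4) (hD j l h5) (hD k l h6)
  obtain ⟨w', Y, hR, hP⟩ := g.exists_prof
  refine ⟨w', Y, ?_, hP.2.2.2.1⟩
  have hc : (insert (p i) (S j ∪ S k ∪ S l)).card =
      (S j).card + (S k).card + (S l).card + 1 := by
    rw [Finset.card_insert_of_notMem, Finset.card_union_of_disjoint,
      Finset.card_union_of_disjoint (hD j k h4)]
    · exact Finset.disjoint_union_left.2 ⟨hD j l h5, hD k l h6⟩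
    · simp only [Finset.mem_union, not_or]
      exact ⟨⟨hn i j, hn i k⟩, hn i l⟩
  have e : 2 * (insert (p i) (S j ∪ S k ∪ S l)).card + 1 =
      (2 * (S j).card + 1) + (2 * (S k).card + 1) + (2 * (S l).card + 1) := by
    rw [hc]
    ring
  rw [e] at hR
  exact hR

theorem Quad.bounds {p : Fin 4 → V} {S : Fin 4 → Finset V} {L : Fin 4 → Finset (Finset V)}
    (h : Quad G p S L) (H : ℕ)
    (hH : ∀ l : List V, l.Nodup → (∀ v ∈ l, v ∈ quadV p S) → l.IsChain G.Adj →
      l.length + 1 ≤ H) :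
    ∃ w X Y : Fin 4 → ℕ, (∀ i, R (2 * (S i).card + 1) (w i) (X i)) ∧
      (∀ i, ∃ w', R ((∑ j, (2 * (S j).card + 1)) - (2 * (S i).card + 1)) w' (Y i)) ∧
      (∀ i j k l : Fin 4, i ≠ j → i ≠ k → i ≠ l → j ≠ k → j ≠ l → k ≠ l →
        X i + w j + w k + w l ≤ H) ∧
      (∀ i j k : Fin 4, i ≠ j → i ≠ k → j ≠ k → X i + X j + w k ≤ H) ∧
      ∀ i, X i + Y i ≤ H := by
  have hall := g07_all h
  choose w X hR hP using hall
  obtain ⟨hG, hD, hn, hinj⟩ := h
  have hne : ∀ {i j : Fin 4}, i ≠ j → p i ≠ p j := fun hij he => hij (hinj he)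
  have hY : ∀ i, ∃ Yi, (∃ w', R ((∑ j, (2 * (S j).card + 1)) - (2 * (S i).card + 1)) w' Yi) ∧
      X i + Yi ≤ H := by
    intro i
    obtain ⟨j, k, l, h1, h2, h3, h4, h5, h6⟩ : ∃ j0 k0 l0 : Fin 4, i ≠ j0 ∧ i ≠ k0 ∧ i ≠ l0 ∧
        j0 ≠ k0 ∧ j0 ≠ l0 ∧ k0 ≠ l0 := by
      fin_cases i
      · exact ⟨1, 2, 3, by decide, by decide, by decide, by decide, by decide, by decide⟩
      · exact ⟨0, 2, 3, by decide, by decide, by decide, by decide, by decide, by decide⟩
      · exact ⟨0, 1, 3, by decide, by decide, by decide, by decide, by decide, by decide⟩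
      · exact ⟨0, 1, 2, by decide, by decide, by decide, by decide, by decide, by decide⟩
    obtain ⟨w', Yi, a1, a2⟩ := g07_out ⟨hG, hD, hn, hinj⟩ i j k l h1 h2 h3 h4 h5 h6
    refine ⟨Yi, ⟨w', ?_⟩, ?_⟩
    · rw [g07_sum _ i j k l h1 h2 h3 h4 h5 h6]
      have e : 2 * (S i).card + 1 + (2 * (S j).card + 1) + (2 * (S k).card + 1) +
          (2 * (S l).card + 1) - (2 * (S i).card + 1) =
          (2 * (S j).card + 1) + (2 * (S k).card + 1) + (2 * (S l).card + 1) := by omega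
      rw [e]
      exact a1
    · refine g07_le hH (hasPath_T (hP i j k l h1 h2 h3 h4 h5 h6).2 a2 ?_ (hne h4) (hne h5)
        (hne h6) ?_ ⟨g07_sub p S i, ?_⟩)
      · rw [Finset.disjoint_insert_right]
        refine ⟨hn i i, ?_⟩
        rw [Finset.disjoint_union_right, Finset.disjoint_union_right]
        exact ⟨⟨hD i j h1, hD i k h2⟩, hD i l h3⟩
      · have hnot : ∀ b : Fin 4, i ≠ b → p b ∉ insert (p i) (S j ∪ S k ∪ S l) := by
          intro b hb
          simp only [Finset.mem_insert, Finset.mem_union, not_or]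
          exact ⟨(hne hb).symm, ⟨hn b j, hn b k⟩, hn b l⟩
        rintro v (rfl | rfl | rfl)
        · exact ⟨hn j i, hnot j h1, g07_mem p S j⟩
        · exact ⟨hn k i, hnot k h2, g07_mem p S k⟩
        · exact ⟨hn l i, hnot l h3, g07_mem p S l⟩
      · intro v hv
        simp only [Finset.mem_insert, Finset.mem_union] at hv
        rcases hv with rfl | (hv | hv) | hv
        · exact g07_mem p S i
        · exact g07_sub p S j hv
        · exact g07_sub p S k hv
        · exact g07_sub p S l hv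
  choose Y hY1 hY2 using hY
  refine ⟨w, X, Y, hR, hY1, ?_, ?_, hY2⟩
  · intro i j k l h1 h2 h3 h4 h5 h6
    -- `a = p l`, `b = p j`, `c = p k`, `d = p i`
    have hX := (hP i j k l h1 h2 h3 h4 h5 h6).2
    have c3 := (hP k l j i h6 h4.symm h2.symm h5.symm h3.symm h1.symm).1
    have c1 := (hP l k i j h6.symm h3.symm h5.symm h2.symm h4.symm h1).1
    have c2 := (hP j i l k h1.symm h5 h4 h3 h2 h6.symm).1
    have hpath := hasPath_A (T := quadV p S) hX c3 c1 c2 (hD l j h5.symm) (hD l k h6.symm)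
      (hD l i h3.symm) (hD j k h4) (hD j i h1.symm) (hD k i h2.symm) (hne h5.symm)
      (hne h6.symm) (hne h3.symm) (hne h4) (hne h1.symm) (hne h2.symm) (by
        rintro v (rfl | rfl | rfl | rfl)
        · exact ⟨hn l l, hn l j, hn l k, hn l i, g07_mem p S l⟩
        · exact ⟨hn j l, hn j j, hn j k, hn j i, g07_mem p S j⟩
        · exact ⟨hn k l, hn k j, hn k k, hn k i, g07_mem p S k⟩
        · exact ⟨hn i l, hn i j, hn i k, hn i i, g07_mem p S i⟩)
      ⟨g07_sub p S l, g07_sub p S j, g07_sub p S k, g07_sub p S i⟩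
    have := g07_le hH hpath
    omega
  · intro i j k h1 h2 h4
    obtain ⟨l, h3, h5, h6⟩ : ∃ l : Fin 4, i ≠ l ∧ j ≠ l ∧ k ≠ l := by
      revert i j k
      decide
    -- `d = p i`, `c = p j`, `a = p k`, `b = p l`
    have hX := (hP i l j k h3 h1 h2 h5.symm h6.symm h4).2
    have hX' := (hP j k l i h4 h5 h1.symm h6 h2.symm h3.symm).2
    have c1 := (hP k j i l h4.symm h2.symm h6 h1.symm h5 h3).1
    have hpath := hasPath_B (T := quadV p S) hX hX' c1 (hD k j h4.symm) (hD k i h2.symm)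
      (hD j i h1.symm) (hne h6) (hne h4.symm) (hne h2.symm) (hne h5.symm) (hne h3.symm)
      (hne h1.symm) (by
        rintro v (rfl | rfl | rfl | rfl)
        · exact ⟨hn k k, hn k j, hn k i, g07_mem p S k⟩
        · exact ⟨hn l k, hn l j, hn l i, g07_mem p S l⟩
        · exact ⟨hn j k, hn j j, hn j i, g07_mem p S j⟩
        · exact ⟨hn i k, hn i j, hn i i, g07_mem p S i⟩)
      ⟨g07_sub p S k, g07_sub p S j, g07_sub p S i⟩
    exact g07_le hH hpath

end Pool.Agent.Lib.H28P
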