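import Pool.Agent.Lib.H28P.G03

/-!
# G08 (M): stacking a vertex inside a gadget

PROOF: induction on `h`. Leaf: `L = {{x, y, z}}`, so `{u, v, t} = {x, y, z}` as sets; since `x, y, z`
are distinct (`Gad.adj`), `(u, v, t)` is a permutation of `(x, y, z)`; take the node with centre `q`
and three leaves (`q` is adjacent to `x, y, z`), whose set is `insert q (∅ ∪ ∅ ∪ ∅)` and whose faces
are `{q, y, z}`, `{x, q, z}`, `{x, y, q}`, i.e. the three sets `{q, v, t}`, `{q, u, t}`, `{q, u, v}` in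
some order (`Finset.ext`, `simp`, `tauto`, or the six cases). Node: `{u, v, t}` is in `L₁`, `L₂` or `L₃`;
apply the induction hypothesis to this part (`q ≠ c` since `q ∉ insert c ..`) and `Gad.mono` to the
others; `q` is not in the other parts and is different from the corners; the inclusion of the face
sets is a union of inclusions (an element of `L₂ \ {f}` is in `L₂`).
-/

set_option autoImplicit false

namespace Pool.Agent.Lib.H28P

variable {V : Type*} [DecidableEq V] {G : SimpleGraph V}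

theorem g08_e1 (a b c : V) : ({a, b, c} : Finset V) = {b, a, c} := by
  ext w; simp only [Finset.mem_insert, Finset.mem_singleton]; tauto

theorem g08_e2 (a b c : V) : ({a, b, c} : Finset V) = {a, c, b} := by
  ext w; simp only [Finset.mem_insert, Finset.mem_singleton]; tauto

omit [DecidableEq V] in
theorem g08_perm {x y z u v t : V} (nxy : x ≠ y) (nyz : y ≠ z) (nxz : x ≠ z)
    (hx : x = u ∨ x = v ∨ x = t) (hy : y = u ∨ y = v ∨ y = t) (hz : z = u ∨ z = v ∨ z = t) :
    (x = u ∧ y = v ∧ z = t) ∨ (x = u ∧ y = t ∧ z = v) ∨ (x = v ∧ y = u ∧ z = t) ∨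
      (x = v ∧ y = t ∧ z = u) ∨ (x = t ∧ y = u ∧ z = v) ∨ (x = t ∧ y = v ∧ z = u) := by
  rcases hx with rfl | rfl | rfl <;> rcases hy with rfl | rfl | rfl <;>
    rcases hz with rfl | rfl | rfl <;> simp_all

theorem g08_leaf {G' : SimpleGraph V} {x y z : V} (hxy : G'.Adj x y) (hyz : G'.Adj y z)
    (hxz : G'.Adj x z) (u v t q : V) (hf : ({u, v, t} : Finset V) = {x, y, z})
    (h1 : G'.Adj q u) (h2 : G'.Adj q v) (h3 : G'.Adj q t) :
    ∃ L', Gad G' x y z (insert q ∅) L' ∧
      ({{x, y, z}} : Finset (Finset V)).erase {u, v, t} ∪ {{q, v, t}, {q, u, t}, {q, u, v}} ⊆ L' := by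
  have hx : x ∈ ({u, v, t} : Finset V) := by rw [hf]; simp
  have hy : y ∈ ({u, v, t} : Finset V) := by rw [hf]; simp
  have hz : z ∈ ({u, v, t} : Finset V) := by rw [hf]; simp
  have aq : ∀ w ∈ ({u, v, t} : Finset V), G'.Adj q w := by
    intro w hw
    simp only [Finset.mem_insert, Finset.mem_singleton] at hw
    rcases hw with rfl | rfl | rfl <;> assumption
  have aqx := aq x hx
  have aqy := aq y hy
  have aqz := aq z hz
  have hG : Gad G' x y z (insert q (∅ ∪ ∅ ∪ ∅)) ({{q, y, z}} ∪ {{x, q, z}} ∪ {{x, y, q}}) := by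
    refine Gad.node x y z q ∅ ∅ ∅ _ _ _ (Gad.leaf _ _ _ aqy hyz aqz)
      (Gad.leaf _ _ _ aqx.symm aqz hxz) (Gad.leaf _ _ _ hxy aqy.symm aqx.symm) ?_ ?_ ?_ ?_ ?_ ?_ <;>
      simp
  have hE : (insert q (∅ ∪ ∅ ∪ ∅) : Finset V) = insert q ∅ := by simp
  rw [hE] at hG
  refine ⟨_, hG, ?_⟩
  rw [hf]
  intro s hs
  simp only [Finset.mem_insert, Finset.mem_singleton] at hx hy hz
  have key : s = {q, v, t} ∨ s = {q, u, t} ∨ s = {q, u, v} := by
    simpa using hs
  have perm := g08_perm hxy.ne hyz.ne hxz.ne hx hy hz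
  clear hx hy hz aq aqx aqy aqz h1 h2 h3 hG hE hs hf
  have target : s = {q, y, z} ∨ s = {q, x, z} ∨ s = {q, x, y} := by
    rcases perm with ⟨h1, h2, h3⟩ | ⟨h1, h2, h3⟩ | ⟨h1, h2, h3⟩ | ⟨h1, h2, h3⟩ |
      ⟨h1, h2, h3⟩ | ⟨h1, h2, h3⟩ <;> rw [h1, h2, h3] <;>
      rcases key with h | h | h <;> rw [h]
    · left; rfl
    · right; left; rfl
    · right; right; rfl
    · left; rw [g08_e2]
    · right; right; rfl
    · right; left; rfl
    · right; left; rfl
    · left; rfl
    · right; right; rw [g08_e2]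
    · right; right; rfl
    · left; rw [g08_e2]
    · right; left; rw [g08_e2]
    · right; left; rw [g08_e2]
    · right; right; rw [g08_e2]
    · left; rfl
    · right; right; rw [g08_e2]
    · right; left; rw [g08_e2]
    · left; rw [g08_e2]
  simp only [Finset.mem_union, Finset.mem_singleton]
  rcases target with h | h | h
  · left; left; exact h
  · left; right; rw [h, g08_e1]
  · right; rw [h, g08_e1, g08_e2 x q y]

theorem g08_incl1 {A A' B C : Finset (Finset V)} {f : Finset V} {N : Finset (Finset V)}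
    (h : A.erase f ∪ N ⊆ A') : (A ∪ B ∪ C).erase f ∪ N ⊆ A' ∪ B ∪ C := by
  intro s hs
  simp only [Finset.mem_union, Finset.mem_erase] at hs ⊢
  rcases hs with ⟨h1, (h2 | h2) | h2⟩ | h2
  · left; left; apply h; simp [h1, h2]
  · left; right; exact h2
  · right; exact h2
  · left; left; apply h; simp [h2]

theorem g08_incl2 {A A' B C : Finset (Finset V)} {f : Finset V} {N : Finset (Finset V)}
    (h : A.erase f ∪ N ⊆ A') : (B ∪ A ∪ C).erase f ∪ N ⊆ B ∪ A' ∪ C := by
  intro s hs
  simp only [Finset.mem_union, Finset.mem_erase] at hs ⊢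
  rcases hs with ⟨h1, (h2 | h2) | h2⟩ | h2
  · left; left; exact h2
  · left; right; apply h; simp [h1, h2]
  · right; exact h2
  · left; right; apply h; simp [h2]

theorem g08_incl3 {A A' B C : Finset (Finset V)} {f : Finset V} {N : Finset (Finset V)}
    (h : A.erase f ∪ N ⊆ A') : (B ∪ C ∪ A).erase f ∪ N ⊆ B ∪ C ∪ A' := by
  intro s hs
  simp only [Finset.mem_union, Finset.mem_erase] at hs ⊢
  rcases hs with ⟨h1, (h2 | h2) | h2⟩ | h2
  · left; left; exact h2
  · left; right; exact h2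
  · right; apply h; simp [h1, h2]
  · right; apply h; simp [h2]

theorem g08_e3 (c q : V) (A B C : Finset V) : (insert c (insert q A ∪ B ∪ C) : Finset V) =
    insert q (insert c (A ∪ B ∪ C)) := by
  ext w; simp only [Finset.mem_insert, Finset.mem_union]; tauto

theorem g08_e4 (c q : V) (A B C : Finset V) : (insert c (A ∪ insert q B ∪ C) : Finset V) =
    insert q (insert c (A ∪ B ∪ C)) := by
  ext w; simp only [Finset.mem_insert, Finset.mem_union]; tauto

theorem g08_e5 (c q : V) (A B C : Finset V) : (insert c (A ∪ B ∪ insert q C) : Finset V) =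
    insert q (insert c (A ∪ B ∪ C)) := by
  ext w; simp only [Finset.mem_insert, Finset.mem_union]; tauto

theorem Gad.subst {G' : SimpleGraph V} {x y z : V} {S : Finset V} {L : Finset (Finset V)}
    (h : Gad G x y z S L) (hG : G ≤ G') (u v t q : V) (hf : ({u, v, t} : Finset V) ∈ L)
    (hq : q ∉ S) (hqx : q ≠ x) (hqy : q ≠ y) (hqz : q ≠ z) (h1 : G'.Adj q u) (h2 : G'.Adj q v)
    (h3 : G'.Adj q t) :
    ∃ L', Gad G' x y z (insert q S) L' ∧
      L.erase {u, v, t} ∪ {{q, v, t}, {q, u, t}, {q, u, v}} ⊆ L' := by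
  induction h with
  | leaf x y z hxy hyz hxz =>
    exact g08_leaf (hG hxy) (hG hyz) (hG hxz) u v t q (by simpa using hf) h1 h2 h3
  | node x y z c S₁ S₂ S₃ L₁ L₂ L₃ g₁ g₂ g₃ hx hy hz h12 h13 h23 i₁ i₂ i₃ =>
    simp only [Finset.mem_insert, Finset.mem_union, not_or] at hq
    obtain ⟨hqc, ⟨hq1, hq2⟩, hq3⟩ := hq
    simp only [Finset.mem_union] at hf
    rcases hf with (hf | hf) | hf
    · obtain ⟨L', hL, hi⟩ := i₁ hf hq1 hqc hqy hqz
      refine ⟨L' ∪ L₂ ∪ L₃, ?_, g08_incl1 hi⟩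
      rw [← g08_e3]
      exact Gad.node x y z c _ _ _ _ _ _ hL (g₂.mono hG) (g₃.mono hG)
          (by simp only [Finset.mem_insert, not_or]; exact ⟨Ne.symm hqx, hx⟩) hy hz
          (by rw [Finset.disjoint_insert_left]; exact ⟨hq2, h12⟩)
          (by rw [Finset.disjoint_insert_left]; exact ⟨hq3, h13⟩) h23
    · obtain ⟨L', hL, hi⟩ := i₂ hf hq2 hqx hqc hqz
      refine ⟨L₁ ∪ L' ∪ L₃, ?_, g08_incl2 hi⟩
      rw [← g08_e4]
      exact Gad.node x y z c _ _ _ _ _ _ (g₁.mono hG) hL (g₃.mono hG) hx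
          (by simp only [Finset.mem_insert, not_or]; exact ⟨Ne.symm hqy, hy⟩) hz
          (by rw [Finset.disjoint_insert_right]; exact ⟨hq1, h12⟩) h13
          (by rw [Finset.disjoint_insert_left]; exact ⟨hq3, h23⟩)
    · obtain ⟨L', hL, hi⟩ := i₃ hf hq3 hqx hqy hqc
      refine ⟨L₁ ∪ L₂ ∪ L', ?_, g08_incl3 hi⟩
      rw [← g08_e5]
      exact Gad.node x y z c _ _ _ _ _ _ (g₁.mono hG) (g₂.mono hG) hL hx hy
          (by simp only [Finset.mem_insert, not_or]; exact ⟨Ne.symm hqz, hz⟩) h12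
          (by rw [Finset.disjoint_insert_right]; exact ⟨hq1, h13⟩)
          (by rw [Finset.disjoint_insert_right]; exact ⟨hq2, h23⟩)

end Pool.Agent.Lib.H28P
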