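import Pool.Agent.Lib.H28P.G08

/-!
# G09 (M): the graph of a stacked polytope is a quadruple of gadgets

PROOF: induction on `h`. Tetrahedron: `p = ![a, b, c, d]`, `S = fun _ => ∅`, `L i =` the singleton of
the face opposite to `p i`; the 24 cases of distinct `i j k l` are leaves (`fin_cases`, or
`decide`-style: prove `Gad` for the four faces in one order and use `Gad.swap12`, `Gad.swap23`).
Stack: let `f = {x, y, z} ∈ F`, so `f ∈ L i₀` for some `i₀`. Replace `S i₀` by `insert v (S i₀)` and
`L i₀` by the set `L'` of `Gad.subst` (`Function.update`), the other gadgets by `Gad.mono`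
(`graphOf E ≤ graphOf E'`). The statement `Quad` asks for the gadget at `i₀` in all orders of the
corners with THE SAME `L'`: apply `Gad.subst` for one order and use `Gad.swap12`, `Gad.swap23` for
the others. `v` is adjacent to `x, y, z` in `graphOf E'` (`v ∉ V` and `x, y, z ∈ V`, because every face
in `F` is a subset of `V`: prove first `stacked_face_sub` by induction). `F.erase f ∪ new ⊆` union of
the new `L i`: an element of `F.erase f` is in some `L i`; if `i = i₀` it is in `(L i₀).erase f`.
-/

set_option autoImplicit false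

namespace Pool.Agent.Lib.H28P

/-- the graph with edge set `E` -/
def graphOf (E : Finset (Sym2 ℕ)) : SimpleGraph ℕ := SimpleGraph.fromEdgeSet (E : Set (Sym2 ℕ))

theorem stacked_face_sub {V : Finset ℕ} {E : Finset (Sym2 ℕ)} {F : Finset (Finset ℕ)}
    (h : Stacked V E F) : ∀ f ∈ F, f ⊆ V := by
  induction h with
  | tetrahedron a b c d hab hac had hbc hbd hcd =>
    intro f hf
    simp only [Finset.mem_insert, Finset.mem_singleton] at hf
    rcases hf with rfl | rfl | rfl | rfl <;>
    · intro u hu
      simp only [Finset.mem_insert, Finset.mem_singleton] at hu ⊢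
      tauto
  | stack V E F x y z v h hf hv ih =>
    intro g hg
    rcases Finset.mem_union.1 hg with hg | hg
    · exact (ih g (Finset.mem_of_mem_erase hg)).trans (Finset.subset_insert _ _)
    · have hsub := ih _ hf
      have hx : x ∈ V := hsub (by simp)
      have hy : y ∈ V := hsub (by simp)
      have hz : z ∈ V := hsub (by simp)
      simp only [Finset.mem_insert, Finset.mem_singleton] at hg
      rcases hg with rfl | rfl | rfl <;>
      · intro u hu
        simp only [Finset.mem_insert, Finset.mem_singleton] at hu ⊢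
        rcases hu with rfl | rfl | rfl <;> tauto

theorem g09_adj {E : Finset (Sym2 ℕ)} {u v : ℕ} (h : s(u, v) ∈ E) (hne : u ≠ v) :
    (graphOf E).Adj u v := by
  rw [graphOf, SimpleGraph.fromEdgeSet_adj]
  exact ⟨by exact_mod_cast h, hne⟩

theorem g09_mono {E E' : Finset (Sym2 ℕ)} (h : E ⊆ E') : graphOf E ≤ graphOf E' := by
  intro u v huv
  rw [graphOf, SimpleGraph.fromEdgeSet_adj] at huv ⊢
  exact ⟨by exact_mod_cast h (by exact_mod_cast huv.1), huv.2⟩

theorem g09_erase : ∀ i j k l : Fin 4, i ≠ j → i ≠ k → i ≠ l → j ≠ k → j ≠ l → k ≠ l →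
    (Finset.univ : Finset (Fin 4)).erase i = {j, k, l} := by
  decide

theorem g09_ex : ∀ i : Fin 4, ∃ j k l : Fin 4, i ≠ j ∧ i ≠ k ∧ i ≠ l ∧ j ≠ k ∧ j ≠ l ∧ k ≠ l := by
  decide

theorem g09_tetra (a b c d : ℕ) (hab : a ≠ b) (hac : a ≠ c) (had : a ≠ d) (hbc : b ≠ c)
    (hbd : b ≠ d) (hcd : c ≠ d) :
    ∃ p S L, Quad (graphOf {s(a, b), s(a, c), s(a, d), s(b, c), s(b, d), s(c, d)}) p S L ∧
      quadV p S = {a, b, c, d} ∧
      ({{b, c, d}, {a, c, d}, {a, b, d}, {a, b, c}} : Finset (Finset ℕ)) ⊆
        Finset.univ.biUnion L := by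
  have hinj : Function.Injective (![a, b, c, d] : Fin 4 → ℕ) := by
    intro i j hij
    fin_cases i <;> fin_cases j <;> simp_all
  have hadj : ∀ i j : Fin 4, i ≠ j →
      (graphOf {s(a, b), s(a, c), s(a, d), s(b, c), s(b, d), s(c, d)}).Adj
        ((![a, b, c, d] : Fin 4 → ℕ) i) ((![a, b, c, d] : Fin 4 → ℕ) j) := by
    intro i j hij
    apply g09_adj _ (fun h => hij (hinj h))
    fin_cases i <;> fin_cases j <;> simp at hij ⊢
  refine ⟨![a, b, c, d], fun _ => ∅,
    fun i => {Finset.image ![a, b, c, d] (Finset.univ.erase i)}, ⟨?_, ?_, ?_, hinj⟩, ?_, ?_⟩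
  · intro i j k l hij hik hil hjk hjl hkl
    have h1 : Finset.image (![a, b, c, d] : Fin 4 → ℕ) (Finset.univ.erase i) =
        {(![a, b, c, d] : Fin 4 → ℕ) j, (![a, b, c, d] : Fin 4 → ℕ) k,
          (![a, b, c, d] : Fin 4 → ℕ) l} := by
      rw [g09_erase i j k l hij hik hil hjk hjl hkl]
      rw [Finset.image_insert, Finset.image_insert, Finset.image_singleton]
    show Gad _ _ _ _ ∅ {Finset.image ![a, b, c, d] (Finset.univ.erase i)}
    rw [h1]
    exact Gad.leaf _ _ _ (hadj j k hjk) (hadj k l hkl) (hadj j l hjl)
  · intro i j _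
    exact Finset.disjoint_empty_left _
  · intro i j
    exact Finset.notMem_empty _
  · ext u
    simp only [quadV, Finset.mem_union, Finset.mem_image, Finset.mem_univ, true_and,
      Finset.mem_biUnion, Finset.notMem_empty, exists_false, or_false, Finset.mem_insert,
      Finset.mem_singleton]
    constructor
    · rintro ⟨i, rfl⟩
      fin_cases i <;> simp
    · rintro (rfl | rfl | rfl | rfl)
      · exact ⟨0, rfl⟩
      · exact ⟨1, rfl⟩
      · exact ⟨2, rfl⟩
      · exact ⟨3, rfl⟩
  · intro g hg
    simp only [Finset.mem_insert, Finset.mem_singleton] at hg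
    simp only [Finset.mem_biUnion, Finset.mem_univ, true_and, Finset.mem_singleton]
    rcases hg with rfl | rfl | rfl | rfl
    · refine ⟨0, ?_⟩
      rw [g09_erase 0 1 2 3 (by decide) (by decide) (by decide) (by decide) (by decide) (by decide),
        Finset.image_insert, Finset.image_insert, Finset.image_singleton]
      rfl
    · refine ⟨1, ?_⟩
      rw [g09_erase 1 0 2 3 (by decide) (by decide) (by decide) (by decide) (by decide) (by decide),
        Finset.image_insert, Finset.image_insert, Finset.image_singleton]
      rfl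
    · refine ⟨2, ?_⟩
      rw [g09_erase 2 0 1 3 (by decide) (by decide) (by decide) (by decide) (by decide) (by decide),
        Finset.image_insert, Finset.image_insert, Finset.image_singleton]
      rfl
    · refine ⟨3, ?_⟩
      rw [g09_erase 3 0 1 2 (by decide) (by decide) (by decide) (by decide) (by decide) (by decide),
        Finset.image_insert, Finset.image_insert, Finset.image_singleton]
      rfl

theorem Stacked.exists_quad {V : Finset ℕ} {E : Finset (Sym2 ℕ)} {F : Finset (Finset ℕ)}
    (h : Stacked V E F) :
    ∃ p S L, Quad (graphOf E) p S L ∧ quadV p S = V ∧ F ⊆ Finset.univ.biUnion L := by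
  induction h with
  | tetrahedron a b c d hab hac had hbc hbd hcd => exact g09_tetra a b c d hab hac had hbc hbd hcd
  | stack V E F x y z v h hf hv ih =>
    obtain ⟨p, S, L, ⟨hQ, hdis, hpS, hinj⟩, hV, hF⟩ := ih
    have hsub := stacked_face_sub h _ hf
    have hx : x ∈ V := hsub (by simp)
    have hy : y ∈ V := hsub (by simp)
    have hz : z ∈ V := hsub (by simp)
    have hvp : ∀ i, v ≠ p i := by
      rintro i rfl
      apply hv
      rw [← hV]
      exact Finset.mem_union_left _ (Finset.mem_image_of_mem _ (Finset.mem_univ _))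
    have hvS : ∀ i, v ∉ S i := by
      intro i hi
      apply hv
      rw [← hV]
      exact Finset.mem_union_right _ (Finset.mem_biUnion.2 ⟨i, Finset.mem_univ _, hi⟩)
    have hvx : v ≠ x := fun hh => hv (hh ▸ hx)
    have hvy : v ≠ y := fun hh => hv (hh ▸ hy)
    have hvz : v ≠ z := fun hh => hv (hh ▸ hz)
    have hG : graphOf E ≤ graphOf (E ∪ {s(v, x), s(v, y), s(v, z)}) :=
      g09_mono Finset.subset_union_left
    have h1 : (graphOf (E ∪ {s(v, x), s(v, y), s(v, z)})).Adj v x := g09_adj (by simp) hvx
    have h2 : (graphOf (E ∪ {s(v, x), s(v, y), s(v, z)})).Adj v y := g09_adj (by simp) hvy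
    have h3 : (graphOf (E ∪ {s(v, x), s(v, y), s(v, z)})).Adj v z := g09_adj (by simp) hvz
    obtain ⟨i₀, -, hi₀⟩ := Finset.mem_biUnion.1 (hF hf)
    obtain ⟨j₀, k₀, l₀, hij, hik, hil, hjk, hjl, hkl⟩ := g09_ex i₀
    obtain ⟨L', hL', hL'sub⟩ := Gad.subst (hQ i₀ j₀ k₀ l₀ hij hik hil hjk hjl hkl) hG x y z v hi₀
      (hvS i₀) (hvp j₀) (hvp k₀) (hvp l₀) h1 h2 h3
    refine ⟨p, Function.update S i₀ (insert v (S i₀)), Function.update L i₀ L',
      ⟨?_, ?_, ?_, hinj⟩, ?_, ?_⟩
    · intro i j k l hij' hik' hil' hjk' hjl' hkl'
      rcases eq_or_ne i i₀ with rfl | hi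
      · rw [Function.update_self, Function.update_self]
        have hj : j ∈ ({j₀, k₀, l₀} : Finset (Fin 4)) := by
          rw [← g09_erase i j₀ k₀ l₀ hij hik hil hjk hjl hkl]
          exact Finset.mem_erase.2 ⟨hij'.symm, Finset.mem_univ _⟩
        have hk : k ∈ ({j₀, k₀, l₀} : Finset (Fin 4)) := by
          rw [← g09_erase i j₀ k₀ l₀ hij hik hil hjk hjl hkl]
          exact Finset.mem_erase.2 ⟨hik'.symm, Finset.mem_univ _⟩
        have hl : l ∈ ({j₀, k₀, l₀} : Finset (Fin 4)) := by
          rw [← g09_erase i j₀ k₀ l₀ hij hik hil hjk hjl hkl]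
          exact Finset.mem_erase.2 ⟨hil'.symm, Finset.mem_univ _⟩
        simp only [Finset.mem_insert, Finset.mem_singleton] at hj hk hl
        rcases hj with rfl | rfl | rfl <;> rcases hk with rfl | rfl | rfl <;>
          rcases hl with rfl | rfl | rfl <;> first
          | exact absurd rfl hjk'
          | exact absurd rfl hjl'
          | exact absurd rfl hkl'
          | exact hL'
          | exact hL'.swap12
          | exact hL'.swap23
          | exact hL'.swap12.swap23
          | exact hL'.swap23.swap12
          | exact hL'.swap12.swap23.swap12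
      · rw [Function.update_of_ne hi, Function.update_of_ne hi]
        exact (hQ i j k l hij' hik' hil' hjk' hjl' hkl').mono hG
    · intro i j hne
      rcases eq_or_ne i i₀ with rfl | hi
      · rw [Function.update_self, Function.update_of_ne hne.symm]
        exact Finset.disjoint_insert_left.2 ⟨hvS j, hdis i j hne⟩
      · rcases eq_or_ne j i₀ with rfl | hj
        · rw [Function.update_self, Function.update_of_ne hne]
          exact Finset.disjoint_insert_right.2 ⟨hvS i, hdis i j hne⟩
        · rw [Function.update_of_ne hi, Function.update_of_ne hj]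
          exact hdis i j hne
    · intro i j
      rcases eq_or_ne j i₀ with rfl | hj
      · rw [Function.update_self, Finset.mem_insert, not_or]
        exact ⟨(hvp i).symm, hpS i j⟩
      · rw [Function.update_of_ne hj]
        exact hpS i j
    · rw [← hV]
      ext u
      simp only [quadV, Finset.mem_union, Finset.mem_biUnion, Finset.mem_univ, true_and,
        Finset.mem_insert]
      constructor
      · rintro (h | ⟨i, hi⟩)
        · exact Or.inr (Or.inl h)
        · rcases eq_or_ne i i₀ with rfl | hne
          · rw [Function.update_self, Finset.mem_insert] at hi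
            rcases hi with hi | hi
            · exact Or.inl hi
            · exact Or.inr (Or.inr ⟨i, hi⟩)
          · rw [Function.update_of_ne hne] at hi
            exact Or.inr (Or.inr ⟨i, hi⟩)
      · rintro (h | h | ⟨i, hi⟩)
        · refine Or.inr ⟨i₀, ?_⟩
          rw [Function.update_self, h]
          exact Finset.mem_insert_self _ _
        · exact Or.inl h
        · refine Or.inr ⟨i, ?_⟩
          rcases eq_or_ne i i₀ with rfl | hne
          · rw [Function.update_self]
            exact Finset.mem_insert_of_mem hi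
          · rw [Function.update_of_ne hne]
            exact hi
    · intro g hg
      rcases Finset.mem_union.1 hg with hg | hg
      · obtain ⟨hgf, hgF⟩ := Finset.mem_erase.1 hg
        obtain ⟨i, -, hi⟩ := Finset.mem_biUnion.1 (hF hgF)
        refine Finset.mem_biUnion.2 ⟨i, Finset.mem_univ _, ?_⟩
        rcases eq_or_ne i i₀ with rfl | hne
        · rw [Function.update_self]
          exact hL'sub (Finset.mem_union_left _ (Finset.mem_erase.2 ⟨hgf, hi⟩))
        · rw [Function.update_of_ne hne]
          exact hi
      · refine Finset.mem_biUnion.2 ⟨i₀, Finset.mem_univ _, ?_⟩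
        rw [Function.update_self]
        exact hL'sub (Finset.mem_union_right _ hg)

end Pool.Agent.Lib.H28P
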