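import Pool.Agent.Lib.H28P.G03

/-!
# G10 (M): the centroid

PROOF. Let `c i = (S i).card`, `N = ∑ c + 2` (so that `∑ (2 c i + 1) = 2 N`). It is enough to prove by
strong induction on `n`: if `Quad G p S L` and `c i₀ ≤ n` and all `i ≠ i₀` satisfy `2 c i + 1 ≤ N`, then
the conclusion holds. (Start: at most one `i` has `2 c i + 1 > N`, since the sum of all is `2 N` and
all are positive; take it as `i₀`, or any `i₀` if there is none.) Step: if `2 c i₀ + 1 ≤ N` we are done.
Otherwise `c i₀ > 0` (as `N ≥ 2`), so the gadget at `i₀`, corners `p j, p k, p l`, is a node with centre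
`e` and parts `S₁ (e, k, l)`, `S₂ (j, e, l)`, `S₃ (j, k, e)` (cases on `Gad`; the leaf has `S = ∅`).
New quadruple: `p' i₀ = e`, `p' = p` elsewhere; `S' i₀ = insert (p i₀) (S j ∪ S k ∪ S l)` (outside of
the triangle `j k l`: `Gad.node` with centre `p i₀`), `S' j = S₁` (the triangle opposite to `p j`
in the new tetrahedron `e, p j, p k, p l`), `S' k = S₂`, `S' l = S₃`; the same for `L'`. `quadV` is
unchanged, hence `∑ c' = ∑ c` and `N' = N` (count vertices, or directly:
`c' i₀ = 1 + c j + c k + c l` and `c i₀ = 1 + #S₁ + #S₂ + #S₃`). `2 c' i₀ + 1 = 2 N - (2 c i₀ + 1) < N`.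
The parts `S₁, S₂, S₃` have fewer elements than `S i₀`, and at most one of them has `2 # + 1 > N`: let
`i₀'` be this index (if none, done) and apply the induction hypothesis with `n - 1`.
-/

set_option autoImplicit false

namespace Pool.Agent.Lib.H28P

variable {V : Type*} [DecidableEq V] {G : SimpleGraph V}

theorem g10_reindex {p : Fin 4 → V} {S : Fin 4 → Finset V}
    {L : Fin 4 → Finset (Finset V)} (h : Quad G p S L) (σ : Equiv.Perm (Fin 4)) :
    Quad G (p ∘ σ) (S ∘ σ) (L ∘ σ) := by
  obtain ⟨h1, h2, h3, h4⟩ := h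
  refine ⟨?_, ?_, ?_, ?_⟩
  · intro i j k l a b c d e f
    exact h1 _ _ _ _ (σ.injective.ne a) (σ.injective.ne b) (σ.injective.ne c) (σ.injective.ne d)
      (σ.injective.ne e) (σ.injective.ne f)
  · intro i j hij
    exact h2 _ _ (σ.injective.ne hij)
  · intro i j; exact h3 _ _
  · exact h4.comp σ.injective

theorem g10_quadV (p : Fin 4 → V) (S : Fin 4 → Finset V) (σ : Equiv.Perm (Fin 4)) :
    quadV (p ∘ σ) (S ∘ σ) = quadV p S := by
  unfold quadV
  ext v
  simp only [Finset.mem_union, Finset.mem_image, Finset.mem_univ, true_and, Finset.mem_biUnion,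
    Function.comp_apply]
  constructor
  · rintro (⟨a, ha⟩ | ⟨a, ha⟩)
    · exact Or.inl ⟨_, ha⟩
    · exact Or.inr ⟨_, ha⟩
  · rintro (⟨a, ha⟩ | ⟨a, ha⟩)
    · exact Or.inl ⟨σ.symm a, by simpa using ha⟩
    · exact Or.inr ⟨σ.symm a, by simpa using ha⟩

theorem g10_six {P : Fin 4 → Fin 4 → Fin 4 → Fin 4 → Prop}
    (s12 : ∀ i j k l, P i j k l → P i k j l) (s23 : ∀ i j k l, P i j k l → P i j l k)
    (h0 : P 0 1 2 3) (h1 : P 1 0 2 3) (h2 : P 2 0 1 3) (h3 : P 3 0 1 2) :
    ∀ i j k l : Fin 4, i ≠ j → i ≠ k → i ≠ l → j ≠ k → j ≠ l → k ≠ l → P i j k l := by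
  have main : ∀ i j k l, P i j k l → P i j k l ∧ P i j l k ∧ P i k j l ∧ P i k l j ∧ P i l j k ∧
      P i l k j := by
    intro i j k l h
    refine ⟨h, s23 _ _ _ _ h, s12 _ _ _ _ h, s23 _ _ _ _ (s12 _ _ _ _ h),
      s12 _ _ _ _ (s23 _ _ _ _ h), s23 _ _ _ _ (s12 _ _ _ _ (s23 _ _ _ _ h))⟩
  have m0 := main _ _ _ _ h0
  have m1 := main _ _ _ _ h1
  have m2 := main _ _ _ _ h2
  have m3 := main _ _ _ _ h3
  intro i j k l
  fin_cases i <;> fin_cases j <;> fin_cases k <;> fin_cases l <;> intro a b c d e f <;>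
    first
      | exact absurd rfl a
      | exact absurd rfl b
      | exact absurd rfl c
      | exact absurd rfl d
      | exact absurd rfl e
      | exact absurd rfl f
      | exact m0.1
      | exact m0.2.1
      | exact m0.2.2.1
      | exact m0.2.2.2.1
      | exact m0.2.2.2.2.1
      | exact m0.2.2.2.2.2
      | exact m1.1
      | exact m1.2.1
      | exact m1.2.2.1
      | exact m1.2.2.2.1
      | exact m1.2.2.2.2.1
      | exact m1.2.2.2.2.2
      | exact m2.1
      | exact m2.2.1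
      | exact m2.2.2.1
      | exact m2.2.2.2.1
      | exact m2.2.2.2.2.1
      | exact m2.2.2.2.2.2
      | exact m3.1
      | exact m3.2.1
      | exact m3.2.2.1
      | exact m3.2.2.2.1
      | exact m3.2.2.2.2.1
      | exact m3.2.2.2.2.2

theorem g10_mk {p0 p1 p2 p3 : V} {S0 S1 S2 S3 : Finset V} {L0 L1 L2 L3 : Finset (Finset V)}
    (h0 : Gad G p1 p2 p3 S0 L0) (h1 : Gad G p0 p2 p3 S1 L1) (h2 : Gad G p0 p1 p3 S2 L2)
    (h3 : Gad G p0 p1 p2 S3 L3) (d01 : Disjoint S0 S1) (d02 : Disjoint S0 S2)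
    (d03 : Disjoint S0 S3) (d12 : Disjoint S1 S2) (d13 : Disjoint S1 S3) (d23 : Disjoint S2 S3)
    (n0 : p0 ∉ S0) (n1 : p1 ∉ S1) (n2 : p2 ∉ S2) (n3 : p3 ∉ S3) :
    Quad G ![p0, p1, p2, p3] ![S0, S1, S2, S3] ![L0, L1, L2, L3] := by
  refine ⟨?_, ?_, ?_, ?_⟩
  · refine g10_six (P := fun i j k l => Gad G (![p0, p1, p2, p3] j) (![p0, p1, p2, p3] k)
      (![p0, p1, p2, p3] l) (![S0, S1, S2, S3] i) (![L0, L1, L2, L3] i)) ?_ ?_ h0 h1 h2 h3
    · intro i j k l h; exact h.swap12
    · intro i j k l h; exact h.swap23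
  · intro i j hij
    fin_cases i <;> fin_cases j <;>
      first
        | exact absurd rfl hij
        | exact d01
        | exact d01.symm
        | exact d02
        | exact d02.symm
        | exact d03
        | exact d03.symm
        | exact d12
        | exact d12.symm
        | exact d13
        | exact d13.symm
        | exact d23
        | exact d23.symm
  · intro i j
    fin_cases i <;> fin_cases j <;>
      first
        | exact n0
        | exact n1
        | exact n2
        | exact n3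
        | exact h0.notMem.1
        | exact h0.notMem.2.1
        | exact h0.notMem.2.2
        | exact h1.notMem.1
        | exact h1.notMem.2.1
        | exact h1.notMem.2.2
        | exact h2.notMem.1
        | exact h2.notMem.2.1
        | exact h2.notMem.2.2
        | exact h3.notMem.1
        | exact h3.notMem.2.1
        | exact h3.notMem.2.2
  · have a12 := h0.adj.1.ne
    have a23 := h0.adj.2.1.ne
    have a13 := h0.adj.2.2.ne
    have a02 := h1.adj.1.ne
    have a03 := h1.adj.2.2.ne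
    have a01 := h2.adj.1.ne
    intro i j hij
    fin_cases i <;> fin_cases j <;>
      first
        | rfl
        | exact absurd hij a12
        | exact absurd hij a12.symm
        | exact absurd hij a13
        | exact absurd hij a13.symm
        | exact absurd hij a23
        | exact absurd hij a23.symm
        | exact absurd hij a01
        | exact absurd hij a01.symm
        | exact absurd hij a02
        | exact absurd hij a02.symm
        | exact absurd hij a03
        | exact absurd hij a03.symm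

theorem g10_quadV4 (p : Fin 4 → V) (S : Fin 4 → Finset V) :
    quadV p S = insert (p 0) (insert (p 1) (insert (p 2) (insert (p 3)
      (S 0 ∪ (S 1 ∪ (S 2 ∪ S 3)))))) := by
  unfold quadV
  ext v
  simp only [Finset.mem_union, Finset.mem_image, Finset.mem_univ, true_and, Finset.mem_biUnion,
    Finset.mem_insert]
  constructor
  · rintro (⟨i, hi⟩ | ⟨i, hi⟩)
    · fin_cases i
      · exact Or.inl hi.symm
      · exact Or.inr (Or.inl hi.symm)
      · exact Or.inr (Or.inr (Or.inl hi.symm))
      · exact Or.inr (Or.inr (Or.inr (Or.inl hi.symm)))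
    · fin_cases i
      · exact Or.inr (Or.inr (Or.inr (Or.inr (Or.inl hi))))
      · exact Or.inr (Or.inr (Or.inr (Or.inr (Or.inr (Or.inl hi)))))
      · exact Or.inr (Or.inr (Or.inr (Or.inr (Or.inr (Or.inr (Or.inl hi))))))
      · exact Or.inr (Or.inr (Or.inr (Or.inr (Or.inr (Or.inr (Or.inr hi))))))
  · rintro (h | h | h | h | h | h | h | h)
    · exact Or.inl ⟨0, h.symm⟩
    · exact Or.inl ⟨1, h.symm⟩
    · exact Or.inl ⟨2, h.symm⟩
    · exact Or.inl ⟨3, h.symm⟩
    · exact Or.inr ⟨0, h⟩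
    · exact Or.inr ⟨1, h⟩
    · exact Or.inr ⟨2, h⟩
    · exact Or.inr ⟨3, h⟩

theorem g10_node {x y z : V} {S : Finset V} {L : Finset (Finset V)} (h : Gad G x y z S L)
    (hne : S ≠ ∅) : ∃ c S₁ S₂ S₃ L₁ L₂ L₃, Gad G c y z S₁ L₁ ∧ Gad G x c z S₂ L₂ ∧
      Gad G x y c S₃ L₃ ∧ x ∉ S₁ ∧ y ∉ S₂ ∧ z ∉ S₃ ∧ Disjoint S₁ S₂ ∧ Disjoint S₁ S₃ ∧
      Disjoint S₂ S₃ ∧ S = insert c (S₁ ∪ S₂ ∪ S₃) := by
  cases h with
  | leaf => exact absurd rfl hne
  | node _ _ _ c S₁ S₂ S₃ L₁ L₂ L₃ h₁ h₂ h₃ hx hy hz h12 h13 h23 =>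
    exact ⟨c, S₁, S₂, S₃, L₁, L₂, L₃, h₁, h₂, h₃, hx, hy, hz, h12, h13, h23, rfl⟩

theorem g10_card (c : V) (A B C : Finset V) (hA : c ∉ A) (hB : c ∉ B) (hC : c ∉ C)
    (h12 : Disjoint A B) (h13 : Disjoint A C) (h23 : Disjoint B C) :
    (insert c (A ∪ B ∪ C)).card = 1 + A.card + B.card + C.card := by
  rw [Finset.card_insert_of_notMem (by simp [hA, hB, hC]),
    Finset.card_union_of_disjoint (by rw [Finset.disjoint_union_left]; exact ⟨h13, h23⟩),
    Finset.card_union_of_disjoint h12]
  ring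

theorem g10_step {p : Fin 4 → V} {S : Fin 4 → Finset V}
    {L : Fin 4 → Finset (Finset V)} (h : Quad G p S L) (hne : S 0 ≠ ∅) :
    ∃ p' S' L', Quad G p' S' L' ∧ quadV p' S' = quadV p S ∧
      (S' 0).card = 1 + (S 1).card + (S 2).card + (S 3).card ∧
      (S 0).card = 1 + (S' 1).card + (S' 2).card + (S' 3).card := by
  obtain ⟨h1, h2, h3, h4⟩ := h
  have g0 := h1 0 1 2 3 (by decide) (by decide) (by decide) (by decide) (by decide) (by decide)
  have g1 := h1 1 0 2 3 (by decide) (by decide) (by decide) (by decide) (by decide) (by decide)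
  have g2 := h1 2 1 0 3 (by decide) (by decide) (by decide) (by decide) (by decide) (by decide)
  have g3 := h1 3 1 2 0 (by decide) (by decide) (by decide) (by decide) (by decide) (by decide)
  have d12 := h2 1 2 (by decide)
  have d13 := h2 1 3 (by decide)
  have d23 := h2 2 3 (by decide)
  have d01 := h2 0 1 (by decide)
  have d02 := h2 0 2 (by decide)
  have d03 := h2 0 3 (by decide)
  have hp0 : p 0 ∉ S 0 := h3 0 0
  have big := Gad.node (p 1) (p 2) (p 3) (p 0) _ _ _ _ _ _ g1 g2 g3 (h3 1 1) (h3 2 2) (h3 3 3)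
    d12 d13 d23
  obtain ⟨e, T₁, T₂, T₃, M₁, M₂, M₃, k1, k2, k3, x1, y2, z3, t12, t13, t23, hS0⟩ :=
    g10_node g0 hne
  have sub1 : T₁ ⊆ S 0 := by rw [hS0]; intro v hv; simp [hv]
  have sub2 : T₂ ⊆ S 0 := by rw [hS0]; intro v hv; simp [hv]
  have sub3 : T₃ ⊆ S 0 := by rw [hS0]; intro v hv; simp [hv]
  have he : e ∈ S 0 := by rw [hS0]; simp
  have key : ∀ T ⊆ S 0, Disjoint (insert (p 0) (S 1 ∪ S 2 ∪ S 3)) T := by
    intro T hT
    rw [Finset.disjoint_insert_left, Finset.disjoint_union_left, Finset.disjoint_union_left]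
    exact ⟨fun hh => hp0 (hT hh), ⟨(d01.mono_left hT).symm, (d02.mono_left hT).symm⟩,
      (d03.mono_left hT).symm⟩
  have ne0 : e ∉ insert (p 0) (S 1 ∪ S 2 ∪ S 3) := by
    have := key {e} (by simpa using he)
    simpa using this
  refine ⟨_, _, _, g10_mk big k1 k2.swap12 k3.swap23.swap12 (key _ sub1) (key _ sub2) (key _ sub3)
    t12 t13 t23 ne0 x1 y2 z3, ?_, ?_, ?_⟩
  · rw [g10_quadV4, g10_quadV4, hS0]
    ext v
    simp only [Matrix.cons_val_zero, Matrix.cons_val_one, Matrix.cons_val, Finset.mem_insert,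
      Finset.mem_union]
    clear * -
    constructor
    · rintro (h | h | h | h | (h | (h | h) | h) | h | h | h) <;> simp [h]
    · rintro (h | h | h | h | (h | (h | h) | h) | h | h | h) <;> simp [h]
  · exact g10_card _ _ _ _ (h3 0 1) (h3 0 2) (h3 0 3) d12 d13 d23
  · rw [hS0]
    exact g10_card _ _ _ _ k1.notMem.1 k2.notMem.2.1 k3.notMem.2.2 t12 t13 t23

theorem g10_main (n : ℕ) : ∀ (p : Fin 4 → V) (S : Fin 4 → Finset V)
    (L : Fin 4 → Finset (Finset V)), Quad G p S L → ∀ i₀ : Fin 4, (S i₀).card ≤ n →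
    (∀ i, i ≠ i₀ → 2 * (S i).card + 1 ≤ (∑ j, (S j).card) + 2) →
    ∃ p' S' L', Quad G p' S' L' ∧ quadV p' S' = quadV p S ∧
      ∀ i, 2 * (S' i).card + 1 ≤ (∑ j, (S' j).card) + 2 := by
  induction n with
  | zero =>
    intro p S L h i₀ hi hn
    refine ⟨p, S, L, h, rfl, fun i => ?_⟩
    by_cases hii : i = i₀
    · subst hii; omega
    · exact hn i hii
  | succ n ih =>
    intro p S L h i₀ hi hn
    by_cases hbal : 2 * (S i₀).card + 1 ≤ (∑ j, (S j).card) + 2
    · refine ⟨p, S, L, h, rfl, fun i => ?_⟩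
      by_cases hii : i = i₀
      · subst hii; exact hbal
      · exact hn i hii
    · push Not at hbal
      set σ : Equiv.Perm (Fin 4) := Equiv.swap 0 i₀ with hσ
      have hq := g10_reindex h σ
      have hne : (S ∘ σ) 0 ≠ ∅ := by
        intro h0
        simp only [hσ, Function.comp_apply, Equiv.swap_apply_left] at h0
        rw [h0] at hbal
        simp at hbal
      obtain ⟨p', S', L', hQ, hV, c0, c1⟩ := g10_step hq hne
      rw [g10_quadV] at hV
      have hsum : ∑ j, (S j).card = (S (σ 0)).card + (S (σ 1)).card + (S (σ 2)).card +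
          (S (σ 3)).card := by
        rw [← Equiv.sum_comp σ, Fin.sum_univ_four]
      have hσ0 : σ 0 = i₀ := by simp [hσ]
      simp only [Function.comp_apply, hσ0] at c0 c1
      rw [hσ0] at hsum
      have hsum' : ∑ j, (S' j).card = (S' 0).card + (S' 1).card + (S' 2).card + (S' 3).card :=
        Fin.sum_univ_four _
      rw [← hV]
      by_cases b1 : 2 * (S' 1).card + 1 ≤ (∑ j, (S' j).card) + 2
      · by_cases b2 : 2 * (S' 2).card + 1 ≤ (∑ j, (S' j).card) + 2
        · refine ih p' S' L' hQ 3 (by omega) ?_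
          intro i hi
          fin_cases i
          · show 2 * (S' 0).card + 1 ≤ _
            omega
          · exact b1
          · exact b2
          · exact absurd rfl hi
        · refine ih p' S' L' hQ 2 (by omega) ?_
          intro i hi
          fin_cases i
          · show 2 * (S' 0).card + 1 ≤ _
            omega
          · exact b1
          · exact absurd rfl hi
          · show 2 * (S' 3).card + 1 ≤ _
            omega
      · refine ih p' S' L' hQ 1 (by omega) ?_
        intro i hi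
        fin_cases i
        · show 2 * (S' 0).card + 1 ≤ _
          omega
        · exact absurd rfl hi
        · show 2 * (S' 2).card + 1 ≤ _
          omega
        · show 2 * (S' 3).card + 1 ≤ _
          omega

theorem Quad.exists_balanced {p : Fin 4 → V} {S : Fin 4 → Finset V}
    {L : Fin 4 → Finset (Finset V)} (h : Quad G p S L) :
    ∃ p' S' L', Quad G p' S' L' ∧ quadV p' S' = quadV p S ∧
      ∀ i, 2 * (S' i).card + 1 ≤ (∑ j, (S' j).card) + 2 := by
  have hsum : ∑ j, (S j).card = (S 0).card + (S 1).card + (S 2).card + (S 3).card :=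
    Fin.sum_univ_four _
  by_cases hex : ∃ i, (∑ j, (S j).card) + 2 < 2 * (S i).card + 1
  · obtain ⟨i₀, hi₀⟩ := hex
    refine g10_main _ p S L h i₀ le_rfl ?_
    intro i hi
    have h2 : (S i).card + (S i₀).card ≤ ∑ j, (S j).card := by
      rw [← Finset.sum_pair (f := fun j => (S j).card) hi]
      exact Finset.sum_le_sum_of_subset (Finset.subset_univ _)
    omega
  · push Not at hex
    exact ⟨p, S, L, h, rfl, hex⟩

end Pool.Agent.Lib.H28P
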