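import Pool.Agent.Lib.H28P.G07
import Pool.Agent.Lib.H28P.G09
import Pool.Agent.Lib.H28P.G10

/-!
# G11 (S/M): the numerical data of a stacked polytope

PROOF. `Stacked.exists_quad`, then `Quad.exists_balanced`, then `Quad.bounds` with
`M i = 2 * (S i).card + 1`. `V = quadV p S` has `4 + ∑ (S i).card` elements (`p` injective, the sets
are disjoint and contain no `p i`: `Finset.card_union_of_disjoint`, `Finset.card_biUnion`,
`Finset.card_image_of_injective`). A list which is a chain for `(graphOf E).Adj` is a chain for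
`s(u, v) ∈ E` (`SimpleGraph.fromEdgeSet_adj`).
-/

set_option autoImplicit false

namespace Pool.Agent.Lib.H28P

theorem Stacked.numeric {V : Finset ℕ} {E : Finset (Sym2 ℕ)} {F : Finset (Finset ℕ)}
    (h : Stacked V E F) (H : ℕ) (hH : ∀ l, EdgePath V E l → l.length + 1 ≤ H) :
    ∃ M w X Y : Fin 4 → ℕ, (∑ i, M i = 2 * (V.card - 2)) ∧ 2 ≤ V.card ∧
      (∀ i, M i ≤ V.card - 2) ∧ (∀ i, R (M i) (w i) (X i)) ∧
      (∀ i, ∃ w', R (2 * (V.card - 2) - M i) w' (Y i)) ∧
      (∀ i j k l : Fin 4, i ≠ j → i ≠ k → i ≠ l → j ≠ k → j ≠ l → k ≠ l →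
        X i + w j + w k + w l ≤ H) ∧
      (∀ i j k : Fin 4, i ≠ j → i ≠ k → j ≠ k → X i + X j + w k ≤ H) ∧
      ∀ i, X i + Y i ≤ H := by
  obtain ⟨p₀, S₀, L₀, hq₀, hV₀, -⟩ := h.exists_quad
  obtain ⟨p, S, L, hq, hV', hbal⟩ := hq₀.exists_balanced
  have hV : quadV p S = V := hV'.trans hV₀
  obtain ⟨w, X, Y, hR, hR', hA, hB, hC⟩ := hq.bounds H (by
    intro l h1 h2 h3
    apply hH
    refine ⟨h1, fun v hv => hV ▸ h2 v hv, ?_⟩
    refine h3.imp ?_
    intro u v huv
    rw [graphOf, SimpleGraph.fromEdgeSet_adj] at huv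
    exact huv.1)
  have hcard : V.card = 4 + ∑ i, (S i).card := by
    obtain ⟨-, hdis, hpS, hinj⟩ := hq
    rw [← hV, quadV, Finset.card_union_of_disjoint, Finset.card_biUnion,
      Finset.card_image_of_injective _ hinj]
    · simp
    · intro i _ j _ hij
      exact hdis i j hij
    · rw [Finset.disjoint_left]
      intro v hv hv'
      simp only [Finset.mem_image, Finset.mem_biUnion, Finset.mem_univ, true_and] at hv hv'
      obtain ⟨i, rfl⟩ := hv
      obtain ⟨j, hj⟩ := hv'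
      exact hpS i j hj
  have hsum : ∑ i, (2 * (S i).card + 1) = 2 * (V.card - 2) := by
    rw [Finset.sum_add_distrib, ← Finset.mul_sum, hcard]
    simp
    omega
  refine ⟨fun i => 2 * (S i).card + 1, w, X, Y, hsum, by omega, ?_, hR, ?_, hA, hB, hC⟩
  · intro i
    have := hbal i
    show 2 * (S i).card + 1 ≤ V.card - 2
    omega
  · intro i
    obtain ⟨w', hw'⟩ := hR' i
    refine ⟨w', ?_⟩
    rw [hsum] at hw'
    exact hw'

end Pool.Agent.Lib.H28P
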