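import Pool.Agent.Lib.H28P.Defs

/-!
# N01: the sequence A006046
-/

set_option autoImplicit false

namespace Pool.Agent.Lib.H28P

theorem a_zero : a 0 = 0 := by
  rw [a]; simp

theorem a_one : a 1 = 1 := by
  rw [a]; simp

theorem a_even (n : ℕ) : a (2 * n) = 3 * a n := by
  rcases Nat.eq_zero_or_pos n with rfl | hn
  · simp [a_zero]
  · rw [a]
    have h1 : ¬ (2 * n < 2) := by omega
    have h2 : 2 * n % 2 = 0 := by omega
    have h3 : 2 * n / 2 = n := by omega
    simp only [h1, h2, h3, dite_false, if_true]

theorem a_odd (n : ℕ) : a (2 * n + 1) = 2 * a n + a (n + 1) := by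
  rcases Nat.eq_zero_or_pos n with rfl | hn
  · simp [a_zero, a_one]
  · rw [a]
    have h1 : ¬ (2 * n + 1 < 2) := by omega
    have h2 : ¬ ((2 * n + 1) % 2 = 0) := by omega
    have h3 : (2 * n + 1) / 2 = n := by omega
    simp only [h1, h2, h3, dite_false, if_false]

theorem a_le_succ (n : ℕ) : a n ≤ a (n + 1) := by
  induction n using Nat.strong_induction_on with
  | _ n ih =>
    rcases Nat.even_or_odd' n with ⟨k, rfl | rfl⟩
    · rcases Nat.eq_zero_or_pos k with rfl | hk
      · simp [a_zero]
      · rw [a_even, a_odd]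
        have := ih k (by omega)
        omega
    · have h1 : 2 * k + 1 + 1 = 2 * (k + 1) := by ring
      rw [h1, a_even, a_odd]
      have := ih k (by omega)
      omega

theorem a_mono : Monotone a := monotone_nat_of_le_succ a_le_succ

theorem a_super : ∀ n i j : ℕ, i + j = n → j ≤ i → a i + 2 * a j ≤ a (i + j) := by
  intro n
  induction n using Nat.strong_induction_on with
  | _ n ih =>
    intro i j hn hji
    rcases Nat.eq_zero_or_pos j with rfl | hj
    · simp [a_zero]
    rcases Nat.even_or_odd' i with ⟨p, rfl | rfl⟩ <;> rcases Nat.even_or_odd' j with ⟨q, rfl | rfl⟩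
    · have h := ih (p + q) (by omega) p q rfl (by omega)
      have e : 2 * p + 2 * q = 2 * (p + q) := by ring
      rw [e, a_even, a_even, a_even]
      omega
    · have h1 := ih (p + q) (by omega) p q rfl (by omega)
      have h2 := ih (p + (q + 1)) (by omega) p (q + 1) rfl (by omega)
      have e : 2 * p + (2 * q + 1) = 2 * (p + q) + 1 := by ring
      have e2 : p + (q + 1) = p + q + 1 := by ring
      rw [e, a_even, a_odd, a_odd]
      rw [e2] at h2
      omega
    · have h1 := ih (p + q) (by omega) p q rfl (by omega)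
      have h2 := ih ((p + 1) + q) (by omega) (p + 1) q rfl (by omega)
      have e : 2 * p + 1 + 2 * q = 2 * (p + q) + 1 := by ring
      have e2 : p + 1 + q = p + q + 1 := by ring
      rw [e, a_even, a_odd, a_odd]
      rw [e2] at h2
      omega
    · have e : 2 * p + 1 + (2 * q + 1) = 2 * (p + q + 1) := by ring
      rw [e, a_even, a_odd, a_odd]
      rcases Nat.lt_or_ge q p with hqp | hqp
      · have h1 := ih (p + q) (by omega) p q rfl (by omega)
        have h2 := ih ((p + 1) + q) (by omega) (p + 1) q rfl (by omega)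
        have h3 := ih (p + (q + 1)) (by omega) p (q + 1) rfl (by omega)
        have e2 : p + 1 + q = p + q + 1 := by ring
        have e3 : p + (q + 1) = p + q + 1 := by ring
        have h4 := a_le_succ (p + q)
        rw [e2] at h2
        rw [e3] at h3
        omega
      · have hpq : p = q := by omega
        subst hpq
        have e4 : p + p + 1 = 2 * p + 1 := by ring
        rw [e4, a_odd]
        omega

theorem a_add (i j : ℕ) (h : j ≤ i) : a i + 2 * a j ≤ a (i + j) := a_super _ i j rfl h

theorem a_pow_add (j : ℕ) : ∀ r : ℕ, r ≤ 2 ^ j → a (2 ^ j + r) = 3 ^ j + 2 * a r := by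
  induction j with
  | zero =>
    intro r hr
    have : r = 0 ∨ r = 1 := by
      simp at hr; omega
    rcases this with rfl | rfl
    · simp [a_zero, a_one]
    · have := a_even 1
      simp [a_one] at this ⊢
      exact this
  | succ j ih =>
    intro r hr
    rcases Nat.even_or_odd' r with ⟨s, rfl | rfl⟩
    · have e : 2 ^ (j + 1) + 2 * s = 2 * (2 ^ j + s) := by ring
      have hs : s ≤ 2 ^ j := by
        rw [pow_succ] at hr; omega
      rw [e, a_even, a_even, ih s hs, pow_succ]
      ring
    · have e : 2 ^ (j + 1) + (2 * s + 1) = 2 * (2 ^ j + s) + 1 := by ring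
      have hs : s + 1 ≤ 2 ^ j := by
        rw [pow_succ] at hr; omega
      rw [e, a_odd, a_odd, ih s (by omega), add_assoc (2 ^ j) s 1, ih (s + 1) hs, pow_succ]
      ring

theorem a_chord (j : ℕ) : ∀ r : ℕ, r ≤ 2 ^ j → 2 ^ j * a r ≤ 3 ^ j * r := by
  induction j with
  | zero =>
    intro r hr
    have : r = 0 ∨ r = 1 := by
      simp at hr; omega
    rcases this with rfl | rfl <;> simp [a_zero, a_one]
  | succ j ih =>
    intro r hr
    rcases Nat.even_or_odd' r with ⟨s, rfl | rfl⟩
    · have hs : s ≤ 2 ^ j := by
        rw [pow_succ] at hr; omega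
      have := ih s hs
      rw [a_even, pow_succ, pow_succ]
      nlinarith
    · have hs : s + 1 ≤ 2 ^ j := by
        rw [pow_succ] at hr; omega
      have h1 := ih s (by omega)
      have h2 := ih (s + 1) hs
      rw [a_odd, pow_succ, pow_succ]
      have h3 : 0 < 3 ^ j := by positivity
      nlinarith

theorem a_four (r : ℕ) : a (4 * r) = 9 * a r := by
  have : 4 * r = 2 * (2 * r) := by ring
  rw [this, a_even, a_even]; ring

theorem a_pos {w : ℕ} (h : 1 ≤ a w) : 1 ≤ w := by
  rcases Nat.eq_zero_or_pos w with rfl | hw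
  · simp [a_zero] at h
  · exact hw

/-- every gadget satisfies `M ≤ a w` -/
theorem R.le_a {M w X : ℕ} (h : R M w X) : M ≤ a w := by
  induction h with
  | leaf => simp [a_one]
  | node M₁ M₂ M₃ w₁ w₂ w₃ X₁ X₂ X₃ _ _ _ i₁ i₂ i₃ =>
    have key : ∀ u v t : ℕ, v ≤ u → t ≤ v → a u + a v + a t ≤ a (u + v) := by
      intro u v t h1 h2
      have := a_add u v h1
      have := a_mono h2
      omega
    rcases le_total w₁ w₂ with h12 | h12 <;> rcases le_total w₁ w₃ with h13 | h13 <;>
      rcases le_total w₂ w₃ with h23 | h23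
    all_goals
      first
      | (have := key w₁ w₂ w₃ (by assumption) (by assumption)
         have h' : a (w₁ + w₂) ≤ a (max (w₁ + w₂) (max (w₁ + w₃) (w₂ + w₃))) :=
           a_mono (by omega)
         omega)
      | (have := key w₁ w₃ w₂ (by assumption) (by assumption)
         have h' : a (w₁ + w₃) ≤ a (max (w₁ + w₂) (max (w₁ + w₃) (w₂ + w₃))) :=
           a_mono (by omega)
         omega)
      | (have := key w₂ w₁ w₃ (by assumption) (by assumption)
         have h' : a (w₂ + w₁) ≤ a (max (w₁ + w₂) (max (w₁ + w₃) (w₂ + w₃))) :=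
           a_mono (by omega)
         omega)
      | (have := key w₂ w₃ w₁ (by assumption) (by assumption)
         have h' : a (w₂ + w₃) ≤ a (max (w₁ + w₂) (max (w₁ + w₃) (w₂ + w₃))) :=
           a_mono (by omega)
         omega)
      | (have := key w₃ w₁ w₂ (by assumption) (by assumption)
         have h' : a (w₃ + w₁) ≤ a (max (w₁ + w₂) (max (w₁ + w₃) (w₂ + w₃))) :=
           a_mono (by omega)
         omega)
      | (have := key w₃ w₂ w₁ (by assumption) (by assumption)
         have h' : a (w₃ + w₂) ≤ a (max (w₁ + w₂) (max (w₁ + w₃) (w₂ + w₃))) :=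
           a_mono (by omega)
         omega)

end Pool.Agent.Lib.H28P
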