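import Pool.Agent.Lib.H28P.N01

/-!
# N02: the piecewise linear bounds hold for every gadget
-/

set_option autoImplicit false

namespace Pool.Agent.Lib.H28P

theorem a_chord_real (j t : ℕ) (h : t ≤ 2 ^ j) : (a t : ℝ) / 3 ^ j ≤ (t : ℝ) / 2 ^ j := by
  have h1 := a_chord j t h
  have h2 : (2 : ℝ) ^ j * a t ≤ 3 ^ j * t := by exact_mod_cast h1
  rw [div_le_div_iff₀ (by positivity) (by positivity)]
  nlinarith

/-- quarter chords: for `2 ^ (j+2) ≤ W ≤ 2 ^ (j+3)` -/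
theorem a_quarter (j W : ℕ) (h1 : 2 ^ (j + 2) ≤ W) (h2 : W ≤ 2 ^ (j + 3)) :
    (9 * ((a W : ℝ) / 3 ^ (j + 2)) - 1) / 8 ≤ (W : ℝ) / 2 ^ (j + 2) ∨
      (9 * ((a W : ℝ) / 3 ^ (j + 2)) + 9) / 16 ≤ (W : ℝ) / 2 ^ (j + 2) ∨
      (9 * ((a W : ℝ) / 3 ^ (j + 2)) + 37) / 32 ≤ (W : ℝ) / 2 ^ (j + 2) := by
  obtain ⟨r, rfl⟩ := Nat.exists_eq_add_of_le h1
  have e3 : (2 : ℕ) ^ (j + 3) = 2 * 2 ^ (j + 2) := by ring
  have hr : r ≤ 2 ^ (j + 2) := by omega
  have e2 : (2 : ℕ) ^ (j + 2) = 4 * 2 ^ j := by ring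
  have e1 : (2 : ℕ) ^ (j + 1) = 2 * 2 ^ j := by ring
  have ha : (a (2 ^ (j + 2) + r) : ℝ) = 3 ^ (j + 2) + 2 * a r := by
    have := a_pow_add (j + 2) r hr
    exact_mod_cast this
  have h3 : (0 : ℝ) < 3 ^ j := by positivity
  have h4 : (0 : ℝ) < 2 ^ j := by positivity
  have p3 : (3 : ℝ) ^ (j + 2) = 9 * 3 ^ j := by ring
  have p3' : (3 : ℝ) ^ (j + 1) = 3 * 3 ^ j := by ring
  have p2 : (2 : ℝ) ^ (j + 2) = 4 * 2 ^ j := by ring
  rw [ha]
  push_cast
  have key : ∀ A s : ℝ, (3 ^ (j + 2) + 2 * A) / 3 ^ (j + 2) = 1 + 2 / 9 * (A / 3 ^ j) := by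
    intro A s
    rw [p3]; field_simp
  rw [key _ 0]
  have key2 : ((2 : ℝ) ^ (j + 2) + r) / 2 ^ (j + 2) = 1 + 1 / 4 * (r / 2 ^ j) := by
    rw [p2]; field_simp
  rw [key2]
  rcases Nat.lt_or_ge r (2 ^ j) with c1 | c1
  · left
    have := a_chord_real j r c1.le
    linarith
  rcases Nat.lt_or_ge r (2 * 2 ^ j) with c2 | c2
  · right; left
    obtain ⟨t, rfl⟩ := Nat.exists_eq_add_of_le c1
    have ht : t ≤ 2 ^ j := by omega
    have h5 := a_chord_real j t ht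
    have h6 : (a (2 ^ j + t) : ℝ) = 3 ^ j + 2 * a t := by
      have := a_pow_add j t ht
      exact_mod_cast this
    have h7 : (a (2 ^ j + t) : ℝ) / 3 ^ j = 1 + 2 * (a t / 3 ^ j) := by
      rw [h6]; field_simp
    have h8 : (((2 ^ j + t : ℕ)) : ℝ) / 2 ^ j = 1 + t / 2 ^ j := by
      push_cast; field_simp
    rw [h7, h8]
    linarith
  rcases Nat.lt_or_ge r (3 * 2 ^ j) with c3 | c3
  · right; left
    obtain ⟨t, ht'⟩ := Nat.exists_eq_add_of_le c2
    have ht : t ≤ 2 ^ j := by omega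
    have ht2 : t ≤ 2 ^ (j + 1) := by omega
    have h5 := a_chord_real j t ht
    have hr' : r = 2 ^ (j + 1) + t := by omega
    have h6 : (a r : ℝ) = 3 ^ (j + 1) + 2 * a t := by
      have := a_pow_add (j + 1) t ht2
      rw [hr']
      exact_mod_cast this
    have h7 : (a r : ℝ) / 3 ^ j = 3 + 2 * (a t / 3 ^ j) := by
      rw [h6, p3']; field_simp
    have h8 : (r : ℝ) / 2 ^ j = 2 + t / 2 ^ j := by
      rw [ht']; push_cast; field_simp
    rw [h7, h8]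
    linarith
  · right; right
    obtain ⟨t, ht'⟩ := Nat.exists_eq_add_of_le c3
    have ht : t ≤ 2 ^ j := by omega
    have h5 := a_chord_real j t ht
    have hr' : r = 2 ^ (j + 1) + (2 ^ j + t) := by omega
    have h6 : (a r : ℝ) = 3 ^ (j + 1) + 2 * (3 ^ j + 2 * a t) := by
      have h9 := a_pow_add (j + 1) (2 ^ j + t) (by omega)
      have h10 := a_pow_add j t ht
      rw [h10] at h9
      rw [hr']
      exact_mod_cast h9
    have h7 : (a r : ℝ) / 3 ^ j = 5 + 4 * (a t / 3 ^ j) := by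
      rw [h6, p3']; field_simp; ring
    have h8 : (r : ℝ) / 2 ^ j = 3 + t / 2 ^ j := by
      rw [ht']; push_cast; field_simp
    rw [h7, h8]
    linarith

theorem a_lines (j w : ℕ) (h1 : 2 ^ j ≤ w) (h2 : w ≤ 2 ^ (j + 1)) :
    (9 * ((a w : ℝ) / 3 ^ j) - 1) / 8 ≤ (w : ℝ) / 2 ^ j ∨
      (9 * ((a w : ℝ) / 3 ^ j) + 9) / 16 ≤ (w : ℝ) / 2 ^ j ∨
      (9 * ((a w : ℝ) / 3 ^ j) + 37) / 32 ≤ (w : ℝ) / 2 ^ j := by
  have h := a_quarter j (4 * w) (by rw [pow_add]; omega) (by rw [pow_succ] at h2; rw [pow_add]; omega)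
  have e1 : ((a (4 * w) : ℕ) : ℝ) / 3 ^ (j + 2) = (a w : ℝ) / 3 ^ j := by
    rw [a_four]; push_cast; rw [pow_add]; field_simp; ring
  have e2 : ((4 * w : ℕ) : ℝ) / 2 ^ (j + 2) = (w : ℝ) / 2 ^ j := by
    push_cast; rw [pow_add]; field_simp; ring
  rw [e1, e2] at h
  exact h

/-- every natural number `M ≤ a w`, `1 ≤ M`, satisfies the piecewise linear bounds -/
theorem WF_of_le_a (M w : ℕ) (hM : 1 ≤ M) (h : M ≤ a w) : WF (M : ℝ) (w : ℝ) := by
  have hw : 1 ≤ w := a_pos (le_trans hM h)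
  have hMR : (1 : ℝ) ≤ M := by exact_mod_cast hM
  have hwR : (1 : ℝ) ≤ w := by exact_mod_cast hw
  have hR : (M : ℝ) ≤ a w := by exact_mod_cast h
  intro j
  rcases le_or_gt 0 j with hj | hj
  · obtain ⟨n, rfl⟩ := Int.eq_ofNat_of_zero_le hj
    simp only [zpow_natCast]
    have h3 : (0 : ℝ) < 3 ^ n := by positivity
    have h2 : (0 : ℝ) < 2 ^ n := by positivity
    have hle : (M : ℝ) / 3 ^ n ≤ (a w : ℝ) / 3 ^ n := by gcongr
    constructor
    · intro hu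
      rcases Nat.lt_or_ge w (2 ^ n) with hw' | hw'
      · exact hle.trans (a_chord_real n w hw'.le)
      · refine hu.trans ?_
        rw [one_le_div h2]
        exact_mod_cast hw'
    · intro hu1 hu3
      rcases Nat.lt_or_ge w (2 ^ n) with hw' | hw'
      · exfalso
        have h4 := a_chord_real n w hw'.le
        have h5 : (w : ℝ) / 2 ^ n < 1 := by
          rw [div_lt_one h2]; exact_mod_cast hw'
        linarith
      rcases Nat.lt_or_ge w (2 ^ (n + 1)) with hw2 | hw2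
      · rcases a_lines n w hw' hw2.le with h4 | h4 | h4
        · left; linarith
        · right; left; linarith
        · right; right; linarith
      · right; right
        have h4 : (2 : ℝ) ≤ (w : ℝ) / 2 ^ n := by
          rw [le_div_iff₀ h2]
          have : (2 : ℝ) ^ (n + 1) ≤ w := by exact_mod_cast hw2
          rw [pow_succ] at this
          linarith
        linarith
  · obtain ⟨n, hn⟩ : ∃ n : ℕ, j = -((n : ℤ) + 1) := ⟨(-j - 1).toNat, by omega⟩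
    subst hn
    have e3 : (3 : ℝ) ^ (-((n : ℤ) + 1)) = (3 ^ (n + 1))⁻¹ := by
      rw [zpow_neg]; norm_cast
    have e2 : (2 : ℝ) ^ (-((n : ℤ) + 1)) = (2 ^ (n + 1))⁻¹ := by
      rw [zpow_neg]; norm_cast
    rw [e3, e2, div_inv_eq_mul, div_inv_eq_mul]
    have h3 : (1 : ℝ) ≤ 3 ^ n := one_le_pow₀ (by norm_num)
    have h2 : (1 : ℝ) ≤ 2 ^ n := one_le_pow₀ (by norm_num)
    have h5 : (3 : ℝ) ≤ M * 3 ^ (n + 1) := by
      rw [pow_succ]; nlinarith
    have h6 : (2 : ℝ) ≤ w * 2 ^ (n + 1) := by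
      rw [pow_succ]; nlinarith
    constructor
    · intro hu; linarith
    · intro _ hu
      right; right; linarith

end Pool.Agent.Lib.H28P
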