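import Pool.Agent.Lib.H28P.Defs

/-!
# N03: the distance to the odd integers; consequences of the piecewise linear bounds
-/

set_option autoImplicit false

namespace Pool.Agent.Lib.H28P

theorem D_nonneg (t : ℝ) : 0 ≤ D t := abs_nonneg _

theorem D_le (t : ℝ) (n : ℤ) : D t ≤ |t - (2 * n + 1)| := by
  unfold D
  have h := round_le ((t - 1) / 2) n
  have e1 : t - (2 * ((round ((t - 1) / 2) : ℤ) : ℝ) + 1)
      = 2 * ((t - 1) / 2 - ((round ((t - 1) / 2) : ℤ) : ℝ)) := by ring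
  have e2 : t - (2 * (n : ℝ) + 1) = 2 * ((t - 1) / 2 - (n : ℝ)) := by ring
  rw [e1, e2, abs_mul, abs_mul]
  have : (0 : ℝ) ≤ |(2 : ℝ)| := abs_nonneg _
  exact mul_le_mul_of_nonneg_left h this

theorem D_exists (t : ℝ) : ∃ n : ℤ, D t = |t - (2 * n + 1)| := ⟨round ((t - 1) / 2), rfl⟩

theorem D_le_one (t : ℝ) : D t ≤ 1 := by
  unfold D
  have e1 : t - (2 * ((round ((t - 1) / 2) : ℤ) : ℝ) + 1)
      = 2 * ((t - 1) / 2 - ((round ((t - 1) / 2) : ℤ) : ℝ)) := by ring
  rw [e1, abs_mul]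
  have := abs_sub_round ((t - 1) / 2)
  have h2 : |(2 : ℝ)| = 2 := by norm_num
  rw [h2]
  linarith

theorem D_lip (s t : ℝ) (k : ℤ) : D s ≤ D t + |s - t - 2 * k| := by
  obtain ⟨n, hn⟩ := D_exists t
  have h := D_le s (n + k)
  rw [hn]
  have e : s - (2 * ((n + k : ℤ) : ℝ) + 1) = (t - (2 * n + 1)) + (s - t - 2 * k) := by
    push_cast; ring
  rw [e] at h
  exact h.trans (abs_add_le _ _)

theorem D_add3 (r s t : ℝ) : D (r + s + t) ≤ D r + D s + D t := by
  obtain ⟨n, hn⟩ := D_exists r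
  obtain ⟨k, hk⟩ := D_exists s
  obtain ⟨l, hl⟩ := D_exists t
  have h := D_le (r + s + t) (n + k + l + 1)
  rw [hn, hk, hl]
  have e : r + s + t - (2 * ((n + k + l + 1 : ℤ) : ℝ) + 1)
      = (r - (2 * n + 1)) + (s - (2 * k + 1)) + (t - (2 * l + 1)) := by
    push_cast; ring
  rw [e] at h
  refine h.trans ((abs_add_le _ _).trans ?_)
  have := abs_add_le (r - (2 * (n : ℝ) + 1)) (s - (2 * (k : ℝ) + 1))
  linarith

/-- the sum of two numbers at distance `D` from odd ones is near an even one -/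
theorem D_add2 (r s : ℝ) (c : ℝ) (hc : ∀ n : ℤ, c ≤ |r + s - 2 * n|) : c ≤ D r + D s := by
  obtain ⟨n, hn⟩ := D_exists r
  obtain ⟨k, hk⟩ := D_exists s
  have h := hc (n + k + 1)
  rw [hn, hk]
  have e : r + s - 2 * ((n + k + 1 : ℤ) : ℝ) = (r - (2 * n + 1)) + (s - (2 * k + 1)) := by
    push_cast; ring
  rw [e] at h
  exact h.trans (abs_add_le _ _)

theorem D_le1 (t : ℝ) : D t ≤ |t - 1| := by simpa using D_le t 0
theorem D_le3 (t : ℝ) : D t ≤ |t - 3| := by
  have := D_le t 1; norm_num at this; exact this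
theorem D_le5 (t : ℝ) : D t ≤ |t - 5| := by
  have := D_le t 2; norm_num at this; exact this
theorem D_le7 (t : ℝ) : D t ≤ |t - 7| := by
  have := D_le t 3; norm_num at this; exact this
theorem D_le9 (t : ℝ) : D t ≤ |t - 9| := by
  have := D_le t 4; norm_num at this; exact this

theorem WF.scale {m w : ℝ} (h : WF m w) (i : ℤ) : WF (m / 3 ^ i) (w / 2 ^ i) := by
  intro j
  have e3 : m / 3 ^ i / 3 ^ j = m / 3 ^ (i + j) := by
    rw [zpow_add₀ (by norm_num), div_div]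
  have e2 : w / 2 ^ i / 2 ^ j = w / 2 ^ (i + j) := by
    rw [zpow_add₀ (by norm_num), div_div]
  rw [e3, e2]
  exact h (i + j)

theorem XF.scale {m x : ℝ} (h : XF m x) (i : ℤ) : XF (m / 3 ^ i) (x / 2 ^ i) := by
  intro j
  have e3 : m / 3 ^ i / 3 ^ j = m / 3 ^ (i + j) := by
    rw [zpow_add₀ (by norm_num), div_div]
  have e2 : x / 2 ^ i / 2 ^ j = x / 2 ^ (i + j) := by
    rw [zpow_add₀ (by norm_num), div_div]
  rw [e3, e2]
  exact h (i + j)

section W

variable {m w : ℝ}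

theorem WF.le_one (h : WF m w) (h1 : m ≤ 1) : m ≤ w := by
  have := (h 0).1
  simp only [zpow_zero, div_one] at this
  exact this h1

theorem WF.small (h : WF m w) (h1 : m ≤ 1 / 3) : 3 / 2 * m ≤ w := by
  have := (h (-1)).1
  rw [zpow_neg_one, zpow_neg_one, div_inv_eq_mul, div_inv_eq_mul] at this
  have := this (by linarith)
  linarith

theorem WF.l13 (h : WF m w) (h1 : 1 ≤ m) (h3 : m ≤ 3) :
    (9 * m - 1) / 8 ≤ w ∨ (9 * m + 9) / 16 ≤ w ∨ (9 * m + 37) / 32 ≤ w := by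
  have := (h 0).2
  simp only [zpow_zero, div_one] at this
  exact this h1 h3

theorem WF.l01 (h : WF m w) (h1 : 1 / 3 ≤ m) (h3 : m ≤ 1) :
    (27 * m - 1) / 16 ≤ w ∨ (27 * m + 9) / 32 ≤ w ∨ (27 * m + 37) / 64 ≤ w := by
  have := (h (-1)).2
  rw [zpow_neg_one, zpow_neg_one, div_inv_eq_mul, div_inv_eq_mul] at this
  rcases this (by linarith) (by linarith) with h4 | h4 | h4
  · left; linarith
  · right; left; linarith
  · right; right; linarith

theorem WF.l39 (h : WF m w) (h1 : 3 ≤ m) (h3 : m ≤ 9) :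
    (3 * m - 1) / 4 ≤ w ∨ (3 * m + 9) / 8 ≤ w ∨ (3 * m + 37) / 16 ≤ w := by
  have := (h 1).2
  rw [zpow_one, zpow_one] at this
  rcases this (by linarith) (by linarith) with h4 | h4 | h4
  · left; linarith
  · right; left; linarith
  · right; right; linarith

/-- coarse lines on `[1,3]` -/
theorem WF.q13 (h : WF m w) (h1 : 1 ≤ m) (h3 : m ≤ 3) :
    (3 * m + 1) / 4 ≤ w ∨ (3 * m + 7) / 8 ≤ w := by
  rcases h.l13 h1 h3 with h4 | h4 | h4
  · left; linarith
  · rcases le_total m (5 / 3) with h5 | h5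
    · left; linarith
    · right; linarith
  · right; linarith

theorem WF.q01 (h : WF m w) (h1 : 1 / 3 ≤ m) (h3 : m ≤ 1) :
    (9 * m + 1) / 8 ≤ w ∨ (9 * m + 7) / 16 ≤ w := by
  rcases h.l01 h1 h3 with h4 | h4 | h4
  · left; linarith
  · rcases le_total m (5 / 9) with h5 | h5
    · left; linarith
    · right; linarith
  · right; linarith

theorem WF.q39 (h : WF m w) (h1 : 3 ≤ m) (h3 : m ≤ 9) :
    (m + 1) / 2 ≤ w ∨ (m + 7) / 4 ≤ w := by
  rcases h.l39 h1 h3 with h4 | h4 | h4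
  · left; linarith
  · rcases le_total m 5 with h5 | h5
    · left; linarith
    · right; linarith
  · right; linarith

theorem WF.p01 (h : WF m w) (h1 : 1 / 3 ≤ m) (h3 : m ≤ 1) : (3 * m + 1) / 4 ≤ w := by
  rcases h.q01 h1 h3 with h4 | h4 <;> linarith

theorem WF.p13 (h : WF m w) (h1 : 1 ≤ m) (h3 : m ≤ 3) : (m + 1) / 2 ≤ w := by
  rcases h.q13 h1 h3 with h4 | h4 <;> linarith

/-- the bump on `[1,5]` -/
theorem WF.bump (h : WF m w) (h1 : 1 ≤ m) (h5 : m ≤ 5) : (m + 1) / 2 + D m / 20 ≤ w := by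
  have d1 := D_le1 m
  have d3 := D_le3 m
  have d5 := D_le5 m
  have d0 := D_le_one m
  rcases le_total m 3 with h3 | h3
  · rw [abs_of_nonneg (by linarith)] at d1
    rw [abs_of_nonpos (by linarith)] at d3
    rcases h.l13 h1 h3 with h4 | h4 | h4 <;> linarith
  · rw [abs_of_nonneg (by linarith)] at d3
    rw [abs_of_nonpos (by linarith)] at d5
    rcases h.l39 h3 (by linarith) with h4 | h4 | h4 <;> linarith

end W

section X

variable {m x : ℝ}

theorem XF.x39 (h : XF m x) (h1 : 3 ≤ m) (h3 : m ≤ 9) : (m + 3) / 2 + D m / 20 ≤ x := by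
  have := h 0
  simp only [zpow_zero, div_one] at this
  exact this h1 h3

theorem XF.x39' (h : XF m x) (h1 : 3 ≤ m) (h3 : m ≤ 9) : (m + 3) / 2 ≤ x := by
  have := h.x39 h1 h3
  have := D_nonneg m
  linarith

theorem XF.x13 (h : XF m x) (h1 : 1 ≤ m) (h3 : m ≤ 3) : (3 * m + 3) / 4 ≤ x := by
  have := h (-1)
  rw [zpow_neg_one, zpow_neg_one, div_inv_eq_mul, div_inv_eq_mul] at this
  have h4 := this (by linarith) (by linarith)
  have := D_nonneg (m * 3)
  linarith

theorem XF.x927 (h : XF m x) (h1 : 9 ≤ m) (h3 : m ≤ 27) : m / 3 + 3 ≤ x := by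
  have := h 1
  rw [zpow_one, zpow_one] at this
  have h4 := this (by linarith) (by linarith)
  have := D_nonneg (m / 3)
  linarith

end X

end Pool.Agent.Lib.H28P
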