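import Pool.Agent.Lib.H28P.N03

/-!
# N04: one step of the recursion, normalized and sorted
-/

set_option autoImplicit false

namespace Pool.Agent.Lib.H28P

section

variable {m₁ m₂ m₃ w₁ w₂ w₃ x₁ x₂ x₃ Z : ℝ}

theorem n04_A1 (h23 : m₃ ≤ m₂) (h3 : 0 < m₃) (hS9 : m₁ + m₂ + m₃ ≤ 9)
    (hm1 : 3 ≤ m₁) (hm2 : m₂ ≤ 1) (W2 : WF m₂ w₂) (X1 : XF m₁ x₁) (hz : x₁ + w₂ ≤ Z) :
    (m₁ + m₂ + m₃ + 3) / 2 + D (m₁ + m₂ + m₃) / 20 ≤ Z := by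
  have hx := X1.x39 hm1 (by linarith)
  rcases le_total (1 / 3) m₂ with h | h
  · have hw := W2.p01 h hm2
    have hD := D_lip (m₁ + m₂ + m₃) m₁ 1
    rw [abs_of_nonpos (by push_cast; linarith)] at hD
    push_cast at hD
    linarith
  · have hw := W2.small h
    have hD := D_lip (m₁ + m₂ + m₃) m₁ 0
    rw [abs_of_nonneg (by push_cast; linarith)] at hD
    push_cast at hD
    linarith

theorem n04_A2 (h12 : m₂ ≤ m₁) (h3 : 0 < m₃) (hS9 : m₁ + m₂ + m₃ ≤ 9)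
    (hm1 : 3 ≤ m₁) (hm2 : 1 ≤ m₂) (hm3 : m₃ ≤ 1) (W2 : WF m₂ w₂) (X1 : XF m₁ x₁)
    (hz : x₁ + w₂ ≤ Z) :
    (m₁ + m₂ + m₃ + 3) / 2 + D (m₁ + m₂ + m₃) / 20 ≤ Z := by
  have hx := X1.x39 hm1 (by linarith)
  have hw := W2.bump hm2 (by linarith)
  have hD := D_add3 m₁ m₂ m₃
  have hD3 := D_le1 m₃
  rw [abs_of_nonpos (by linarith)] at hD3
  linarith

theorem n04_A3a (h12 : m₂ ≤ m₁) (h23 : m₃ ≤ m₂) (hm3 : 1 ≤ m₃) (hm1 : m₁ ≤ 5)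
    (W1 : WF m₁ w₁) (W2 : WF m₂ w₂) (W3 : WF m₃ w₃) (hz : w₁ + w₂ + w₃ ≤ Z) :
    (m₁ + m₂ + m₃ + 3) / 2 + D (m₁ + m₂ + m₃) / 20 ≤ Z := by
  have h1 := W1.bump (by linarith) hm1
  have h2 := W2.bump (by linarith) (by linarith)
  have h3 := W3.bump hm3 (by linarith)
  have hD := D_add3 m₁ m₂ m₃
  linarith

theorem n04_A3b (h12 : m₂ ≤ m₁) (h23 : m₃ ≤ m₂) (hm3 : 1 ≤ m₃) (hm1 : 5 ≤ m₁)
    (hS9 : m₁ + m₂ + m₃ ≤ 9)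
    (W1 : WF m₁ w₁) (W2 : WF m₂ w₂) (W3 : WF m₃ w₃) (X1 : XF m₁ x₁) (hz : w₁ + w₂ + w₃ ≤ Z)
    (hz1 : x₁ + w₂ ≤ Z) (hz2 : x₁ + w₃ ≤ Z) :
    (m₁ + m₂ + m₃ + 3) / 2 + D (m₁ + m₂ + m₃) / 20 ≤ Z := by
  have hx := X1.x39 (by linarith) (by linarith)
  have hD0 := D_le_one (m₁ + m₂ + m₃)
  have hD1 := D_lip (m₁ + m₂ + m₃) m₁ 1
  rw [abs_of_nonneg (by push_cast; linarith)] at hD1
  push_cast at hD1
  have hD9 := D_le9 (m₁ + m₂ + m₃)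
  rw [abs_of_nonpos (by linarith)] at hD9
  have hD7 := D_le7 (m₁ + m₂ + m₃)
  rw [abs_of_nonneg (by linarith)] at hD7
  rcases W1.l39 (by linarith) (by linarith) with a1 | a1 | a1 <;>
    rcases W2.l13 (by linarith) (by linarith) with a2 | a2 | a2 <;>
      rcases W3.l13 (by linarith) (by linarith) with a3 | a3 | a3 <;> linarith

theorem n04_B2 (h12 : m₂ ≤ m₁) (h3 : 0 < m₃) (hS3 : 3 ≤ m₁ + m₂ + m₃)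
    (hm1 : m₁ ≤ 3) (hm2 : 1 ≤ m₂) (hm3 : m₃ ≤ 1)
    (W1 : WF m₁ w₁) (W2 : WF m₂ w₂) (W3 : WF m₃ w₃) (X1 : XF m₁ x₁) (X2 : XF m₂ x₂)
    (hz : w₁ + w₂ + w₃ ≤ Z) (hz12 : x₁ + w₂ ≤ Z) (hz21 : x₂ + w₁ ≤ Z) :
    (m₁ + m₂ + m₃ + 3) / 2 + D (m₁ + m₂ + m₃) / 20 ≤ Z := by
  have hx1 := X1.x13 (by linarith) (by linarith)
  have hx2 := X2.x13 (by linarith) (by linarith)
  have hw3 : (9 * m₃ + 1) / 8 ≤ w₃ ∨ (9 * m₃ + 7) / 16 ≤ w₃ ∨ (m₃ ≤ 1 / 3 ∧ 3 / 2 * m₃ ≤ w₃) := by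
    rcases le_total (1 / 3) m₃ with h | h
    · rcases W3.q01 h hm3 with h' | h'
      · exact Or.inl h'
      · exact Or.inr (Or.inl h')
    · exact Or.inr (Or.inr ⟨h, W3.small h⟩)
  rcases le_total (m₁ + m₂ + m₃) 5 with hS | hS
  · have hD3 := D_le3 (m₁ + m₂ + m₃)
    rw [abs_of_nonneg (by linarith)] at hD3
    have hD5 := D_le5 (m₁ + m₂ + m₃)
    rw [abs_of_nonpos (by linarith)] at hD5
    rcases W1.q13 (by linarith) (by linarith) with a1 | a1 <;>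
      rcases W2.q13 (by linarith) (by linarith) with a2 | a2 <;>
        rcases hw3 with a3 | a3 | ⟨a3', a3⟩ <;> linarith
  · have hD5 := D_le5 (m₁ + m₂ + m₃)
    rw [abs_of_nonneg (by linarith)] at hD5
    have hD7 := D_le7 (m₁ + m₂ + m₃)
    rw [abs_of_nonpos (by linarith)] at hD7
    rcases W1.q13 (by linarith) (by linarith) with a1 | a1 <;>
      rcases W2.q13 (by linarith) (by linarith) with a2 | a2 <;>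
        rcases hw3 with a3 | a3 | ⟨a3', a3⟩ <;> linarith

theorem n04_B3 (h12 : m₂ ≤ m₁) (h23 : m₃ ≤ m₂) (h3 : 0 < m₃) (hS3 : 3 ≤ m₁ + m₂ + m₃)
    (hm1 : m₁ ≤ 3) (hm2 : m₂ ≤ 1)
    (W1 : WF m₁ w₁) (W2 : WF m₂ w₂) (W3 : WF m₃ w₃) (X1 : XF m₁ x₁)
    (hz : w₁ + w₂ + w₃ ≤ Z) (hz12 : x₁ + w₂ ≤ Z) :
    (m₁ + m₂ + m₃ + 3) / 2 + D (m₁ + m₂ + m₃) / 20 ≤ Z := by
  have hx1 := X1.x13 (by linarith) (by linarith)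
  have hw3 : (1 / 3 ≤ m₃ ∧ (9 * m₃ + 1) / 8 ≤ w₃) ∨ (1 / 3 ≤ m₃ ∧ (9 * m₃ + 7) / 16 ≤ w₃) ∨
      (m₃ ≤ 1 / 3 ∧ 3 / 2 * m₃ ≤ w₃) := by
    rcases le_total (1 / 3) m₃ with h | h
    · rcases W3.q01 h (by linarith) with h' | h'
      · exact Or.inl ⟨h, h'⟩
      · exact Or.inr (Or.inl ⟨h, h'⟩)
    · exact Or.inr (Or.inr ⟨h, W3.small h⟩)
  have hw2 : (1 / 3 ≤ m₂ ∧ (27 * m₂ - 1) / 16 ≤ w₂) ∨ (1 / 3 ≤ m₂ ∧ (27 * m₂ + 9) / 32 ≤ w₂) ∨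
      (1 / 3 ≤ m₂ ∧ (27 * m₂ + 37) / 64 ≤ w₂) ∨ (m₂ ≤ 1 / 3 ∧ 3 / 2 * m₂ ≤ w₂) := by
    rcases le_total (1 / 3) m₂ with h | h
    · rcases W2.l01 h (by linarith) with h' | h' | h'
      · exact Or.inl ⟨h, h'⟩
      · exact Or.inr (Or.inl ⟨h, h'⟩)
      · exact Or.inr (Or.inr (Or.inl ⟨h, h'⟩))
    · exact Or.inr (Or.inr (Or.inr ⟨h, W2.small h⟩))
  rcases le_total (m₁ + m₂ + m₃) 5 with hS | hS
  · have hD3 := D_le3 (m₁ + m₂ + m₃)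
    rw [abs_of_nonneg (by linarith)] at hD3
    have hD5 := D_le5 (m₁ + m₂ + m₃)
    rw [abs_of_nonpos (by linarith)] at hD5
    rcases W1.l13 (by linarith) (by linarith) with a1 | a1 | a1 <;>
      rcases hw2 with ⟨a2', a2⟩ | ⟨a2', a2⟩ | ⟨a2', a2⟩ | ⟨a2', a2⟩ <;>
        rcases hw3 with ⟨a3', a3⟩ | ⟨a3', a3⟩ | ⟨a3', a3⟩ <;> linarith
  · have hD5 := D_le5 (m₁ + m₂ + m₃)
    rw [abs_of_nonneg (by linarith)] at hD5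
    have hw2 := W2.le_one hm2
    have hw3 := W3.le_one (by linarith)
    have hw1 := W1.p13 (by linarith) (by linarith)
    linarith

theorem closure_sorted (h12 : m₂ ≤ m₁) (h23 : m₃ ≤ m₂) (h3 : 0 < m₃)
    (hS3 : 3 ≤ m₁ + m₂ + m₃) (hS9 : m₁ + m₂ + m₃ ≤ 9)
    (W1 : WF m₁ w₁) (W2 : WF m₂ w₂) (W3 : WF m₃ w₃)
    (X1 : XF m₁ x₁) (X2 : XF m₂ x₂)
    (hz : w₁ + w₂ + w₃ ≤ Z) (hz12 : x₁ + w₂ ≤ Z) (hz13 : x₁ + w₃ ≤ Z) (hz21 : x₂ + w₁ ≤ Z) :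
    (m₁ + m₂ + m₃ + 3) / 2 + D (m₁ + m₂ + m₃) / 20 ≤ Z := by
  rcases le_total 3 m₁ with a1 | a1
  · rcases le_total m₂ 1 with a2 | a2
    · exact n04_A1 h23 h3 hS9 a1 a2 W2 X1 hz12
    · rcases le_total m₃ 1 with a3 | a3
      · exact n04_A2 h12 h3 hS9 a1 a2 a3 W2 X1 hz12
      · rcases le_total m₁ 5 with a4 | a4
        · exact n04_A3a h12 h23 a3 a4 W1 W2 W3 hz
        · exact n04_A3b h12 h23 a3 a4 hS9 W1 W2 W3 X1 hz hz12 hz13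
  · rcases le_total m₂ 1 with a2 | a2
    · exact n04_B3 h12 h23 h3 hS3 a1 a2 W1 W2 W3 X1 hz hz12
    · rcases le_total m₃ 1 with a3 | a3
      · exact n04_B2 h12 h3 hS3 a1 a2 a3 W1 W2 W3 X1 X2 hz hz12 hz21
      · exact n04_A3a h12 h23 a3 (by linarith) W1 W2 W3 hz

end

end Pool.Agent.Lib.H28P
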