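import Pool.Agent.Lib.H28P.N02
import Pool.Agent.Lib.H28P.N04

/-!
# N05: the piecewise linear lower bounds hold for all gadgets
-/

set_option autoImplicit false

namespace Pool.Agent.Lib.H28P

section

variable {m₁ m₂ m₃ w₁ w₂ w₃ x₁ x₂ x₃ Z : ℝ}

theorem closure_sorted' {S : ℝ} (hS : m₁ + m₂ + m₃ = S) (h12 : m₂ ≤ m₁) (h23 : m₃ ≤ m₂)
    (h3 : 0 < m₃) (hS3 : 3 ≤ S) (hS9 : S ≤ 9)
    (W1 : WF m₁ w₁) (W2 : WF m₂ w₂) (W3 : WF m₃ w₃)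
    (X1 : XF m₁ x₁) (X2 : XF m₂ x₂)
    (hz : w₁ + w₂ + w₃ ≤ Z) (hz12 : x₁ + w₂ ≤ Z) (hz13 : x₁ + w₃ ≤ Z) (hz21 : x₂ + w₁ ≤ Z) :
    (S + 3) / 2 + D S / 20 ≤ Z := by
  subst hS
  exact closure_sorted h12 h23 h3 hS3 hS9 W1 W2 W3 X1 X2 hz hz12 hz13 hz21

theorem closure_unsorted (h1 : 0 < m₁) (h2 : 0 < m₂) (h3 : 0 < m₃)
    (hS3 : 3 ≤ m₁ + m₂ + m₃) (hS9 : m₁ + m₂ + m₃ ≤ 9)
    (W1 : WF m₁ w₁) (W2 : WF m₂ w₂) (W3 : WF m₃ w₃)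
    (X1 : XF m₁ x₁) (X2 : XF m₂ x₂) (X3 : XF m₃ x₃)
    (hz : w₁ + w₂ + w₃ ≤ Z) (hz12 : x₁ + w₂ ≤ Z) (hz13 : x₁ + w₃ ≤ Z) (hz21 : x₂ + w₁ ≤ Z)
    (hz23 : x₂ + w₃ ≤ Z) (hz31 : x₃ + w₁ ≤ Z) (hz32 : x₃ + w₂ ≤ Z) :
    (m₁ + m₂ + m₃ + 3) / 2 + D (m₁ + m₂ + m₃) / 20 ≤ Z := by
  rcases le_total m₂ m₁ with a | a
  · rcases le_total m₃ m₂ with b | b
    · exact closure_sorted' (by ring) a b h3 hS3 hS9 W1 W2 W3 X1 X2 hz hz12 hz13 hz21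
    · rcases le_total m₃ m₁ with c | c
      · exact closure_sorted' (by ring) c b h2 hS3 hS9 W1 W3 W2 X1 X3 (by linarith) hz13 hz12 hz31
      · exact closure_sorted' (by ring) c a h2 hS3 hS9 W3 W1 W2 X3 X1 (by linarith) hz31 hz32 hz13
  · rcases le_total m₃ m₁ with b | b
    · exact closure_sorted' (by ring) a b h3 hS3 hS9 W2 W1 W3 X2 X1 (by linarith) hz21 hz23 hz12
    · rcases le_total m₃ m₂ with c | c
      · exact closure_sorted' (by ring) c b h1 hS3 hS9 W2 W3 W1 X2 X3 (by linarith) hz23 hz21 hz32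
      · exact closure_sorted' (by ring) c a h1 hS3 hS9 W3 W2 W1 X3 X2 (by linarith) hz32 hz31 hz23

theorem XF_step (h1 : 0 < m₁) (h2 : 0 < m₂) (h3 : 0 < m₃)
    (W1 : WF m₁ w₁) (W2 : WF m₂ w₂) (W3 : WF m₃ w₃)
    (X1 : XF m₁ x₁) (X2 : XF m₂ x₂) (X3 : XF m₃ x₃)
    (hz : w₁ + w₂ + w₃ ≤ Z) (hz12 : x₁ + w₂ ≤ Z) (hz13 : x₁ + w₃ ≤ Z) (hz21 : x₂ + w₁ ≤ Z)
    (hz23 : x₂ + w₃ ≤ Z) (hz31 : x₃ + w₁ ≤ Z) (hz32 : x₃ + w₂ ≤ Z) :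
    XF (m₁ + m₂ + m₃) Z := by
  intro j hj3 hj9
  have p3 : (0 : ℝ) < 3 ^ j := by positivity
  have p2 : (0 : ℝ) < 2 ^ j := by positivity
  have e : (m₁ + m₂ + m₃) / 3 ^ j = m₁ / 3 ^ j + m₂ / 3 ^ j + m₃ / 3 ^ j := by ring
  rw [e] at hj3 hj9 ⊢
  have key : ∀ u v : ℝ, u + v ≤ Z → u / 2 ^ j + v / 2 ^ j ≤ Z / 2 ^ j := by
    intro u v h
    rw [← add_div]
    gcongr
  have key3 : w₁ / 2 ^ j + w₂ / 2 ^ j + w₃ / 2 ^ j ≤ Z / 2 ^ j := by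
    rw [← add_div, ← add_div]
    gcongr
  exact closure_unsorted (by positivity) (by positivity) (by positivity) hj3 hj9
    (W1.scale j) (W2.scale j) (W3.scale j) (X1.scale j) (X2.scale j) (X3.scale j) key3
    (key _ _ hz12) (key _ _ hz13) (key _ _ hz21) (key _ _ hz23) (key _ _ hz31) (key _ _ hz32)

end

theorem XF_leaf : XF 1 2 := by
  intro j h3 h9
  rcases le_or_gt 0 j with hj | hj
  · exfalso
    have : (1 : ℝ) ≤ 3 ^ j := one_le_zpow₀ (by norm_num) hj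
    have h4 : (1 : ℝ) / 3 ^ j ≤ 1 := by
      rw [div_le_one (by positivity)]; exact this
    linarith
  · obtain ⟨n, hn⟩ : ∃ n : ℕ, j = -((n : ℤ) + 1) := ⟨(-j - 1).toNat, by omega⟩
    subst hn
    have e3 : (3 : ℝ) ^ (-((n : ℤ) + 1)) = (3 ^ (n + 1))⁻¹ := by
      rw [zpow_neg]; norm_cast
    have e2 : (2 : ℝ) ^ (-((n : ℤ) + 1)) = (2 ^ (n + 1))⁻¹ := by
      rw [zpow_neg]; norm_cast
    rw [e3, div_inv_eq_mul, one_mul] at h3 h9 ⊢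
    rw [e2, div_inv_eq_mul]
    have hn2 : n < 2 := by
      by_contra hcon
      have h27 : (3 : ℝ) ^ 3 ≤ 3 ^ (n + 1) := pow_le_pow_right₀ (by norm_num) (by omega)
      norm_num at h27
      linarith
    interval_cases n
    · have := D_le_one ((3 : ℝ) ^ (0 + 1))
      norm_num at this ⊢
      linarith
    · have := D_le_one ((3 : ℝ) ^ (1 + 1))
      norm_num at this ⊢
      linarith

theorem R.pos {M w X : ℕ} (h : R M w X) : 1 ≤ M := by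
  induction h with
  | leaf => exact le_rfl
  | node M₁ M₂ M₃ w₁ w₂ w₃ X₁ X₂ X₃ _ _ _ i₁ i₂ i₃ => omega

theorem R.wf {M w X : ℕ} (h : R M w X) : WF (M : ℝ) (w : ℝ) := WF_of_le_a M w h.pos h.le_a

theorem R.xf {M w X : ℕ} (h : R M w X) : XF (M : ℝ) (X : ℝ) := by
  induction h with
  | leaf =>
    have := XF_leaf
    norm_num
    exact this
  | node M₁ M₂ M₃ w₁ w₂ w₃ X₁ X₂ X₃ h₁ h₂ h₃ i₁ i₂ i₃ =>
    push_cast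
    have p1 : (0 : ℝ) < M₁ := by exact_mod_cast h₁.pos
    have p2 : (0 : ℝ) < M₂ := by exact_mod_cast h₂.pos
    have p3 : (0 : ℝ) < M₃ := by exact_mod_cast h₃.pos
    refine XF_step p1 p2 p3 h₁.wf h₂.wf h₃.wf i₁ i₂ i₃ ?_ ?_ ?_ ?_ ?_ ?_ ?_ <;> norm_num

end Pool.Agent.Lib.H28P
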