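import Pool.Agent.Lib.H28P.N05

/-!
# N06: four gadgets, normalized and sorted: the setting and the range `5 ≤ N ≤ 7`
-/

set_option autoImplicit false

namespace Pool.Agent.Lib.H28P

/-- four gadgets in decreasing order, the largest at most half of the total -/
structure Cfg (m₁ m₂ m₃ m₄ w₁ w₂ w₃ w₄ x₁ x₂ x₃ x₄ y₁ N H : ℝ) : Prop where
  sum : m₁ + m₂ + m₃ + m₄ = 2 * N
  h12 : m₂ ≤ m₁
  h23 : m₃ ≤ m₂
  h34 : m₄ ≤ m₃
  pos : 0 < m₄
  hN : m₁ ≤ N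
  W1 : WF m₁ w₁
  W2 : WF m₂ w₂
  W3 : WF m₃ w₃
  W4 : WF m₄ w₄
  X1 : XF m₁ x₁
  X2 : XF m₂ x₂
  X3 : XF m₃ x₃
  X4 : XF m₄ x₄
  Y1 : XF (2 * N - m₁) y₁
  A1 : x₁ + w₂ + w₃ + w₄ ≤ H
  A2 : x₂ + w₁ + w₃ + w₄ ≤ H
  A3 : x₃ + w₁ + w₂ + w₄ ≤ H
  A4 : x₄ + w₁ + w₂ + w₃ ≤ H
  P123 : x₁ + x₂ + w₃ ≤ H
  P124 : x₁ + x₂ + w₄ ≤ H
  P132 : x₁ + x₃ + w₂ ≤ H
  P134 : x₁ + x₃ + w₄ ≤ H
  P142 : x₁ + x₄ + w₂ ≤ H
  P143 : x₁ + x₄ + w₃ ≤ H
  P231 : x₂ + x₃ + w₁ ≤ H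
  P234 : x₂ + x₃ + w₄ ≤ H
  T1 : x₁ + y₁ ≤ H

section

variable {m₁ m₂ m₃ m₄ w₁ w₂ w₃ w₄ x₁ x₂ x₃ x₄ y₁ N H : ℝ}

theorem Cfg.tri_D (c : Cfg m₁ m₂ m₃ m₄ w₁ w₂ w₃ w₄ x₁ x₂ x₃ x₄ y₁ N H)
    (h1 : 3 ≤ m₁) (h2 : 2 * N - m₁ ≤ 9) :
    N + 3 + (D m₁ + D (2 * N - m₁)) / 20 ≤ H := by
  have hN := c.hN
  have a := c.X1.x39 h1 (by linarith)
  have b := c.Y1.x39 (by linarith) h2
  have t := c.T1
  linarith

theorem Cfg.tri39 (c : Cfg m₁ m₂ m₃ m₄ w₁ w₂ w₃ w₄ x₁ x₂ x₃ x₄ y₁ N H)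
    (h1 : 3 ≤ m₁) (h2 : 2 * N - m₁ ≤ 9) : N + 3 ≤ H := by
  have := c.tri_D h1 h2
  have := D_nonneg m₁
  have := D_nonneg (2 * N - m₁)
  linarith

theorem Cfg.tri9 (c : Cfg m₁ m₂ m₃ m₄ w₁ w₂ w₃ w₄ x₁ x₂ x₃ x₄ y₁ N H)
    (h1 : 9 ≤ m₁) (h2 : 2 * N - m₁ ≤ 27) : 2 / 3 * N + 6 ≤ H := by
  have hN := c.hN
  have a := c.X1.x927 h1 (by linarith)
  have b := c.Y1.x927 (by linarith) h2
  have t := c.T1
  linarith

theorem Cfg.n57 (c : Cfg m₁ m₂ m₃ m₄ w₁ w₂ w₃ w₄ x₁ x₂ x₃ x₄ y₁ N H)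
    (h5 : 5 ≤ N) (h7 : N ≤ 7) : N + 3 ≤ H := by
  have sum := c.sum
  have h12 := c.h12
  have h23 := c.h23
  have h34 := c.h34
  have pos := c.pos
  have hN := c.hN
  rcases le_total 3 m₁ with a1 | a1
  · rcases le_total (2 * N - m₁) 9 with a2 | a2
    · exact c.tri39 a1 a2
    · have hx1 := c.X1.x39' a1 (by linarith)
      rcases le_total 1 m₄ with a4 | a4
      · have d2 := D_nonneg m₂
        have d3 := D_nonneg m₃
        have d4 := D_nonneg m₄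
        have hw2 := c.W2.bump (by linarith) (by linarith)
        have hw3 := c.W3.bump (by linarith) (by linarith)
        have hw4 := c.W4.bump (by linarith) (by linarith)
        have := c.A1
        linarith
      · have hx2 := c.X2.x39' (by linarith) (by linarith)
        have d3 := D_nonneg m₃
        have hw3 := c.W3.bump (by linarith) (by linarith)
        have := c.P123
        linarith
  · have hx1 := c.X1.x13 (by linarith) a1
    have hx2 := c.X2.x13 (by linarith) (by linarith)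
    have A1 := c.A1
    have A2 := c.A2
    rcases c.W1.q13 (by linarith) (by linarith) with b1 | b1 <;>
      rcases c.W2.q13 (by linarith) (by linarith) with b2 | b2 <;>
        rcases c.W3.q13 (by linarith) (by linarith) with b3 | b3 <;>
          rcases c.W4.q13 (by linarith) (by linarith) with b4 | b4 <;> linarith

theorem Cfg.n55 (c : Cfg m₁ m₂ m₃ m₄ w₁ w₂ w₃ w₄ x₁ x₂ x₃ x₄ y₁ N H)
    (h5 : 5 ≤ N) (h7 : N ≤ 5.5) : 1.01 * N + 2.95 ≤ H := by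
  have sum := c.sum
  have h12 := c.h12
  have h23 := c.h23
  have h34 := c.h34
  have pos := c.pos
  have hN := c.hN
  norm_num at h7
  rcases le_total 3 m₁ with a1 | a1
  · have t := c.tri_D a1 (by linarith)
    have hd : 2 * (N - 5) ≤ D m₁ + D (2 * N - m₁) := by
      apply D_add2
      intro n
      have e : m₁ + (2 * N - m₁) - 2 * (n : ℝ) = 2 * N - 2 * n := by ring
      rw [e]
      rcases le_or_gt n 5 with hn | hn
      · have : (n : ℝ) ≤ 5 := by exact_mod_cast hn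
        rw [abs_of_nonneg (by linarith)]
        linarith
      · have : (6 : ℝ) ≤ n := by exact_mod_cast hn
        rw [abs_of_nonpos (by linarith)]
        linarith
    norm_num
    linarith
  · have hx1 := c.X1.x13 (by linarith) a1
    have hx2 := c.X2.x13 (by linarith) (by linarith)
    have A1 := c.A1
    have A2 := c.A2
    have P123 := c.P123
    norm_num
    rcases c.W1.q13 (by linarith) (by linarith) with b1 | b1 <;>
      rcases c.W2.q13 (by linarith) (by linarith) with b2 | b2 <;>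
        rcases c.W3.q13 (by linarith) (by linarith) with b3 | b3 <;>
          rcases c.W4.q13 (by linarith) (by linarith) with b4 | b4 <;> linarith

end

end Pool.Agent.Lib.H28P
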