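import Pool.Agent.Lib.H28P.N06

/-!
# N07: four gadgets, normalized and sorted: the range `7 ≤ N ≤ 15`
-/

set_option autoImplicit false

namespace Pool.Agent.Lib.H28P

section

variable {m w x : ℝ}

/-- lines for `0 < m ≤ 9`, first form -/
theorem opt3 (h : WF m w) (hx : XF m x) (h9 : m ≤ 9) :
    (3 ≤ m ∧ (m + 1) / 2 ≤ w ∧ (m + 3) / 2 ≤ x) ∨ (3 ≤ m ∧ (m + 7) / 4 ≤ w ∧ (m + 3) / 2 ≤ x) ∨
      (1 ≤ m ∧ m ≤ 3 ∧ (m + 1) / 2 ≤ w ∧ (3 * m + 3) / 4 ≤ x) ∨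
      (1 / 3 ≤ m ∧ m ≤ 1 ∧ (3 * m + 1) / 4 ≤ w) ∨ (m ≤ 1 / 3 ∧ 3 / 2 * m ≤ w) := by
  rcases le_total 3 m with a | a
  · have b := hx.x39' a h9
    rcases h.q39 a h9 with c | c
    · exact Or.inl ⟨a, c, b⟩
    · exact Or.inr (Or.inl ⟨a, c, b⟩)
  · rcases le_total 1 m with a' | a'
    · exact Or.inr (Or.inr (Or.inl ⟨a', a, h.p13 a' a, hx.x13 a' a⟩))
    · rcases le_total (1 / 3) m with a'' | a''
      · exact Or.inr (Or.inr (Or.inr (Or.inl ⟨a'', a', h.p01 a'' a'⟩)))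
      · exact Or.inr (Or.inr (Or.inr (Or.inr ⟨a'', h.small a''⟩)))

/-- lines for `0 < m ≤ 9`, second form -/
theorem opt4 (h : WF m w) (hx : XF m x) (h9 : m ≤ 9) :
    (3 ≤ m ∧ (m + 1) / 2 ≤ w ∧ (m + 3) / 2 ≤ x) ∨ (3 ≤ m ∧ (m + 7) / 4 ≤ w ∧ (m + 3) / 2 ≤ x) ∨
      (1 ≤ m ∧ m ≤ 3 ∧ (3 * m + 1) / 4 ≤ w ∧ (3 * m + 3) / 4 ≤ x) ∨
      (1 ≤ m ∧ m ≤ 3 ∧ (3 * m + 7) / 8 ≤ w ∧ (3 * m + 3) / 4 ≤ x) ∨
      (1 / 3 ≤ m ∧ m ≤ 1 ∧ (3 * m + 1) / 4 ≤ w) ∨ (m ≤ 1 / 3 ∧ 3 / 2 * m ≤ w) := by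
  rcases le_total 3 m with a | a
  · have b := hx.x39' a h9
    rcases h.q39 a h9 with c | c
    · exact Or.inl ⟨a, c, b⟩
    · exact Or.inr (Or.inl ⟨a, c, b⟩)
  · rcases le_total 1 m with a' | a'
    · rcases h.q13 a' a with c | c
      · exact Or.inr (Or.inr (Or.inl ⟨a', a, c, hx.x13 a' a⟩))
      · exact Or.inr (Or.inr (Or.inr (Or.inl ⟨a', a, c, hx.x13 a' a⟩)))
    · rcases le_total (1 / 3) m with a'' | a''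
      · exact Or.inr (Or.inr (Or.inr (Or.inr (Or.inl ⟨a'', a', h.p01 a'' a'⟩))))
      · exact Or.inr (Or.inr (Or.inr (Or.inr (Or.inr ⟨a'', h.small a''⟩))))

end

section

variable {m₁ m₂ m₃ m₄ w₁ w₂ w₃ w₄ x₁ x₂ x₃ x₄ y₁ N H : ℝ}

theorem Cfg.n7a (c : Cfg m₁ m₂ m₃ m₄ w₁ w₂ w₃ w₄ x₁ x₂ x₃ x₄ y₁ N H)
    (h7 : 7 ≤ N) (h9 : N ≤ 9.75) : 5 / 6 * N + 4.1 ≤ H := by
  have sum := c.sum
  have h12 := c.h12
  have h23 := c.h23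
  have h34 := c.h34
  have pos := c.pos
  have hN := c.hN
  norm_num at h9
  norm_num
  rcases le_total 9 m₁ with a1 | a1
  · have := c.tri9 a1 (by linarith)
    linarith
  rcases le_total (2 * N - m₁) 9 with a2 | a2
  · have := c.tri39 (by linarith) a2
    linarith
  have hx1 := c.X1.x39' (by linarith) a1
  have hy1 := c.Y1.x927 a2 (by linarith)
  have T1 := c.T1
  have A1 := c.A1
  have P123 := c.P123
  have P124 := c.P124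
  have P132 := c.P132
  have A2 := c.A2
  rcases c.W2.q39 (by linarith) (by linarith) with b2 | b2 <;>
    have hx2 := c.X2.x39' (by linarith) (by linarith) <;>
    rcases opt3 c.W3 c.X3 (by linarith) with ⟨b3, b3', b3''⟩ | ⟨b3, b3', b3''⟩ | ⟨b3, b3', b3'', b3'''⟩ | ⟨b3, b3', b3''⟩ | ⟨b3, b3'⟩ <;>
      rcases opt4 c.W4 c.X4 (by linarith) with ⟨b4, b4', b4''⟩ | ⟨b4, b4', b4''⟩ | ⟨b4, b4', b4'', b4'''⟩ | ⟨b4, b4', b4'', b4'''⟩ | ⟨b4, b4', b4''⟩ | ⟨b4, b4'⟩ <;>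
        linarith

end

end Pool.Agent.Lib.H28P
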