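import Pool.Agent.Lib.H28P.N07

/-!
# N08: four gadgets, normalized and sorted: the range `9.75 ≤ N ≤ 12`
-/

set_option autoImplicit false

namespace Pool.Agent.Lib.H28P

section

variable {m₁ m₂ m₃ m₄ w₁ w₂ w₃ w₄ x₁ x₂ x₃ x₄ y₁ N H : ℝ}

theorem Cfg.n7b (c : Cfg m₁ m₂ m₃ m₄ w₁ w₂ w₃ w₄ x₁ x₂ x₃ x₄ y₁ N H)
    (h7 : 9.75 ≤ N) (h9 : N ≤ 12) : 0.75 * N + 4.91 ≤ H := by
  have sum := c.sum
  have h12 := c.h12
  have h23 := c.h23
  have h34 := c.h34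
  have pos := c.pos
  have hN := c.hN
  norm_num at h7
  norm_num
  rcases le_total 9 m₁ with a1 | a1
  · have := c.tri9 a1 (by linarith)
    linarith
  rcases le_total (2 * N - m₁) 9 with a2 | a2
  · have := c.tri39 (by linarith) a2
    linarith
  have hx1 := c.X1.x39' (by linarith) a1
  have hy1 := c.Y1.x927 a2 (by linarith)
  have T1 := c.T1
  have A1 := c.A1
  have P123 := c.P123
  have P124 := c.P124
  have P132 := c.P132
  have A2 := c.A2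
  rcases c.W2.q39 (by linarith) (by linarith) with b2 | b2 <;>
    have hx2 := c.X2.x39' (by linarith) (by linarith) <;>
    rcases opt3 c.W3 c.X3 (by linarith) with ⟨b3, b3', b3''⟩ | ⟨b3, b3', b3''⟩ | ⟨b3, b3', b3'', b3'''⟩ | ⟨b3, b3', b3''⟩ | ⟨b3, b3'⟩ <;>
      rcases opt4 c.W4 c.X4 (by linarith) with ⟨b4, b4', b4''⟩ | ⟨b4, b4', b4''⟩ | ⟨b4, b4', b4'', b4'''⟩ | ⟨b4, b4', b4'', b4'''⟩ | ⟨b4, b4', b4''⟩ | ⟨b4, b4'⟩ <;>
        linarith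

end

end Pool.Agent.Lib.H28P
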