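import Pool.Agent.Lib.H28P.N07

/-!
# N09: four gadgets, normalized and sorted: the range `12 ≤ N ≤ 15`
-/

set_option autoImplicit false

namespace Pool.Agent.Lib.H28P

section

variable {m₁ m₂ m₃ m₄ w₁ w₂ w₃ w₄ x₁ x₂ x₃ x₄ y₁ N H : ℝ}

theorem Cfg.n12 (c : Cfg m₁ m₂ m₃ m₄ w₁ w₂ w₃ w₄ x₁ x₂ x₃ x₄ y₁ N H)
    (h7 : 12 ≤ N) (h9 : N ≤ 15) : 2 / 3 * N + 6 ≤ H := by
  have sum := c.sum
  have h12 := c.h12
  have h23 := c.h23
  have h34 := c.h34
  have pos := c.pos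
  have hN := c.hN
  rcases le_total 9 m₁ with a1 | a1
  · exact c.tri9 a1 (by linarith)
  have hx1 := c.X1.x39' (by linarith) a1
  have hx2 := c.X2.x39' (by linarith) (by linarith)
  have hx3 := c.X3.x39' (by linarith) (by linarith)
  have hy1 := c.Y1.x927 (by linarith) (by linarith)
  have T1 := c.T1
  have A1 := c.A1
  have P123 := c.P123
  have P124 := c.P124
  have P132 := c.P132
  have A2 := c.A2
  rcases c.W2.l39 (by linarith) (by linarith) with b2 | b2 | b2 <;>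
    rcases c.W3.l39 (by linarith) (by linarith) with b3 | b3 | b3 <;>
      rcases opt4 c.W4 c.X4 (by linarith) with ⟨b4, b4', b4''⟩ | ⟨b4, b4', b4''⟩ | ⟨b4, b4', b4'', b4'''⟩ | ⟨b4, b4', b4'', b4'''⟩ | ⟨b4, b4', b4''⟩ | ⟨b4, b4'⟩ <;>
        linarith

end

end Pool.Agent.Lib.H28P
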