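import Pool.Agent.Lib.H28P.Poly

/-!
# N10: the power function `8 * (N / 5) ^ alpha` and piecewise linear functions
-/

set_option autoImplicit false

namespace Pool.Agent.Lib.H28P

theorem log3_pos : 0 < Real.log 3 := Real.log_pos (by norm_num)

theorem three_rpow_alpha : (3 : ℝ) ^ alpha = 2 := by
  rw [Real.rpow_def_of_pos (by norm_num), alpha, mul_div_cancel₀ _ log3_pos.ne']
  exact Real.exp_log (by norm_num)

theorem alpha_le : alpha ≤ 53 / 84 := by
  unfold alpha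
  rw [div_le_div_iff₀ log3_pos (by norm_num)]
  have h : Real.log ((2 : ℝ) ^ 84) ≤ Real.log ((3 : ℝ) ^ 53) :=
    Real.log_le_log (by positivity) (by norm_num)
  rw [Real.log_pow, Real.log_pow] at h
  push_cast at h
  linarith

theorem le_alpha : 41 / 65 ≤ alpha := by
  unfold alpha
  rw [div_le_div_iff₀ (by norm_num) log3_pos]
  have h : Real.log ((3 : ℝ) ^ 41) ≤ Real.log ((2 : ℝ) ^ 65) :=
    Real.log_le_log (by positivity) (by norm_num)
  rw [Real.log_pow, Real.log_pow] at h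
  push_cast at h
  linarith

theorem alpha_pos : 0 < alpha := by
  have := le_alpha
  linarith

/-- `8 * (N / 5) ^ alpha` -/
noncomputable def pw (N : ℝ) : ℝ := 8 * (N / 5) ^ alpha

theorem pw_nonneg {N : ℝ} (h : 0 ≤ N) : 0 ≤ pw N := by
  unfold pw; positivity

theorem pw_scale {N : ℝ} (h : 0 ≤ N) (k : ℤ) : pw (N * 3 ^ k) = pw N * 2 ^ k := by
  unfold pw
  have e : N * 3 ^ k / 5 = (N / 5) * 3 ^ k := by ring
  have e2 : ((3 : ℝ) ^ k) ^ alpha = 2 ^ k := by
    rw [← Real.rpow_intCast 3 k, ← Real.rpow_mul (by norm_num), mul_comm,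
      Real.rpow_mul (by norm_num), three_rpow_alpha, Real.rpow_intCast]
  rw [e, Real.mul_rpow (by positivity) (by positivity), e2]
  ring

theorem pw_tangent {N N₀ : ℝ} (h : 0 ≤ N) (h₀ : 0 < N₀) :
    pw N ≤ pw N₀ * (1 + alpha * ((N - N₀) / N₀)) := by
  unfold pw
  have e : N / 5 = (N₀ / 5) * (1 + (N - N₀) / N₀) := by field_simp; ring
  have hs : -1 ≤ (N - N₀) / N₀ := by
    rw [le_div_iff₀ h₀]; linarith
  rw [e, Real.mul_rpow (by positivity) (by linarith)]
  have hb := rpow_one_add_le_one_add_mul_self hs alpha_pos.le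
    (by have := alpha_le; linarith)
  have hp : 0 ≤ (N₀ / 5) ^ alpha := by positivity
  have := mul_le_mul_of_nonneg_left hb hp
  linarith

theorem pw_le_of_pow {N₀ P : ℝ} (h₀ : 5 ≤ N₀) (hP : 0 ≤ P)
    (h : (N₀ / 5) ^ 53 ≤ (P / 8) ^ 84) : pw N₀ ≤ P := by
  unfold pw
  have h1 : (1 : ℝ) ≤ N₀ / 5 := by rw [le_div_iff₀ (by norm_num)]; linarith
  have h2 : (N₀ / 5) ^ alpha ≤ (N₀ / 5) ^ ((53 : ℝ) / 84) :=
    Real.rpow_le_rpow_of_exponent_le h1 alpha_le
  have h3 : (N₀ / 5) ^ ((53 : ℝ) / 84) ≤ P / 8 := by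
    have e1 : (N₀ / 5) ^ ((53 : ℝ) / 84) = ((N₀ / 5) ^ 53) ^ ((1 : ℝ) / 84) := by
      rw [← Real.rpow_natCast, ← Real.rpow_mul (by positivity)]
      norm_num
    have e2 : P / 8 = ((P / 8) ^ 84) ^ ((1 : ℝ) / 84) := by
      rw [← Real.rpow_natCast, ← Real.rpow_mul (by positivity)]
      norm_num
    rw [e1, e2]
    exact Real.rpow_le_rpow (by positivity) h (by norm_num)
  linarith

theorem pw_five : pw 5 = 8 := by
  unfold pw; norm_num

theorem pw_fifteen : pw 15 = 16 := by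
  have := pw_scale (N := 5) (by norm_num) 1
  rw [pw_five] at this
  norm_num at this
  exact this

theorem pw_a {N : ℝ} (h : 5 ≤ N) : pw N ≤ 1.01 * N + 2.95 := by
  have t := pw_tangent (N := N) (N₀ := 5) (by linarith) (by norm_num)
  rw [pw_five] at t
  have a := alpha_le
  have : alpha * ((N - 5) / 5) ≤ 53 / 84 * ((N - 5) / 5) :=
    mul_le_mul_of_nonneg_right a (div_nonneg (by linarith) (by norm_num))
  norm_num
  linarith

/-- tangent bound to the right of `N₀` -/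
theorem pw_right {N N₀ P : ℝ} (h₀ : 0 < N₀) (h : N₀ ≤ N) (hP : pw N₀ ≤ P) :
    pw N ≤ P * (1 + 53 / 84 * ((N - N₀) / N₀)) := by
  have t := pw_tangent (N := N) (N₀ := N₀) (by linarith) h₀
  have hs : 0 ≤ (N - N₀) / N₀ := div_nonneg (by linarith) h₀.le
  have a := alpha_le
  have b := alpha_pos
  have h1 : alpha * ((N - N₀) / N₀) ≤ 53 / 84 * ((N - N₀) / N₀) :=
    mul_le_mul_of_nonneg_right a hs
  have h2 : 0 ≤ alpha * ((N - N₀) / N₀) := mul_nonneg b.le hs
  have h3 := pw_nonneg h₀.le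
  calc pw N ≤ pw N₀ * (1 + alpha * ((N - N₀) / N₀)) := t
    _ ≤ pw N₀ * (1 + 53 / 84 * ((N - N₀) / N₀)) :=
        mul_le_mul_of_nonneg_left (by linarith) h3
    _ ≤ P * (1 + 53 / 84 * ((N - N₀) / N₀)) :=
        mul_le_mul_of_nonneg_right hP (by linarith)

/-- tangent bound to the left of `N₀` -/
theorem pw_left {N N₀ P : ℝ} (hN : 0 ≤ N) (h₀ : 0 < N₀) (h : N ≤ N₀) (hP : pw N₀ ≤ P) :
    pw N ≤ P * (1 + 41 / 65 * ((N - N₀) / N₀)) := by
  have t := pw_tangent (N := N) (N₀ := N₀) hN h₀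
  have hs : (N - N₀) / N₀ ≤ 0 := div_nonpos_of_nonpos_of_nonneg (by linarith) h₀.le
  have hs' : -1 ≤ (N - N₀) / N₀ := by
    rw [le_div_iff₀ h₀]; linarith
  have a := le_alpha
  have h1 : alpha * ((N - N₀) / N₀) ≤ 41 / 65 * ((N - N₀) / N₀) :=
    mul_le_mul_of_nonpos_right a hs
  have h3 := pw_nonneg h₀.le
  calc pw N ≤ pw N₀ * (1 + alpha * ((N - N₀) / N₀)) := t
    _ ≤ pw N₀ * (1 + 41 / 65 * ((N - N₀) / N₀)) :=
        mul_le_mul_of_nonneg_left (by linarith) h3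
    _ ≤ P * (1 + 41 / 65 * ((N - N₀) / N₀)) :=
        mul_le_mul_of_nonneg_right hP (by linarith)

theorem pw_b {N : ℝ} (h : 5.5 ≤ N) : pw N ≤ N + 3 := by
  have hP : pw 5.5 ≤ 8.5 := pw_le_of_pow (by norm_num) (by norm_num) (by norm_num)
  have t := pw_right (by norm_num) h hP
  norm_num at t h
  linarith

theorem pw_c {N : ℝ} (h : 7 ≤ N) (h' : N ≤ 9.75) : pw N ≤ 5 / 6 * N + 4.1 := by
  have hP : pw 8.4 ≤ 11.0985 := pw_le_of_pow (by norm_num) (by norm_num) (by norm_num)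
  rcases le_total N 8.4 with c | c
  · have t := pw_left (by linarith) (by norm_num) c hP
    norm_num at t h h' ⊢
    linarith
  · have t := pw_right (by norm_num) c hP
    norm_num at t h h' ⊢
    linarith

theorem pw_d {N : ℝ} (h : 9.75 ≤ N) (h' : N ≤ 12) : pw N ≤ 0.75 * N + 4.91 := by
  have hP : pw 11.2 ≤ 13.308 := pw_le_of_pow (by norm_num) (by norm_num) (by norm_num)
  rcases le_total N 11.2 with c | c
  · have t := pw_left (by norm_num at h; linarith) (by norm_num) c hP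
    norm_num at t h h' ⊢
    linarith
  · have t := pw_right (by norm_num) c hP
    norm_num at t h h' ⊢
    linarith

theorem pw_e {N : ℝ} (h : 0 ≤ N) (h' : N ≤ 15) : pw N ≤ 2 / 3 * N + 6 := by
  have t := pw_left (N₀ := 15) h (by norm_num) h' pw_fifteen.le
  norm_num at t h h' ⊢
  linarith

end Pool.Agent.Lib.H28P
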