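import Pool.Agent.Lib.H28P.N08
import Pool.Agent.Lib.H28P.N09
import Pool.Agent.Lib.H28P.N10

/-!
# N11: the lower bound for four gadgets
-/

set_option autoImplicit false

namespace Pool.Agent.Lib.H28P

section

variable {m₁ m₂ m₃ m₄ w₁ w₂ w₃ w₄ x₁ x₂ x₃ x₄ y₁ N H : ℝ}

theorem Cfg.scale (c : Cfg m₁ m₂ m₃ m₄ w₁ w₂ w₃ w₄ x₁ x₂ x₃ x₄ y₁ N H) (k : ℤ) :
    Cfg (m₁ / 3 ^ k) (m₂ / 3 ^ k) (m₃ / 3 ^ k) (m₄ / 3 ^ k) (w₁ / 2 ^ k) (w₂ / 2 ^ k)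
      (w₃ / 2 ^ k) (w₄ / 2 ^ k) (x₁ / 2 ^ k) (x₂ / 2 ^ k) (x₃ / 2 ^ k) (x₄ / 2 ^ k)
      (y₁ / 2 ^ k) (N / 3 ^ k) (H / 2 ^ k) := by
  have p3 : (0 : ℝ) < 3 ^ k := by positivity
  have p2 : (0 : ℝ) < 2 ^ k := by positivity
  have key2 : ∀ u v : ℝ, u + v ≤ H → u / 2 ^ k + v / 2 ^ k ≤ H / 2 ^ k := by
    intro u v h
    rw [← add_div]
    gcongr
  have key3 : ∀ u v t : ℝ, u + v + t ≤ H → u / 2 ^ k + v / 2 ^ k + t / 2 ^ k ≤ H / 2 ^ k := by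
    intro u v t h
    rw [← add_div, ← add_div]
    gcongr
  have key4 : ∀ u v t s : ℝ, u + v + t + s ≤ H →
      u / 2 ^ k + v / 2 ^ k + t / 2 ^ k + s / 2 ^ k ≤ H / 2 ^ k := by
    intro u v t s h
    rw [← add_div, ← add_div, ← add_div]
    gcongr
  refine ⟨?_, ?_, ?_, ?_, ?_, ?_, c.W1.scale k, c.W2.scale k, c.W3.scale k, c.W4.scale k,
    c.X1.scale k, c.X2.scale k, c.X3.scale k, c.X4.scale k, ?_, key4 _ _ _ _ c.A1,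
    key4 _ _ _ _ c.A2, key4 _ _ _ _ c.A3, key4 _ _ _ _ c.A4, key3 _ _ _ c.P123,
    key3 _ _ _ c.P124, key3 _ _ _ c.P132, key3 _ _ _ c.P134, key3 _ _ _ c.P142,
    key3 _ _ _ c.P143, key3 _ _ _ c.P231, key3 _ _ _ c.P234, key2 _ _ c.T1⟩
  · rw [← add_div, ← add_div, ← add_div, c.sum, mul_div_assoc]
  · have := c.h12; gcongr
  · have := c.h23; gcongr
  · have := c.h34; gcongr
  · have := c.pos; positivity
  · have := c.hN; gcongr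
  · have e : 2 * (N / 3 ^ k) - m₁ / 3 ^ k = (2 * N - m₁) / 3 ^ k := by ring
    rw [e]
    exact c.Y1.scale k

theorem Cfg.lower_norm (c : Cfg m₁ m₂ m₃ m₄ w₁ w₂ w₃ w₄ x₁ x₂ x₃ x₄ y₁ N H)
    (h5 : 5 ≤ N) (h15 : N ≤ 15) : pw N ≤ H := by
  rcases le_total N 5.5 with a | a
  · exact (pw_a h5).trans (c.n55 h5 a)
  rcases le_total N 7 with b | b
  · exact (pw_b a).trans (c.n57 h5 b)
  rcases le_total N 9.75 with d | d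
  · exact (pw_c b d).trans (c.n7a b d)
  rcases le_total N 12 with e | e
  · exact (pw_d d e).trans (c.n7b d e)
  · exact (pw_e (by linarith) h15).trans (c.n12 e h15)

theorem Cfg.lower (c : Cfg m₁ m₂ m₃ m₄ w₁ w₂ w₃ w₄ x₁ x₂ x₃ x₄ y₁ N H) (hN : 0 < N) :
    pw N ≤ H := by
  obtain ⟨k, hk⟩ := exists_mem_Ico_zpow (x := N / 5) (y := (3 : ℝ)) (by positivity) (by norm_num)
  have p3 : (0 : ℝ) < 3 ^ k := by positivity
  have p2 : (0 : ℝ) < 2 ^ k := by positivity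
  obtain ⟨h1, h2⟩ := hk
  rw [zpow_add_one₀ (by norm_num)] at h2
  have h5 : 5 ≤ N / 3 ^ k := by
    rw [le_div_iff₀ p3]; linarith
  have h15 : N / 3 ^ k ≤ 15 := by
    rw [div_le_iff₀ p3]; linarith
  have h := (c.scale k).lower_norm h5 h15
  have e : N = N / 3 ^ k * 3 ^ k := by field_simp
  rw [e, pw_scale (by positivity)]
  rwa [← le_div_iff₀ p2]

theorem Cfg.exact (c : Cfg m₁ m₂ m₃ m₄ w₁ w₂ w₃ w₄ x₁ x₂ x₃ x₄ y₁ N H) (ν : ℝ) (h5 : 5 ≤ ν)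
    (h7 : ν ≤ 7) (k : ℕ) (hN : N = ν * 3 ^ k) : (ν + 3) * 2 ^ k ≤ H := by
  have p3 : (0 : ℝ) < 3 ^ k := by positivity
  have p2 : (0 : ℝ) < 2 ^ k := by positivity
  have h := (c.scale k).n57
  have e : N / (3 : ℝ) ^ (k : ℤ) = ν := by
    rw [hN, zpow_natCast]; field_simp
  rw [e, zpow_natCast] at h
  have := h h5 h7
  rwa [le_div_iff₀ p2] at this

end

/-- the numerical data of `Stacked.numeric` give a sorted configuration -/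
theorem exists_cfg (N H : ℕ) (M w X Y : Fin 4 → ℕ) (hsum : ∑ i, M i = 2 * N)
    (hM : ∀ i, M i ≤ N) (hR : ∀ i, R (M i) (w i) (X i))
    (hY : ∀ i, ∃ w', R (2 * N - M i) w' (Y i))
    (hA : ∀ i j k l : Fin 4, i ≠ j → i ≠ k → i ≠ l → j ≠ k → j ≠ l → k ≠ l →
        X i + w j + w k + w l ≤ H)
    (hP : ∀ i j k : Fin 4, i ≠ j → i ≠ k → j ≠ k → X i + X j + w k ≤ H)
    (hT : ∀ i, X i + Y i ≤ H) :
    ∃ m₁ m₂ m₃ m₄ w₁ w₂ w₃ w₄ x₁ x₂ x₃ x₄ y₁ : ℝ,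
      Cfg m₁ m₂ m₃ m₄ w₁ w₂ w₃ w₄ x₁ x₂ x₃ x₄ y₁ (N : ℝ) (H : ℝ) := by
  obtain ⟨σ, hσ⟩ : ∃ σ : Equiv.Perm (Fin 4), Antitone (M ∘ σ) := by
    refine ⟨Tuple.sort (fun i => OrderDual.toDual (M i)), ?_⟩
    have := Tuple.monotone_sort (fun i => OrderDual.toDual (M i))
    intro i j hij
    exact this hij
  have ne : ∀ i j : Fin 4, i ≠ j → σ i ≠ σ j := fun i j h h' => h (σ.injective h')
  have n01 : σ 0 ≠ σ 1 := ne _ _ (by decide)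
  have n02 : σ 0 ≠ σ 2 := ne _ _ (by decide)
  have n03 : σ 0 ≠ σ 3 := ne _ _ (by decide)
  have n12 : σ 1 ≠ σ 2 := ne _ _ (by decide)
  have n13 : σ 1 ≠ σ 3 := ne _ _ (by decide)
  have n23 : σ 2 ≠ σ 3 := ne _ _ (by decide)
  obtain ⟨w', hw'⟩ := hY (σ 0)
  refine ⟨M (σ 0), M (σ 1), M (σ 2), M (σ 3), w (σ 0), w (σ 1), w (σ 2), w (σ 3), X (σ 0),
    X (σ 1), X (σ 2), X (σ 3), Y (σ 0), ?_, ?_, ?_, ?_, ?_, ?_, (hR _).wf, (hR _).wf, (hR _).wf,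
    (hR _).wf, (hR _).xf, (hR _).xf, (hR _).xf, (hR _).xf, ?_, ?_, ?_, ?_, ?_, ?_, ?_, ?_, ?_,
    ?_, ?_, ?_, ?_, ?_⟩
  · have h := Equiv.sum_comp σ M
    rw [Fin.sum_univ_four, hsum] at h
    exact_mod_cast h
  · exact_mod_cast hσ (by decide : (0 : Fin 4) ≤ 1)
  · exact_mod_cast hσ (by decide : (1 : Fin 4) ≤ 2)
  · exact_mod_cast hσ (by decide : (2 : Fin 4) ≤ 3)
  · exact_mod_cast (hR (σ 3)).pos
  · exact_mod_cast hM (σ 0)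
  · have h := hw'.xf
    have hle := hM (σ 0)
    have e : ((2 * N - M (σ 0) : ℕ) : ℝ) = 2 * (N : ℝ) - M (σ 0) := by
      rw [Nat.cast_sub (by omega)]; push_cast; ring
    rwa [e] at h
  · exact_mod_cast hA (σ 0) (σ 1) (σ 2) (σ 3) n01 n02 n03 n12 n13 n23
  · exact_mod_cast hA (σ 1) (σ 0) (σ 2) (σ 3) n01.symm n12 n13 n02 n03 n23
  · exact_mod_cast hA (σ 2) (σ 0) (σ 1) (σ 3) n02.symm n12.symm n23 n01 n03 n13
  · exact_mod_cast hA (σ 3) (σ 0) (σ 1) (σ 2) n03.symm n13.symm n23.symm n01 n02 n12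
  · exact_mod_cast hP (σ 0) (σ 1) (σ 2) n01 n02 n12
  · exact_mod_cast hP (σ 0) (σ 1) (σ 3) n01 n03 n13
  · exact_mod_cast hP (σ 0) (σ 2) (σ 1) n02 n01 n12.symm
  · exact_mod_cast hP (σ 0) (σ 2) (σ 3) n02 n03 n23
  · exact_mod_cast hP (σ 0) (σ 3) (σ 1) n03 n01 n13.symm
  · exact_mod_cast hP (σ 0) (σ 3) (σ 2) n03 n02 n23.symm
  · exact_mod_cast hP (σ 1) (σ 2) (σ 0) n12 n01.symm n02.symm
  · exact_mod_cast hP (σ 1) (σ 2) (σ 3) n12 n13 n23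
  · exact_mod_cast hT (σ 0)

end Pool.Agent.Lib.H28P
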