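import Pool.Agent.Lib.H28P.N06

/-!
# N12: the bounds on small intervals
-/

set_option autoImplicit false

namespace Pool.Agent.Lib.H28P

theorem le_D_up (t : ℝ) (k : ℤ) (h1 : 2 * (k : ℝ) + 1 ≤ t) (h2 : t ≤ 2 * (k : ℝ) + 2) :
    t - (2 * k + 1) ≤ D t := by
  obtain ⟨n, hn⟩ := D_exists t
  rw [hn]
  rcases le_or_gt n k with h | h
  · have : (n : ℝ) ≤ k := by exact_mod_cast h
    rw [abs_of_nonneg (by linarith)]
    linarith
  · have : (k : ℝ) + 1 ≤ n := by exact_mod_cast h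
    rw [abs_of_nonpos (by linarith)]
    linarith

theorem le_D_down (t : ℝ) (k : ℤ) (h1 : 2 * (k : ℝ) ≤ t) (h2 : t ≤ 2 * (k : ℝ) + 1) :
    2 * k + 1 - t ≤ D t := by
  obtain ⟨n, hn⟩ := D_exists t
  rw [hn]
  rcases lt_or_ge n k with h | h
  · have : (n : ℝ) + 1 ≤ k := by exact_mod_cast h
    rw [abs_of_nonneg (by linarith)]
    linarith
  · have : (k : ℝ) ≤ n := by exact_mod_cast h
    rw [abs_of_nonpos (by linarith)]
    linarith

section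

variable {m w x : ℝ}

theorem cw_p0 (h : WF m w) (h1 : 1 ≤ m) (h2 : m ≤ 3) : (m + 1) / 2 ≤ w := h.p13 h1 h2

theorem cw_qa0 (h : WF m w) (h1 : 1 ≤ m) (h2 : m ≤ 5 / 3) : (3 * m + 1) / 4 ≤ w := by
  rcases h.q13 h1 (by linarith) with h4 | h4 <;> linarith

theorem cw_qb0 (h : WF m w) (h1 : 5 / 3 ≤ m) (h2 : m ≤ 3) : (3 * m + 7) / 8 ≤ w := by
  rcases h.q13 (by linarith) h2 with h4 | h4 <;> linarith

theorem cw_ta0 (h : WF m w) (h1 : 1 ≤ m) (h2 : m ≤ 11 / 9) : (9 * m - 1) / 8 ≤ w := by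
  rcases h.l13 h1 (by linarith) with h4 | h4 | h4 <;> linarith

theorem cw_tb0 (h : WF m w) (h1 : 11 / 9 ≤ m) (h2 : m ≤ 19 / 9) : (9 * m + 9) / 16 ≤ w := by
  rcases h.l13 (by linarith) (by linarith) with h4 | h4 | h4 <;> linarith

theorem cw_tc0 (h : WF m w) (h1 : 19 / 9 ≤ m) (h2 : m ≤ 3) : (9 * m + 37) / 32 ≤ w := by
  rcases h.l13 (by linarith) h2 with h4 | h4 | h4 <;> linarith

theorem cw_p1 (h : WF m w) (h1 : 3 ≤ m) (h2 : m ≤ 9) : m / 3 + 1 ≤ w := by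
  rcases h.q39 h1 h2 with h4 | h4 <;> linarith

theorem cw_qa1 (h : WF m w) (h1 : 3 ≤ m) (h2 : m ≤ 5) : (m + 1) / 2 ≤ w := by
  rcases h.q39 h1 (by linarith) with h4 | h4 <;> linarith

theorem cw_qb1 (h : WF m w) (h1 : 5 ≤ m) (h2 : m ≤ 9) : (m + 7) / 4 ≤ w := by
  rcases h.q39 (by linarith) h2 with h4 | h4 <;> linarith

theorem cw_ta1 (h : WF m w) (h1 : 3 ≤ m) (h2 : m ≤ 11 / 3) : (3 * m - 1) / 4 ≤ w := by
  rcases h.l39 h1 (by linarith) with h4 | h4 | h4 <;> linarith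

theorem cw_tb1 (h : WF m w) (h1 : 11 / 3 ≤ m) (h2 : m ≤ 19 / 3) : (3 * m + 9) / 8 ≤ w := by
  rcases h.l39 (by linarith) (by linarith) with h4 | h4 | h4 <;> linarith

theorem cw_tc1 (h : WF m w) (h1 : 19 / 3 ≤ m) (h2 : m ≤ 9) : (3 * m + 37) / 16 ≤ w := by
  rcases h.l39 (by linarith) h2 with h4 | h4 | h4 <;> linarith

theorem cw_pm (h : WF m w) (h1 : 1 / 3 ≤ m) (h2 : m ≤ 1) : (3 * m + 1) / 4 ≤ w := h.p01 h1 h2

theorem cw_qam (h : WF m w) (h1 : 1 / 3 ≤ m) (h2 : m ≤ 5 / 9) : (9 * m + 1) / 8 ≤ w := by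
  rcases h.q01 h1 (by linarith) with h4 | h4 <;> linarith

theorem cw_qbm (h : WF m w) (h1 : 5 / 9 ≤ m) (h2 : m ≤ 1) : (9 * m + 7) / 16 ≤ w := by
  rcases h.q01 (by linarith) h2 with h4 | h4 <;> linarith

theorem cw_tam (h : WF m w) (h1 : 1 / 3 ≤ m) (h2 : m ≤ 11 / 27) : (27 * m - 1) / 16 ≤ w := by
  rcases h.l01 h1 (by linarith) with h4 | h4 | h4 <;> linarith

theorem cw_tbm (h : WF m w) (h1 : 11 / 27 ≤ m) (h2 : m ≤ 19 / 27) : (27 * m + 9) / 32 ≤ w := by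
  rcases h.l01 (by linarith) (by linarith) with h4 | h4 | h4 <;> linarith

theorem cw_tcm (h : WF m w) (h1 : 19 / 27 ≤ m) (h2 : m ≤ 1) : (27 * m + 37) / 64 ≤ w := by
  rcases h.l01 (by linarith) h2 with h4 | h4 | h4 <;> linarith

theorem cw_small (h : WF m w) (_ : 0 ≤ m) (h2 : m ≤ 1 / 3) : 3 / 2 * m ≤ w := h.small h2

theorem cw_one (h : WF m w) (_ : 0 ≤ m) (h2 : m ≤ 1) : m ≤ w := h.le_one h2

theorem cx_x39 (h : XF m x) (h1 : 3 ≤ m) (h2 : m ≤ 9) : (m + 3) / 2 ≤ x := h.x39' h1 h2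

theorem cx_x13 (h : XF m x) (h1 : 1 ≤ m) (h2 : m ≤ 3) : (3 * m + 3) / 4 ≤ x := h.x13 h1 h2

theorem cx_xu3 (h : XF m x) (h1 : 3 ≤ m) (h2 : m ≤ 4) : (m + 3) / 2 + (m - 3) / 20 ≤ x := by
  have a := h.x39 (by linarith) (by linarith)
  have b := le_D_up m 1 (by norm_num; linarith) (by norm_num; linarith)
  norm_num at b
  linarith

theorem cx_xd4 (h : XF m x) (h1 : 4 ≤ m) (h2 : m ≤ 5) : (m + 3) / 2 + (5 - m) / 20 ≤ x := by
  have a := h.x39 (by linarith) (by linarith)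
  have b := le_D_down m 2 (by norm_num; linarith) (by norm_num; linarith)
  norm_num at b
  linarith

theorem cx_xu5 (h : XF m x) (h1 : 5 ≤ m) (h2 : m ≤ 6) : (m + 3) / 2 + (m - 5) / 20 ≤ x := by
  have a := h.x39 (by linarith) (by linarith)
  have b := le_D_up m 2 (by norm_num; linarith) (by norm_num; linarith)
  norm_num at b
  linarith

theorem cx_xd6 (h : XF m x) (h1 : 6 ≤ m) (h2 : m ≤ 7) : (m + 3) / 2 + (7 - m) / 20 ≤ x := by
  have a := h.x39 (by linarith) (by linarith)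
  have b := le_D_down m 3 (by norm_num; linarith) (by norm_num; linarith)
  norm_num at b
  linarith

theorem cx_xu7 (h : XF m x) (h1 : 7 ≤ m) (h2 : m ≤ 8) : (m + 3) / 2 + (m - 7) / 20 ≤ x := by
  have a := h.x39 (by linarith) (by linarith)
  have b := le_D_up m 3 (by norm_num; linarith) (by norm_num; linarith)
  norm_num at b
  linarith

theorem cx_xd8 (h : XF m x) (h1 : 8 ≤ m) (h2 : m ≤ 9) : (m + 3) / 2 + (9 - m) / 20 ≤ x := by
  have a := h.x39 (by linarith) (by linarith)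
  have b := le_D_down m 4 (by norm_num; linarith) (by norm_num; linarith)
  norm_num at b
  linarith

theorem cy_yb (h : XF m x) (h1 : 9 ≤ m) (h2 : m ≤ 12) : m / 3 + 3 + (m / 3 - 3) / 10 ≤ x := by
  have a := h 1
  rw [zpow_one, zpow_one] at a
  have a' := a (by linarith) (by linarith)
  have b := le_D_up (m / 3) 1 (by norm_num; linarith) (by norm_num; linarith)
  norm_num at b
  linarith

theorem cy_y (h : XF m x) (h1 : 9 ≤ m) (h2 : m ≤ 27) : m / 3 + 3 ≤ x := h.x927 h1 h2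

end

end Pool.Agent.Lib.H28P
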