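import Pool.Agent.Lib.H28P.N12

/-!
# N13: four gadgets with `N = 8`

Case distinction found by a linear programming search.
-/

set_option autoImplicit false

namespace Pool.Agent.Lib.H28P

variable {m₁ m₂ m₃ m₄ w₁ w₂ w₃ w₄ x₁ x₂ x₃ x₄ y₁ N H : ℝ}

theorem Cfg.n8 (c : Cfg m₁ m₂ m₃ m₄ w₁ w₂ w₃ w₄ x₁ x₂ x₃ x₄ y₁ N H) (h8 : N = 8) : 11 ≤ H := by
  have sum := c.sum
  have h12 := c.h12
  have h23 := c.h23
  have h34 := c.h34
  have l3 := c.pos.le
  subst h8
  rcases le_total 7 m₁ with u0 | u0
  · have := c.tri39 (by linarith) (by linarith)
    linarith
  by_contra hH
  rw [not_le] at hH
  have Y1 := c.Y1
  have l0 : 4 ≤ m₁ := by linarith
  have l1 : 3 ≤ m₂ := by linarith
  have l2 : 0 ≤ m₃ := by linarith
  have u1 : m₂ ≤ 7 := by linarith
  have u2 : m₃ ≤ 7 := by linarith
  have u3 : m₄ ≤ 4 := by linarith
  rcases le_total m₃ (1 / 3) with b1 | b1
  · linarith only [hH, sum, h34, u0, u1, b1]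
  · rcases le_total m₃ (11 / 27) with b2 | b2
    · linarith only [hH, sum, h34, u0, u1, b2]
    · rcases le_total m₃ (5 / 9) with b3 | b3
      · linarith only [hH, sum, h34, u0, u1, b3]
      · rcases le_total m₃ (19 / 27) with b4 | b4
        · linarith only [hH, sum, h34, u0, u1, b4]
        · rcases le_total m₃ 5 with b5 | b5
          · rcases le_total m₃ 1 with b6 | b6
            · linarith only [hH, sum, h34,
                (cx_x39 c.X1 (le_trans (by norm_num) l0) (le_trans u0 (by norm_num))), u1, b6,
                (cy_yb Y1 (by linarith only [u0]) (by linarith only [l0])), c.T1]
            · rcases le_total m₃ (11 / 9) with b7 | b7
              · linarith only [hH, sum, h34,
                  (cx_x39 c.X1 (le_trans (by norm_num) l0) (le_trans u0 (by norm_num))),
                  (cx_x39 c.X2 (le_trans (by norm_num) l1) (le_trans u1 (by norm_num))), b6,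
                  (cw_ta0 c.W3 (le_trans (by norm_num) b6) (le_trans b7 (by norm_num))), c.P123]
              · rcases le_total m₃ (4 / 3) with b8 | b8
                · rcases le_total m₂ 6 with b9 | b9
                  · linarith only [hH, sum, h34, u0, b9, b8]
                  · rcases le_total m₁ 6 with b10 | b10
                    · linarith only [hH, sum, h34, b10, u1, b8]
                    · linarith only [hH, sum, h34,
                        (cx_xd6 c.X1 (le_trans (by norm_num) b10) (le_trans u0 (by norm_num))),
                        (cx_xd6 c.X2 (le_trans (by norm_num) b9) (le_trans u1 (by norm_num))),
                        b8,
                        (cw_tb0 c.W3 (le_trans (by norm_num) b7) (le_trans b8 (by norm_num))),
                        c.P123]
                · rcases le_total m₁ (19 / 3) with b11 | b11
                  · rcases le_total m₁ 5 with b12 | b12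
                    · rcases le_total m₂ 6 with b13 | b13
                      · rcases le_total m₃ (7 / 3) with b14 | b14
                        · linarith only [hH, sum, h34, b12, b13, b14]
                        · rcases le_total m₃ (8 / 3) with b15 | b15
                          · linarith only [hH, sum, h12, h34, b12, b15]
                          · rcases le_total m₄ (1 / 3) with b16 | b16
                            · linarith only [hH, sum, h12, b12, b5, b16]
                            · rcases le_total m₄ (11 / 27) with b17 | b17
                              · linarith only [hH, sum, h12, b12, b5, b17]
                              · rcases le_total m₄ (19 / 27) with b18 | b18
                                · linarith only [hH, sum, h12, b12, b5, b18]
                                · rcases le_total m₂ (11 / 3) with b19 | b19
                                  · rcases le_total m₄ (4 / 3) with b20 | b20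
                                    · linarith only [hH, sum, b12, b19, b5, b20]
                                    · rcases le_total m₃ 4 with b21 | b21
                                      · rcases le_total m₄ (7 / 3) with b22 | b22
                                        · linarith only [hH, sum, b12, b19, b21, b22]
                                        · rcases le_total m₄ (8 / 3) with b23 | b23
                                          · linarith only [hH, sum, b12, b19, b21, b23]
                                          · rcases le_total m₃ 3 with b24 | b24
                                            · linarith only [hH, sum, b12, b19, b24, u3]
                                            · rcases le_total m₄ 3 with b25 | b25
                                              · linarith only [hH, sum, b12, b19, b21, b25]
                                              · linarith only [hH, sum, b12,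
                                                  (cw_tb1 c.W1 (le_trans (by norm_num) l0) (le_trans b12 (by norm_num))),
                                                  (cw_ta1 c.W2 (le_trans (by norm_num) l1) (le_trans b19 (by norm_num))),
                                                  b21,
                                                  (cw_qa1 c.W3 (le_trans (by norm_num) b24) (le_trans b21 (by norm_num))),
                                                  u3,
                                                  (cx_xu3 c.X4 (le_trans (by norm_num) b25) (le_trans u3 (by norm_num))),
                                                  c.A4]
                                      · linarith only [hH, h23, b19, b21]
                                  · rcases le_total m₄ 1 with b26 | b26
                                    · rcases le_total m₃ 3 with b27 | b27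
                                      · linarith only [hH, sum, b12, b13, b27, b26]
                                      · linarith only [hH, sum, b12,
                                          (cw_tb1 c.W1 (le_trans (by norm_num) l0) (le_trans b12 (by norm_num))),
                                          (cx_x39 c.X2 (le_trans (by norm_num) b19) (le_trans b13 (by norm_num))),
                                          (cx_x39 c.X3 (le_trans (by norm_num) b27) (le_trans b5 (by norm_num))),
                                          b26, c.P231]
                                    · rcases le_total m₂ 5 with b28 | b28
                                      · rcases le_total m₃ 3 with b29 | b29
                                        · rcases le_total m₄ 3 with b30 | b30
                                          · linarith only [hH, sum, b12,
                                              (cw_tb1 c.W1 (le_trans (by norm_num) l0) (le_trans b12 (by norm_num))),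
                                              b28,
                                              (cw_tb1 c.W2 (le_trans (by norm_num) b19) (le_trans b28 (by norm_num))),
                                              b29,
                                              (cw_tc0 c.W3 (le_trans (by norm_num) b15) (le_trans b29 (by norm_num))),
                                              (cx_x13 c.X4 (le_trans (by norm_num) b26) (le_trans b30 (by norm_num))),
                                              c.A4]
                                          · linarith only [hH, sum,
                                              (cw_tb1 c.W1 (le_trans (by norm_num) l0) (le_trans b12 (by norm_num))),
                                              (cw_tb1 c.W2 (le_trans (by norm_num) b19) (le_trans b28 (by norm_num))),
                                              b29,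
                                              (cw_tc0 c.W3 (le_trans (by norm_num) b15) (le_trans b29 (by norm_num))),
                                              b30,
                                              (cx_xu3 c.X4 (le_trans (by norm_num) b30) (le_trans u3 (by norm_num))),
                                              c.A4]
                                        · rcases le_total m₄ 3 with b31 | b31
                                          · linarith only [hH, sum, b12,
                                              (cw_tb1 c.W1 (le_trans (by norm_num) l0) (le_trans b12 (by norm_num))),
                                              b28,
                                              (cw_tb1 c.W2 (le_trans (by norm_num) b19) (le_trans b28 (by norm_num))),
                                              (cx_x39 c.X3 (le_trans (by norm_num) b29) (le_trans b5 (by norm_num))),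
                                              (cw_p0 c.W4 (le_trans (by norm_num) b26) (le_trans b31 (by norm_num))),
                                              c.A3]
                                          · linarith only [hH, sum,
                                              (cw_tb1 c.W1 (le_trans (by norm_num) l0) (le_trans b12 (by norm_num))),
                                              (cw_tb1 c.W2 (le_trans (by norm_num) b19) (le_trans b28 (by norm_num))),
                                              b29,
                                              (cw_qa1 c.W3 (le_trans (by norm_num) b29) (le_trans b5 (by norm_num))),
                                              b31,
                                              (cx_xu3 c.X4 (le_trans (by norm_num) b31) (le_trans u3 (by norm_num))),
                                              c.A4]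
                                      · rcases le_total m₄ (11 / 3) with b32 | b32
                                        · rcases le_total m₄ 3 with b33 | b33
                                          · rcases le_total m₃ 3 with b34 | b34
                                            · linarith only [hH, sum, h12, b12,
                                                (cw_tb1 c.W1 (le_trans (by norm_num) l0) (le_trans b12 (by norm_num))),
                                                (cw_tb1 c.W2 (le_trans (by norm_num) b28) (le_trans b13 (by norm_num))),
                                                b34,
                                                (cw_tc0 c.W3 (le_trans (by norm_num) b15) (le_trans b34 (by norm_num))),
                                                (cx_x13 c.X4 (le_trans (by norm_num) b26) (le_trans b33 (by norm_num))),
                                                c.A4]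
                                            · linarith only [hH, sum, h12, b12,
                                                (cw_tb1 c.W1 (le_trans (by norm_num) l0) (le_trans b12 (by norm_num))),
                                                (cw_tb1 c.W2 (le_trans (by norm_num) b28) (le_trans b13 (by norm_num))),
                                                (cx_x39 c.X3 (le_trans (by norm_num) b34) (le_trans b5 (by norm_num))),
                                                (cw_p0 c.W4 (le_trans (by norm_num) b26) (le_trans b33 (by norm_num))),
                                                c.A3]
                                          · rcases le_total m₃ 3 with b35 | b35
                                            · linarith only [hH, h12, h34,
                                                (cw_tb1 c.W1 (le_trans (by norm_num) l0) (le_trans b12 (by norm_num))),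
                                                b28,
                                                (cw_tb1 c.W2 (le_trans (by norm_num) b28) (le_trans b13 (by norm_num))),
                                                (cw_tc0 c.W3 (le_trans (by norm_num) b15) (le_trans b35 (by norm_num))),
                                                b33,
                                                (cx_xu3 c.X4 (le_trans (by norm_num) b33) (le_trans b32 (by norm_num))),
                                                c.A4]
                                            · linarith only [hH, h12,
                                                (cw_tb1 c.W1 (le_trans (by norm_num) l0) (le_trans b12 (by norm_num))),
                                                b28,
                                                (cw_tb1 c.W2 (le_trans (by norm_num) b28) (le_trans b13 (by norm_num))),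
                                                b35,
                                                (cw_qa1 c.W3 (le_trans (by norm_num) b35) (le_trans b5 (by norm_num))),
                                                b33,
                                                (cx_xu3 c.X4 (le_trans (by norm_num) b33) (le_trans b32 (by norm_num))),
                                                c.A4]
                                        · linarith only [hH, sum, h34, l0, b28, b32]
                      · linarith only [hH, h12, b12, b13]
                    · rcases le_total m₁ 6 with b36 | b36
                      · rcases le_total m₂ (19 / 3) with b37 | b37
                        · rcases le_total m₃ (5 / 3) with b38 | b38
                          · linarith only [hH, sum, h34, b36, b37, b38]
                          · rcases le_total m₃ 2 with b39 | b39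
                            · rcases le_total m₂ (11 / 3) with b40 | b40
                              · linarith only [hH, sum, b36, b40, b39, u3]
                              · rcases le_total m₄ 1 with b41 | b41
                                · linarith only [hH, sum, b36, b37, b39, b41]
                                · rcases le_total m₄ (19 / 9) with b42 | b42
                                  · linarith only [hH, sum, b36,
                                      (cw_tb1 c.W1 (le_trans (by norm_num) b12) (le_trans b36 (by norm_num))),
                                      (cx_x39 c.X2 (le_trans (by norm_num) b40) (le_trans b37 (by norm_num))),
                                      b38,
                                      (cw_tb0 c.W3 (le_trans (by norm_num) b38) (le_trans b39 (by norm_num))),
                                      (cw_p0 c.W4 (le_trans (by norm_num) b41) (le_trans b42 (by norm_num))),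
                                      c.A2]
                                  · linarith only [hH, h34, b39, b42]
                            · rcases le_total m₂ 6 with b43 | b43
                              · rcases le_total m₃ (19 / 9) with b44 | b44
                                · rcases le_total m₄ (4 / 3) with b45 | b45
                                  · linarith only [hH, sum, b36, b43, b44, b45]
                                  · rcases le_total m₄ (7 / 3) with b46 | b46
                                    · linarith only [hH, sum, b36,
                                        (cw_tb1 c.W1 (le_trans (by norm_num) b12) (le_trans b36 (by norm_num))),
                                        (cx_x39 c.X2 (le_trans (by norm_num) l1) (le_trans b43 (by norm_num))),
                                        b39,
                                        (cw_tb0 c.W3 (le_trans (by norm_num) b39) (le_trans b44 (by norm_num))),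
                                        (cw_p0 c.W4 (le_trans (by norm_num) b45) (le_trans b46 (by norm_num))),
                                        c.A2]
                                    · linarith only [hH, h34, b44, b46]
                                · rcases le_total m₃ (7 / 3) with b47 | b47
                                  · rcases le_total m₄ (1 / 3) with b48 | b48
                                    · linarith only [hH, sum, b36, b43, b47, b48]
                                    · rcases le_total m₄ (8 / 3) with b49 | b49
                                      · rcases le_total m₄ 1 with b50 | b50
                                        · linarith only [hH, sum, b36, b43, b47, b50]
                                        · linarith only [hH, sum, b36,
                                            (cw_tb1 c.W1 (le_trans (by norm_num) b12) (le_trans b36 (by norm_num))),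
                                            (cx_x39 c.X2 (le_trans (by norm_num) l1) (le_trans b43 (by norm_num))),
                                            b47,
                                            (cw_tc0 c.W3 (le_trans (by norm_num) b44) (le_trans b47 (by norm_num))),
                                            (cw_p0 c.W4 (le_trans (by norm_num) b50) (le_trans b49 (by norm_num))),
                                            c.A2]
                                      · linarith only [hH, h34, b47, b49]
                                  · rcases le_total m₃ (8 / 3) with b51 | b51
                                    · rcases le_total m₂ (11 / 3) with b52 | b52
                                      · linarith only [hH, sum, h34, b36, b52, b51]
                                      · rcases le_total m₄ (1 / 3) with b53 | b53
                                        · linarith only [hH, sum, b36, b43, b51, b53]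
                                        · rcases le_total m₄ (11 / 27) with b54 | b54
                                          · linarith only [hH, sum, b36, b43, b51, b54]
                                          · rcases le_total m₄ (19 / 27) with b55 | b55
                                            · linarith only [hH, sum, b36, b43, b51, b55]
                                            · rcases le_total m₄ (11 / 9) with b56 | b56
                                              · linarith only [hH, sum, b36, b43, b51, b56]
                                              · rcases le_total m₄ 3 with b57 | b57
                                                · rcases le_total m₄ (5 / 3) with b58 | b58
                                                  · linarith only [hH, sum, b36,
                                                      (cw_tb1 c.W1 (le_trans (by norm_num) b12) (le_trans b36 (by norm_num))),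
                                                      (cx_x39 c.X2 (le_trans (by norm_num) b52) (le_trans b43 (by norm_num))),
                                                      b51,
                                                      (cw_tc0 c.W3 (le_trans (by norm_num) b47) (le_trans b51 (by norm_num))),
                                                      b56,
                                                      (cw_tb0 c.W4 (le_trans (by norm_num) b56) (le_trans b58 (by norm_num))),
                                                      c.A2]
                                                  · linarith only [hH, sum, b12,
                                                      (cx_xu5 c.X1 (le_trans (by norm_num) b12) (le_trans b36 (by norm_num))),
                                                      (cw_tb1 c.W2 (le_trans (by norm_num) b52) (le_trans b43 (by norm_num))),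
                                                      b51,
                                                      (cw_tc0 c.W3 (le_trans (by norm_num) b47) (le_trans b51 (by norm_num))),
                                                      (cw_qb0 c.W4 (le_trans (by norm_num) b58) (le_trans b57 (by norm_num))),
                                                      c.A1]
                                                · linarith only [hH, h34, b51, b57]
                                    · rcases le_total m₄ (1 / 3) with b59 | b59
                                      · rcases le_total m₃ 3 with b60 | b60
                                        · linarith only [hH, sum, b36, b43, b60, b59]
                                        · linarith only [hH, sum, b36,
                                            (cw_tb1 c.W1 (le_trans (by norm_num) b12) (le_trans b36 (by norm_num))),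
                                            (cx_x39 c.X2 (le_trans (by norm_num) l1) (le_trans b43 (by norm_num))),
                                            (cx_x39 c.X3 (le_trans (by norm_num) b60) (le_trans b5 (by norm_num))),
                                            b59, c.P231]
                                      · rcases le_total m₄ (11 / 27) with b61 | b61
                                        · rcases le_total m₃ 3 with b62 | b62
                                          · linarith only [hH, sum, b36, b43, b62, b61]
                                          · linarith only [hH, sum, b36,
                                              (cw_tb1 c.W1 (le_trans (by norm_num) b12) (le_trans b36 (by norm_num))),
                                              (cx_x39 c.X2 (le_trans (by norm_num) l1) (le_trans b43 (by norm_num))),
                                              (cx_x39 c.X3 (le_trans (by norm_num) b62) (le_trans b5 (by norm_num))),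
                                              b61, c.P231]
                                        · rcases le_total m₄ (5 / 9) with b63 | b63
                                          · rcases le_total m₃ 3 with b64 | b64
                                            · linarith only [hH, sum, b36, b43, b64, b63]
                                            · linarith only [hH, sum, b36,
                                                (cw_tb1 c.W1 (le_trans (by norm_num) b12) (le_trans b36 (by norm_num))),
                                                (cx_x39 c.X2 (le_trans (by norm_num) l1) (le_trans b43 (by norm_num))),
                                                (cx_x39 c.X3 (le_trans (by norm_num) b64) (le_trans b5 (by norm_num))),
                                                b63, c.P231]
                                          · rcases le_total m₄ (19 / 27) with b65 | b65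
                                            · rcases le_total m₃ 3 with b66 | b66
                                              · linarith only [hH, sum, b36, b43, b66, b65]
                                              · linarith only [hH, sum, b36,
                                                  (cw_tb1 c.W1 (le_trans (by norm_num) b12) (le_trans b36 (by norm_num))),
                                                  (cx_x39 c.X2 (le_trans (by norm_num) l1) (le_trans b43 (by norm_num))),
                                                  (cx_x39 c.X3 (le_trans (by norm_num) b66) (le_trans b5 (by norm_num))),
                                                  b65, c.P231]
                                            · rcases le_total m₄ (11 / 3) with b67 | b67
                                              · rcases le_total m₄ 3 with b68 | b68
                                                · rcases le_total m₂ (11 / 3) with b69 | b69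
                                                  · rcases le_total m₃ 4 with b70 | b70
                                                    · rcases le_total m₄ (5 / 3) with b71 | b71
                                                      · linarith only [hH, sum, b36, b69, b70,
                                                          b71]
                                                      · rcases le_total m₃ 3 with b72 | b72
                                                        · linarith only [hH, sum, b36, b69, b72,
                                                            b68]
                                                        · linarith only [hH, sum, h23, b36,
                                                            (cw_tb1 c.W1 (le_trans (by norm_num) b12) (le_trans b36 (by norm_num))),
                                                            (cw_ta1 c.W2 (le_trans (by norm_num) l1) (le_trans b69 (by norm_num))),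
                                                            (cx_xu3 c.X3 (le_trans (by norm_num) b72) (le_trans b70 (by norm_num))),
                                                            b68,
                                                            (cw_qb0 c.W4 (le_trans (by norm_num) b71) (le_trans b68 (by norm_num))),
                                                            c.A3]
                                                    · linarith only [hH, h23, b69, b70]
                                                  · rcases le_total m₃ (11 / 3) with b73 | b73
                                                    · rcases le_total m₄ 1 with b74 | b74
                                                      · rcases le_total m₃ 3 with b75 | b75
                                                        · linarith only [hH, sum,
                                                            (cx_xu5 c.X1 (le_trans (by norm_num) b12) (le_trans b36 (by norm_num))),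
                                                            b43,
                                                            (cx_x39 c.X2 (le_trans (by norm_num) b69) (le_trans b43 (by norm_num))),
                                                            b75,
                                                            (cw_tc0 c.W3 (le_trans (by norm_num) b51) (le_trans b75 (by norm_num))),
                                                            b74, c.P123]
                                                        · linarith only [hH, sum,
                                                            (cx_xu5 c.X1 (le_trans (by norm_num) b12) (le_trans b36 (by norm_num))),
                                                            b43,
                                                            (cx_x39 c.X2 (le_trans (by norm_num) b69) (le_trans b43 (by norm_num))),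
                                                            b75,
                                                            (cw_ta1 c.W3 (le_trans (by norm_num) b75) (le_trans b73 (by norm_num))),
                                                            b74, c.P123]
                                                      · rcases le_total m₃ 3 with b76 | b76
                                                        · rcases le_total m₄ (5 / 3) with b77 | b77
                                                          · rcases le_total m₄ (11 / 9) with b78 | b78
                                                            · rcases le_total m₂ 5 with b79 | b79
                                                              · linarith only [hH, sum, b36, b79,
                                                                  b76, b78]
                                                              · linarith only [hH, sum, b36,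
                                                                  (cw_tb1 c.W1 (le_trans (by norm_num) b12) (le_trans b36 (by norm_num))),
                                                                  (cx_xu5 c.X1 (le_trans (by norm_num) b12) (le_trans b36 (by norm_num))),
                                                                  (cx_xu5 c.X2 (le_trans (by norm_num) b79) (le_trans b43 (by norm_num))),
                                                                  b76,
                                                                  (cw_tc0 c.W3 (le_trans (by norm_num) b51) (le_trans b76 (by norm_num))),
                                                                  (cw_ta0 c.W4 (le_trans (by norm_num) b74) (le_trans b78 (by norm_num))),
                                                                  c.A2, c.P123]
                                                            · linarith only [hH, sum, b36,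
                                                                (cw_tb1 c.W1 (le_trans (by norm_num) b12) (le_trans b36 (by norm_num))),
                                                                (cx_x39 c.X2 (le_trans (by norm_num) b69) (le_trans b43 (by norm_num))),
                                                                b76,
                                                                (cw_tc0 c.W3 (le_trans (by norm_num) b51) (le_trans b76 (by norm_num))),
                                                                b78,
                                                                (cw_tb0 c.W4 (le_trans (by norm_num) b78) (le_trans b77 (by norm_num))),
                                                                c.A2]
                                                          · linarith only [hH, sum, b12,
                                                              (cx_xu5 c.X1 (le_trans (by norm_num) b12) (le_trans b36 (by norm_num))),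
                                                              (cw_tb1 c.W2 (le_trans (by norm_num) b69) (le_trans b43 (by norm_num))),
                                                              b76,
                                                              (cw_tc0 c.W3 (le_trans (by norm_num) b51) (le_trans b76 (by norm_num))),
                                                              (cw_qb0 c.W4 (le_trans (by norm_num) b77) (le_trans b68 (by norm_num))),
                                                              c.A1]
                                                        · rcases le_total m₄ (5 / 3) with b80 | b80
                                                          · rcases le_total m₄ (11 / 9) with b81 | b81
                                                            · rcases le_total m₂ 5 with b82 | b82
                                                              · linarith only [hH, sum, b36, b82,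
                                                                  b73, b81]
                                                              · linarith only [hH, sum, b36,
                                                                  (cw_tb1 c.W1 (le_trans (by norm_num) b12) (le_trans b36 (by norm_num))),
                                                                  (cx_xu5 c.X1 (le_trans (by norm_num) b12) (le_trans b36 (by norm_num))),
                                                                  (cx_xu5 c.X2 (le_trans (by norm_num) b82) (le_trans b43 (by norm_num))),
                                                                  b76,
                                                                  (cw_ta1 c.W3 (le_trans (by norm_num) b76) (le_trans b73 (by norm_num))),
                                                                  (cw_ta0 c.W4 (le_trans (by norm_num) b74) (le_trans b81 (by norm_num))),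
                                                                  c.A2, c.P123]
                                                            · linarith only [hH, sum, b36,
                                                                (cw_tb1 c.W1 (le_trans (by norm_num) b12) (le_trans b36 (by norm_num))),
                                                                (cx_x39 c.X2 (le_trans (by norm_num) b69) (le_trans b43 (by norm_num))),
                                                                b76,
                                                                (cw_ta1 c.W3 (le_trans (by norm_num) b76) (le_trans b73 (by norm_num))),
                                                                b81,
                                                                (cw_tb0 c.W4 (le_trans (by norm_num) b81) (le_trans b80 (by norm_num))),
                                                                c.A2]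
                                                          · linarith only [hH, sum,
                                                              (cw_tb1 c.W1 (le_trans (by norm_num) b12) (le_trans b36 (by norm_num))),
                                                              (cw_tb1 c.W2 (le_trans (by norm_num) b69) (le_trans b43 (by norm_num))),
                                                              b76,
                                                              (cx_xu3 c.X3 (le_trans (by norm_num) b76) (le_trans b73 (by norm_num))),
                                                              (cw_qb0 c.W4 (le_trans (by norm_num) b80) (le_trans b68 (by norm_num))),
                                                              c.A3]
                                                    · rcases le_total m₄ 1 with b83 | b83
                                                      · linarith only [hH, sum, b12,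
                                                          (cx_xu5 c.X1 (le_trans (by norm_num) b12) (le_trans b36 (by norm_num))),
                                                          (cx_x39 c.X2 (le_trans (by norm_num) b69) (le_trans b43 (by norm_num))),
                                                          b5,
                                                          (cw_tb1 c.W3 (le_trans (by norm_num) b73) (le_trans b5 (by norm_num))),
                                                          b83, c.P123]
                                                      · linarith only [hH, sum, b12,
                                                          (cx_xu5 c.X1 (le_trans (by norm_num) b12) (le_trans b36 (by norm_num))),
                                                          (cw_tb1 c.W2 (le_trans (by norm_num) b69) (le_trans b43 (by norm_num))),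
                                                          (cw_tb1 c.W3 (le_trans (by norm_num) b73) (le_trans b5 (by norm_num))),
                                                          b83,
                                                          (cw_p0 c.W4 (le_trans (by norm_num) b83) (le_trans b68 (by norm_num))),
                                                          c.A1]
                                                · rcases le_total m₃ 3 with b84 | b84
                                                  · rcases le_total m₂ (11 / 3) with b85 | b85
                                                    · linarith only [hH, sum, h34, b36, b85, b84]
                                                    · linarith only [hH, sum,
                                                        (cw_tb1 c.W1 (le_trans (by norm_num) b12) (le_trans b36 (by norm_num))),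
                                                        (cw_tb1 c.W2 (le_trans (by norm_num) b85) (le_trans b43 (by norm_num))),
                                                        b84,
                                                        (cw_tc0 c.W3 (le_trans (by norm_num) b51) (le_trans b84 (by norm_num))),
                                                        b68,
                                                        (cx_xu3 c.X4 (le_trans (by norm_num) b68) (le_trans b67 (by norm_num))),
                                                        c.A4]
                                                  · rcases le_total m₂ (11 / 3) with b86 | b86
                                                    · linarith only [hH, sum, h23, b36,
                                                        (cw_tb1 c.W1 (le_trans (by norm_num) b12) (le_trans b36 (by norm_num))),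
                                                        (cw_ta1 c.W2 (le_trans (by norm_num) l1) (le_trans b86 (by norm_num))),
                                                        (cx_x39 c.X3 (le_trans (by norm_num) b84) (le_trans b5 (by norm_num))),
                                                        b68,
                                                        (cw_ta1 c.W4 (le_trans (by norm_num) b68) (le_trans b67 (by norm_num))),
                                                        c.A3]
                                                    · linarith only [hH, sum,
                                                        (cw_tb1 c.W1 (le_trans (by norm_num) b12) (le_trans b36 (by norm_num))),
                                                        (cw_tb1 c.W2 (le_trans (by norm_num) b86) (le_trans b43 (by norm_num))),
                                                        b84,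
                                                        (cw_qa1 c.W3 (le_trans (by norm_num) b84) (le_trans b5 (by norm_num))),
                                                        b68,
                                                        (cx_xu3 c.X4 (le_trans (by norm_num) b68) (le_trans b67 (by norm_num))),
                                                        c.A4]
                                              · rcases le_total m₃ 3 with b87 | b87
                                                · linarith only [hH, h34, b87, b67]
                                                · linarith only [hH, h23, h34, b12,
                                                    (cw_tb1 c.W1 (le_trans (by norm_num) b12) (le_trans b36 (by norm_num))),
                                                    (cw_p1 c.W2 (le_trans (by norm_num) l1) (le_trans b43 (by norm_num))),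
                                                    (cx_x39 c.X3 (le_trans (by norm_num) b87) (le_trans b5 (by norm_num))),
                                                    b67,
                                                    (cw_tb1 c.W4 (le_trans (by norm_num) b67) (le_trans u3 (by norm_num))),
                                                    c.A3]
                              · rcases le_total m₃ 4 with b88 | b88
                                · rcases le_total m₄ 3 with b89 | b89
                                  · rcases le_total m₃ (11 / 3) with b90 | b90
                                    · rcases le_total m₄ (7 / 3) with b91 | b91
                                      · rcases le_total m₃ 3 with b92 | b92
                                        · rcases le_total m₄ 1 with b93 | b93
                                          · linarith only [hH, sum,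
                                              (cx_xu5 c.X1 (le_trans (by norm_num) b12) (le_trans b36 (by norm_num))),
                                              b37,
                                              (cx_xd6 c.X2 (le_trans (by norm_num) b43) (le_trans b37 (by norm_num))),
                                              b92,
                                              (cw_qb0 c.W3 (le_trans (by norm_num) b39) (le_trans b92 (by norm_num))),
                                              b93, c.P123]
                                          · rcases le_total m₃ (19 / 9) with b94 | b94
                                            · linarith only [hH, sum, b36,
                                                (cw_tb1 c.W1 (le_trans (by norm_num) b12) (le_trans b36 (by norm_num))),
                                                (cx_xd6 c.X2 (le_trans (by norm_num) b43) (le_trans b37 (by norm_num))),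
                                                b39,
                                                (cw_tb0 c.W3 (le_trans (by norm_num) b39) (le_trans b94 (by norm_num))),
                                                b93,
                                                (cw_p0 c.W4 (le_trans (by norm_num) b93) (le_trans b91 (by norm_num))),
                                                c.A2]
                                            · linarith only [hH, sum, h12,
                                                (cw_tb1 c.W1 (le_trans (by norm_num) b12) (le_trans b36 (by norm_num))),
                                                (cx_xu5 c.X1 (le_trans (by norm_num) b12) (le_trans b36 (by norm_num))),
                                                b43,
                                                (cx_xd6 c.X2 (le_trans (by norm_num) b43) (le_trans b37 (by norm_num))),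
                                                (cw_tc0 c.W3 (le_trans (by norm_num) b94) (le_trans b92 (by norm_num))),
                                                (cw_p0 c.W4 (le_trans (by norm_num) b93) (le_trans b91 (by norm_num))),
                                                c.A2, c.P123]
                                        · linarith only [hH, h12,
                                            (cx_xu5 c.X1 (le_trans (by norm_num) b12) (le_trans b36 (by norm_num))),
                                            b43,
                                            (cx_xd6 c.X2 (le_trans (by norm_num) b43) (le_trans b37 (by norm_num))),
                                            b92,
                                            (cw_ta1 c.W3 (le_trans (by norm_num) b92) (le_trans b90 (by norm_num))),
                                            c.P123]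
                                      · linarith only [hH, sum, h12, b43, b39, b91]
                                    · linarith only [hH, h12,
                                        (cw_tb1 c.W1 (le_trans (by norm_num) b12) (le_trans b36 (by norm_num))),
                                        b43,
                                        (cx_xd6 c.X2 (le_trans (by norm_num) b43) (le_trans b37 (by norm_num))),
                                        b90,
                                        (cx_xu3 c.X3 (le_trans (by norm_num) b90) (le_trans b88 (by norm_num))),
                                        c.P231]
                                  · linarith only [hH, sum, h34, b12, b43, b89]
                                · linarith only [hH, b12,
                                    (cw_tb1 c.W1 (le_trans (by norm_num) b12) (le_trans b36 (by norm_num))),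
                                    b43,
                                    (cx_xd6 c.X2 (le_trans (by norm_num) b43) (le_trans b37 (by norm_num))),
                                    b88,
                                    (cx_xd4 c.X3 (le_trans (by norm_num) b88) (le_trans b5 (by norm_num))),
                                    c.P231]
                        · linarith only [hH, h12, b36, b37]
                      · rcases le_total m₄ (11 / 3) with b95 | b95
                        · rcases le_total m₃ (5 / 3) with b96 | b96
                          · rcases le_total m₄ (19 / 27) with b97 | b97
                            · linarith only [hH, sum, b11, u1, b96, b97]
                            · rcases le_total m₄ 2 with b98 | b98
                              · rcases le_total m₄ 1 with b99 | b99
                                · linarith only [hH, sum, h12, b11, b96, b99]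
                                · linarith only [hH, sum, h12, h34, b11,
                                    (cw_tb1 c.W1 (le_trans (by norm_num) b36) (le_trans b11 (by norm_num))),
                                    (cx_x39 c.X2 (le_trans (by norm_num) l1) (le_trans u1 (by norm_num))),
                                    (cw_tb0 c.W3 (le_trans (by norm_num) b8) (le_trans b96 (by norm_num))),
                                    (cw_p0 c.W4 (le_trans (by norm_num) b99) (le_trans b98 (by norm_num))),
                                    c.A2]
                              · linarith only [hH, h34, b96, b98]
                          · rcases le_total m₂ (19 / 3) with b100 | b100
                            · rcases le_total m₄ 3 with b101 | b101
                              · rcases le_total m₃ 3 with b102 | b102
                                · rcases le_total m₄ (19 / 27) with b103 | b103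
                                  · linarith only [hH, sum,
                                      (cx_xd6 c.X1 (le_trans (by norm_num) b36) (le_trans b11 (by norm_num))),
                                      (cx_x39 c.X2 (le_trans (by norm_num) l1) (le_trans b100 (by norm_num))),
                                      b102,
                                      (cw_qb0 c.W3 (le_trans (by norm_num) b96) (le_trans b102 (by norm_num))),
                                      b103,
                                      (cy_yb Y1 (by linarith only [b11]) (by linarith only [b36])),
                                      c.T1, c.P123]
                                  · rcases le_total m₄ 1 with b104 | b104
                                    · linarith only [hH, sum,
                                        (cx_xd6 c.X1 (le_trans (by norm_num) b36) (le_trans b11 (by norm_num))),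
                                        (cx_x39 c.X2 (le_trans (by norm_num) l1) (le_trans b100 (by norm_num))),
                                        b102,
                                        (cw_qb0 c.W3 (le_trans (by norm_num) b96) (le_trans b102 (by norm_num))),
                                        b104,
                                        (cy_yb Y1 (by linarith only [b11]) (by linarith only [b36])),
                                        c.T1, c.P123]
                                    · rcases le_total m₂ 4 with b105 | b105
                                      · linarith only [hH, sum,
                                          (cx_xd6 c.X1 (le_trans (by norm_num) b36) (le_trans b11 (by norm_num))),
                                          (cw_qa1 c.W2 (le_trans (by norm_num) l1) (le_trans b105 (by norm_num))),
                                          b102,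
                                          (cw_qb0 c.W3 (le_trans (by norm_num) b96) (le_trans b102 (by norm_num))),
                                          (cw_p0 c.W4 (le_trans (by norm_num) b104) (le_trans b101 (by norm_num))),
                                          (cy_yb Y1 (by linarith only [b11]) (by linarith only [b36])),
                                          c.T1, c.A1]
                                      · rcases le_total m₄ (5 / 3) with b106 | b106
                                        · rcases le_total m₄ (11 / 9) with b107 | b107
                                          · linarith only [hH, sum,
                                              (cx_xd6 c.X1 (le_trans (by norm_num) b36) (le_trans b11 (by norm_num))),
                                              (cw_tb1 c.W2 (le_trans (by norm_num) b105) (le_trans b100 (by norm_num))),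
                                              (cx_x39 c.X2 (le_trans (by norm_num) b105) (le_trans b100 (by norm_num))),
                                              b102,
                                              (cw_qb0 c.W3 (le_trans (by norm_num) b96) (le_trans b102 (by norm_num))),
                                              (cw_ta0 c.W4 (le_trans (by norm_num) b104) (le_trans b107 (by norm_num))),
                                              c.A1, c.P123]
                                          · linarith only [hH, sum,
                                              (cx_xd6 c.X1 (le_trans (by norm_num) b36) (le_trans b11 (by norm_num))),
                                              b100,
                                              (cw_tb1 c.W2 (le_trans (by norm_num) b105) (le_trans b100 (by norm_num))),
                                              b102,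
                                              (cw_qb0 c.W3 (le_trans (by norm_num) b96) (le_trans b102 (by norm_num))),
                                              b107,
                                              (cw_tb0 c.W4 (le_trans (by norm_num) b107) (le_trans b106 (by norm_num))),
                                              c.A1]
                                        · linarith only [hH, sum,
                                            (cx_xd6 c.X1 (le_trans (by norm_num) b36) (le_trans b11 (by norm_num))),
                                            b100,
                                            (cw_tb1 c.W2 (le_trans (by norm_num) b105) (le_trans b100 (by norm_num))),
                                            b102,
                                            (cw_qb0 c.W3 (le_trans (by norm_num) b96) (le_trans b102 (by norm_num))),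
                                            b101,
                                            (cw_qb0 c.W4 (le_trans (by norm_num) b106) (le_trans b101 (by norm_num))),
                                            c.A1]
                                · rcases le_total m₄ 1 with b108 | b108
                                  · linarith only [hH, sum,
                                      (cx_xd6 c.X1 (le_trans (by norm_num) b36) (le_trans b11 (by norm_num))),
                                      (cx_x39 c.X2 (le_trans (by norm_num) l1) (le_trans b100 (by norm_num))),
                                      (cw_qa1 c.W3 (le_trans (by norm_num) b102) (le_trans b5 (by norm_num))),
                                      b108,
                                      (cy_yb Y1 (by linarith only [b11]) (by linarith only [b36])),
                                      c.T1, c.P123]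
                                  · rcases le_total m₂ (11 / 3) with b109 | b109
                                    · linarith only [hH, sum,
                                        (cx_xd6 c.X1 (le_trans (by norm_num) b36) (le_trans b11 (by norm_num))),
                                        l1,
                                        (cw_ta1 c.W2 (le_trans (by norm_num) l1) (le_trans b109 (by norm_num))),
                                        (cw_qa1 c.W3 (le_trans (by norm_num) b102) (le_trans b5 (by norm_num))),
                                        (cw_p0 c.W4 (le_trans (by norm_num) b108) (le_trans b101 (by norm_num))),
                                        (cy_yb Y1 (by linarith only [b11]) (by linarith only [b36])),
                                        c.T1, c.A1]
                                    · rcases le_total m₄ (5 / 3) with b110 | b110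
                                      · rcases le_total m₄ (11 / 9) with b111 | b111
                                        · linarith only [hH, sum,
                                            (cx_xd6 c.X1 (le_trans (by norm_num) b36) (le_trans b11 (by norm_num))),
                                            (cw_tb1 c.W2 (le_trans (by norm_num) b109) (le_trans b100 (by norm_num))),
                                            (cx_x39 c.X2 (le_trans (by norm_num) b109) (le_trans b100 (by norm_num))),
                                            b102,
                                            (cw_qa1 c.W3 (le_trans (by norm_num) b102) (le_trans b5 (by norm_num))),
                                            (cw_ta0 c.W4 (le_trans (by norm_num) b108) (le_trans b111 (by norm_num))),
                                            c.A1, c.P123]
                                        · linarith only [hH, sum,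
                                            (cx_xd6 c.X1 (le_trans (by norm_num) b36) (le_trans b11 (by norm_num))),
                                            b100,
                                            (cw_tb1 c.W2 (le_trans (by norm_num) b109) (le_trans b100 (by norm_num))),
                                            b102,
                                            (cw_qa1 c.W3 (le_trans (by norm_num) b102) (le_trans b5 (by norm_num))),
                                            b111,
                                            (cw_tb0 c.W4 (le_trans (by norm_num) b111) (le_trans b110 (by norm_num))),
                                            c.A1]
                                      · linarith only [hH, sum,
                                          (cw_tb1 c.W1 (le_trans (by norm_num) b36) (le_trans b11 (by norm_num))),
                                          (cw_tb1 c.W2 (le_trans (by norm_num) b109) (le_trans b100 (by norm_num))),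
                                          b102,
                                          (cx_x39 c.X3 (le_trans (by norm_num) b102) (le_trans b5 (by norm_num))),
                                          (cw_qb0 c.W4 (le_trans (by norm_num) b110) (le_trans b101 (by norm_num))),
                                          c.A3]
                              · rcases le_total m₂ 5 with b112 | b112
                                · rcases le_total m₃ 3 with b113 | b113
                                  · linarith only [hH, sum,
                                      (cx_xd6 c.X1 (le_trans (by norm_num) b36) (le_trans b11 (by norm_num))),
                                      (cw_qa1 c.W2 (le_trans (by norm_num) l1) (le_trans b112 (by norm_num))),
                                      b113,
                                      (cw_qb0 c.W3 (le_trans (by norm_num) b96) (le_trans b113 (by norm_num))),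
                                      b101,
                                      (cw_ta1 c.W4 (le_trans (by norm_num) b101) (le_trans b95 (by norm_num))),
                                      (cy_yb Y1 (by linarith only [b11]) (by linarith only [b36])),
                                      c.T1, c.A1]
                                  · linarith only [hH, sum,
                                      (cx_xd6 c.X1 (le_trans (by norm_num) b36) (le_trans b11 (by norm_num))),
                                      (cw_qa1 c.W2 (le_trans (by norm_num) l1) (le_trans b112 (by norm_num))),
                                      (cw_qa1 c.W3 (le_trans (by norm_num) b113) (le_trans b5 (by norm_num))),
                                      b101,
                                      (cw_ta1 c.W4 (le_trans (by norm_num) b101) (le_trans b95 (by norm_num))),
                                      (cy_yb Y1 (by linarith only [b11]) (by linarith only [b36])),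
                                      c.T1, c.A1]
                                · linarith only [hH, sum, h34, b36, b112, b101]
                            · rcases le_total m₃ (11 / 3) with b114 | b114
                              · rcases le_total m₄ (19 / 9) with b115 | b115
                                · rcases le_total m₃ 3 with b116 | b116
                                  · rcases le_total m₄ 1 with b117 | b117
                                    · linarith only [hH, sum,
                                        (cx_xd6 c.X1 (le_trans (by norm_num) b36) (le_trans b11 (by norm_num))),
                                        (cx_xd6 c.X2 (le_trans (by norm_num) b100) (le_trans u1 (by norm_num))),
                                        b116,
                                        (cw_qb0 c.W3 (le_trans (by norm_num) b96) (le_trans b116 (by norm_num))),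
                                        b117, c.P123]
                                    · linarith only [hH, sum, h12,
                                        (cw_tb1 c.W1 (le_trans (by norm_num) b36) (le_trans b11 (by norm_num))),
                                        (cx_xd6 c.X1 (le_trans (by norm_num) b36) (le_trans b11 (by norm_num))),
                                        b100,
                                        (cx_xd6 c.X2 (le_trans (by norm_num) b100) (le_trans u1 (by norm_num))),
                                        (cw_qb0 c.W3 (le_trans (by norm_num) b96) (le_trans b116 (by norm_num))),
                                        (cw_p0 c.W4 (le_trans (by norm_num) b117) (le_trans b115 (by norm_num))),
                                        c.A2, c.P123]
                                  · linarith only [hH, b36,
                                      (cw_tb1 c.W1 (le_trans (by norm_num) b36) (le_trans b11 (by norm_num))),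
                                      b100,
                                      (cx_xd6 c.X2 (le_trans (by norm_num) b100) (le_trans u1 (by norm_num))),
                                      b116,
                                      (cx_xu3 c.X3 (le_trans (by norm_num) b116) (le_trans b114 (by norm_num))),
                                      c.P231]
                                · linarith only [hH, sum, b36, b100, b96, b115]
                              · linarith only [hH, b36,
                                  (cw_tb1 c.W1 (le_trans (by norm_num) b36) (le_trans b11 (by norm_num))),
                                  b100,
                                  (cx_xd6 c.X2 (le_trans (by norm_num) b100) (le_trans u1 (by norm_num))),
                                  b114,
                                  (cx_x39 c.X3 (le_trans (by norm_num) b114) (le_trans b5 (by norm_num))),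
                                  c.P231]
                        · linarith only [hH, sum, h34, b36, l1, b95]
                  · rcases le_total m₄ (11 / 3) with b118 | b118
                    · rcases le_total m₄ 3 with b119 | b119
                      · rcases le_total m₃ 3 with b120 | b120
                        · rcases le_total m₄ (19 / 27) with b121 | b121
                          · linarith only [hH, sum,
                              (cx_xd6 c.X1 (le_trans (by norm_num) b11) (le_trans u0 (by norm_num))),
                              (cx_x39 c.X2 (le_trans (by norm_num) l1) (le_trans u1 (by norm_num))),
                              (cw_p0 c.W3 (le_trans (by norm_num) b8) (le_trans b120 (by norm_num))),
                              b121, (cy_yb Y1 (by linarith only [u0]) (by linarith only [b11])),
                              c.T1, c.P123]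
                          · rcases le_total m₄ 1 with b122 | b122
                            · linarith only [hH, sum,
                                (cx_xd6 c.X1 (le_trans (by norm_num) b11) (le_trans u0 (by norm_num))),
                                (cx_x39 c.X2 (le_trans (by norm_num) l1) (le_trans u1 (by norm_num))),
                                (cw_p0 c.W3 (le_trans (by norm_num) b8) (le_trans b120 (by norm_num))),
                                b122,
                                (cy_yb Y1 (by linarith only [u0]) (by linarith only [b11])),
                                c.T1, c.P123]
                            · rcases le_total m₂ 4 with b123 | b123
                              · linarith only [hH, sum,
                                  (cx_xd6 c.X1 (le_trans (by norm_num) b11) (le_trans u0 (by norm_num))),
                                  (cw_qa1 c.W2 (le_trans (by norm_num) l1) (le_trans b123 (by norm_num))),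
                                  (cw_p0 c.W3 (le_trans (by norm_num) b8) (le_trans b120 (by norm_num))),
                                  (cw_p0 c.W4 (le_trans (by norm_num) b122) (le_trans b119 (by norm_num))),
                                  (cy_yb Y1 (by linarith only [u0]) (by linarith only [b11])),
                                  c.T1, c.A1]
                              · rcases le_total m₂ 5 with b124 | b124
                                · linarith only [hH, sum,
                                    (cx_xd6 c.X1 (le_trans (by norm_num) b11) (le_trans u0 (by norm_num))),
                                    b124,
                                    (cw_tb1 c.W2 (le_trans (by norm_num) b123) (le_trans b124 (by norm_num))),
                                    (cw_p0 c.W3 (le_trans (by norm_num) b8) (le_trans b120 (by norm_num))),
                                    (cw_p0 c.W4 (le_trans (by norm_num) b122) (le_trans b119 (by norm_num))),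
                                    (cy_yb Y1 (by linarith only [u0]) (by linarith only [b11])),
                                    c.T1, c.A1]
                                · rcases le_total m₄ (19 / 9) with b125 | b125
                                  · rcases le_total m₄ 2 with b126 | b126
                                    · rcases le_total m₄ (5 / 3) with b127 | b127
                                      · rcases le_total m₃ (19 / 9) with b128 | b128
                                        · rcases le_total m₂ (19 / 3) with b129 | b129
                                          · linarith only [hH, sum,
                                              (cx_xd6 c.X1 (le_trans (by norm_num) b11) (le_trans u0 (by norm_num))),
                                              b129,
                                              (cw_tb1 c.W2 (le_trans (by norm_num) b124) (le_trans b129 (by norm_num))),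
                                              (cw_tb0 c.W3 (le_trans (by norm_num) b8) (le_trans b128 (by norm_num))),
                                              b122,
                                              (cw_qa0 c.W4 (le_trans (by norm_num) b122) (le_trans b127 (by norm_num))),
                                              (cy_yb Y1 (by linarith only [u0]) (by linarith only [b11])),
                                              c.T1, c.A1]
                                          · linarith only [hH, sum, h12, h34,
                                              (cx_xd6 c.X1 (le_trans (by norm_num) b11) (le_trans u0 (by norm_num))),
                                              (cw_tc1 c.W2 (le_trans (by norm_num) b129) (le_trans u1 (by norm_num))),
                                              (cx_xd6 c.X2 (le_trans (by norm_num) b129) (le_trans u1 (by norm_num))),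
                                              (cw_tb0 c.W3 (le_trans (by norm_num) b8) (le_trans b128 (by norm_num))),
                                              (cw_qa0 c.W4 (le_trans (by norm_num) b122) (le_trans b127 (by norm_num))),
                                              c.A1, c.P123]
                                        · rcases le_total m₂ 6 with b130 | b130
                                          · rcases le_total m₄ (11 / 9) with b131 | b131
                                            · linarith only [hH, sum,
                                                (cx_xd6 c.X1 (le_trans (by norm_num) b11) (le_trans u0 (by norm_num))),
                                                (cw_tb1 c.W2 (le_trans (by norm_num) b124) (le_trans b130 (by norm_num))),
                                                (cx_xu5 c.X2 (le_trans (by norm_num) b124) (le_trans b130 (by norm_num))),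
                                                b120,
                                                (cw_tc0 c.W3 (le_trans (by norm_num) b128) (le_trans b120 (by norm_num))),
                                                (cw_ta0 c.W4 (le_trans (by norm_num) b122) (le_trans b131 (by norm_num))),
                                                (cy_yb Y1 (by linarith only [u0]) (by linarith only [b11])),
                                                c.T1, c.A1, c.P123]
                                            · linarith only [hH, sum,
                                                (cx_xd6 c.X1 (le_trans (by norm_num) b11) (le_trans u0 (by norm_num))),
                                                b130,
                                                (cw_tb1 c.W2 (le_trans (by norm_num) b124) (le_trans b130 (by norm_num))),
                                                b120,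
                                                (cw_tc0 c.W3 (le_trans (by norm_num) b128) (le_trans b120 (by norm_num))),
                                                b131,
                                                (cw_tb0 c.W4 (le_trans (by norm_num) b131) (le_trans b127 (by norm_num))),
                                                c.A1]
                                          · linarith only [hH, b11,
                                              (cx_xd6 c.X1 (le_trans (by norm_num) b11) (le_trans u0 (by norm_num))),
                                              b130,
                                              (cx_xd6 c.X2 (le_trans (by norm_num) b130) (le_trans u1 (by norm_num))),
                                              b128,
                                              (cw_tc0 c.W3 (le_trans (by norm_num) b128) (le_trans b120 (by norm_num))),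
                                              c.P123]
                                      · rcases le_total m₂ (19 / 3) with b132 | b132
                                        · linarith only [hH, sum,
                                            (cx_xd6 c.X1 (le_trans (by norm_num) b11) (le_trans u0 (by norm_num))),
                                            b132,
                                            (cw_tb1 c.W2 (le_trans (by norm_num) b124) (le_trans b132 (by norm_num))),
                                            (cw_p0 c.W3 (le_trans (by norm_num) b8) (le_trans b120 (by norm_num))),
                                            b127,
                                            (cw_tb0 c.W4 (le_trans (by norm_num) b127) (le_trans b126 (by norm_num))),
                                            (cy_yb Y1 (by linarith only [u0]) (by linarith only [b11])),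
                                            c.T1, c.A1]
                                        · linarith only [hH, h34, b11,
                                            (cw_tc1 c.W1 (le_trans (by norm_num) b11) (le_trans u0 (by norm_num))),
                                            b132,
                                            (cx_xd6 c.X2 (le_trans (by norm_num) b132) (le_trans u1 (by norm_num))),
                                            (cw_p0 c.W3 (le_trans (by norm_num) b8) (le_trans b120 (by norm_num))),
                                            b127,
                                            (cw_tb0 c.W4 (le_trans (by norm_num) b127) (le_trans b126 (by norm_num))),
                                            c.A2]
                                    · linarith only [hH, sum, h34, b11,
                                        (cx_xd6 c.X1 (le_trans (by norm_num) b11) (le_trans u0 (by norm_num))),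
                                        (cw_qb1 c.W2 (le_trans (by norm_num) b124) (le_trans u1 (by norm_num))),
                                        (cw_p0 c.W3 (le_trans (by norm_num) b8) (le_trans b120 (by norm_num))),
                                        b126,
                                        (cw_tb0 c.W4 (le_trans (by norm_num) b126) (le_trans b125 (by norm_num))),
                                        c.A1]
                                  · linarith only [hH, h34, b11,
                                      (cx_xd6 c.X1 (le_trans (by norm_num) b11) (le_trans u0 (by norm_num))),
                                      b124,
                                      (cw_qb1 c.W2 (le_trans (by norm_num) b124) (le_trans u1 (by norm_num))),
                                      (cw_p0 c.W3 (le_trans (by norm_num) b8) (le_trans b120 (by norm_num))),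
                                      b125,
                                      (cw_tc0 c.W4 (le_trans (by norm_num) b125) (le_trans b119 (by norm_num))),
                                      c.A1]
                        · rcases le_total m₄ (5 / 9) with b133 | b133
                          · linarith only [hH, sum,
                              (cx_xd6 c.X1 (le_trans (by norm_num) b11) (le_trans u0 (by norm_num))),
                              (cx_x39 c.X2 (le_trans (by norm_num) l1) (le_trans u1 (by norm_num))),
                              (cw_qa1 c.W3 (le_trans (by norm_num) b120) (le_trans b5 (by norm_num))),
                              b133, (cy_yb Y1 (by linarith only [u0]) (by linarith only [b11])),
                              c.T1, c.P123]
                          · rcases le_total m₂ 6 with b134 | b134
                            · rcases le_total m₄ (19 / 27) with b135 | b135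
                              · linarith only [hH, sum,
                                  (cx_xd6 c.X1 (le_trans (by norm_num) b11) (le_trans u0 (by norm_num))),
                                  (cx_x39 c.X2 (le_trans (by norm_num) l1) (le_trans b134 (by norm_num))),
                                  (cw_qa1 c.W3 (le_trans (by norm_num) b120) (le_trans b5 (by norm_num))),
                                  b135,
                                  (cy_yb Y1 (by linarith only [u0]) (by linarith only [b11])),
                                  c.T1, c.P123]
                              · rcases le_total m₄ 1 with b136 | b136
                                · linarith only [hH, sum,
                                    (cx_xd6 c.X1 (le_trans (by norm_num) b11) (le_trans u0 (by norm_num))),
                                    (cx_x39 c.X2 (le_trans (by norm_num) l1) (le_trans b134 (by norm_num))),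
                                    (cw_qa1 c.W3 (le_trans (by norm_num) b120) (le_trans b5 (by norm_num))),
                                    b136,
                                    (cy_yb Y1 (by linarith only [u0]) (by linarith only [b11])),
                                    c.T1, c.P123]
                                · rcases le_total m₂ 5 with b137 | b137
                                  · linarith only [hH, sum,
                                      (cx_xd6 c.X1 (le_trans (by norm_num) b11) (le_trans u0 (by norm_num))),
                                      (cw_qa1 c.W2 (le_trans (by norm_num) l1) (le_trans b137 (by norm_num))),
                                      (cw_qa1 c.W3 (le_trans (by norm_num) b120) (le_trans b5 (by norm_num))),
                                      (cw_p0 c.W4 (le_trans (by norm_num) b136) (le_trans b119 (by norm_num))),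
                                      (cy_yb Y1 (by linarith only [u0]) (by linarith only [b11])),
                                      c.T1, c.A1]
                                  · rcases le_total m₄ (5 / 3) with b138 | b138
                                    · rcases le_total m₄ (11 / 9) with b139 | b139
                                      · linarith only [hH, sum,
                                          (cx_xd6 c.X1 (le_trans (by norm_num) b11) (le_trans u0 (by norm_num))),
                                          (cw_tb1 c.W2 (le_trans (by norm_num) b137) (le_trans b134 (by norm_num))),
                                          (cx_xu5 c.X2 (le_trans (by norm_num) b137) (le_trans b134 (by norm_num))),
                                          b120,
                                          (cw_qa1 c.W3 (le_trans (by norm_num) b120) (le_trans b5 (by norm_num))),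
                                          (cw_ta0 c.W4 (le_trans (by norm_num) b136) (le_trans b139 (by norm_num))),
                                          (cy_yb Y1 (by linarith only [u0]) (by linarith only [b11])),
                                          c.T1, c.A1, c.P123]
                                      · linarith only [hH, sum,
                                          (cx_xd6 c.X1 (le_trans (by norm_num) b11) (le_trans u0 (by norm_num))),
                                          b134,
                                          (cw_tb1 c.W2 (le_trans (by norm_num) b137) (le_trans b134 (by norm_num))),
                                          (cw_qa1 c.W3 (le_trans (by norm_num) b120) (le_trans b5 (by norm_num))),
                                          b139,
                                          (cw_tb0 c.W4 (le_trans (by norm_num) b139) (le_trans b138 (by norm_num))),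
                                          (cy_yb Y1 (by linarith only [u0]) (by linarith only [b11])),
                                          c.T1, c.A1]
                                    · linarith only [hH, b11,
                                        (cw_tc1 c.W1 (le_trans (by norm_num) b11) (le_trans u0 (by norm_num))),
                                        b137,
                                        (cw_tb1 c.W2 (le_trans (by norm_num) b137) (le_trans b134 (by norm_num))),
                                        b120,
                                        (cx_x39 c.X3 (le_trans (by norm_num) b120) (le_trans b5 (by norm_num))),
                                        b138,
                                        (cw_qb0 c.W4 (le_trans (by norm_num) b138) (le_trans b119 (by norm_num))),
                                        c.A3]
                            · linarith only [hH, b11,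
                                (cw_tc1 c.W1 (le_trans (by norm_num) b11) (le_trans u0 (by norm_num))),
                                b134,
                                (cx_xd6 c.X2 (le_trans (by norm_num) b134) (le_trans u1 (by norm_num))),
                                b120,
                                (cx_x39 c.X3 (le_trans (by norm_num) b120) (le_trans b5 (by norm_num))),
                                c.P231]
                      · rcases le_total m₂ 4 with b140 | b140
                        · rcases le_total m₃ 3 with b141 | b141
                          · linarith only [hH, sum,
                              (cx_xd6 c.X1 (le_trans (by norm_num) b11) (le_trans u0 (by norm_num))),
                              (cw_qa1 c.W2 (le_trans (by norm_num) l1) (le_trans b140 (by norm_num))),
                              (cw_p0 c.W3 (le_trans (by norm_num) b8) (le_trans b141 (by norm_num))),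
                              b119,
                              (cw_ta1 c.W4 (le_trans (by norm_num) b119) (le_trans b118 (by norm_num))),
                              (cy_yb Y1 (by linarith only [u0]) (by linarith only [b11])), c.T1,
                              c.A1]
                          · linarith only [hH, sum,
                              (cx_xd6 c.X1 (le_trans (by norm_num) b11) (le_trans u0 (by norm_num))),
                              (cw_qa1 c.W2 (le_trans (by norm_num) l1) (le_trans b140 (by norm_num))),
                              (cw_qa1 c.W3 (le_trans (by norm_num) b141) (le_trans b5 (by norm_num))),
                              b119,
                              (cw_ta1 c.W4 (le_trans (by norm_num) b119) (le_trans b118 (by norm_num))),
                              (cy_yb Y1 (by linarith only [u0]) (by linarith only [b11])), c.T1,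
                              c.A1]
                        · linarith only [hH, sum, h34, b11, b140, b119]
                    · linarith only [hH, sum, h34, b11, l1, b118]
          · linarith only [hH, h12, h23,
              (cx_x39 c.X1 (le_trans (by norm_num) l0) (le_trans u0 (by norm_num))),
              (cx_x39 c.X2 (le_trans (by norm_num) l1) (le_trans u1 (by norm_num))), b5,
              (cw_qb1 c.W3 (le_trans (by norm_num) b5) (le_trans u2 (by norm_num))), c.P123]

end Pool.Agent.Lib.H28P
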