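import Pool.Agent.Lib.H28P.N11
import Pool.Agent.Lib.H28P.N13

/-!
# N14: exact lower bounds for `N = ν * 3 ^ k`, `4 ≤ ν ≤ 8`
-/

set_option autoImplicit false

namespace Pool.Agent.Lib.H28P

variable {m₁ m₂ m₃ m₄ w₁ w₂ w₃ w₄ x₁ x₂ x₃ x₄ y₁ N H : ℝ}

theorem Cfg.exact8 (c : Cfg m₁ m₂ m₃ m₄ w₁ w₂ w₃ w₄ x₁ x₂ x₃ x₄ y₁ N H) (k : ℕ)
    (hN : N = 8 * 3 ^ k) : 11 * 2 ^ k ≤ H := by
  have p3 : (0 : ℝ) < 3 ^ k := by positivity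
  have p2 : (0 : ℝ) < 2 ^ k := by positivity
  have h := (c.scale k).n8
  have e : N / (3 : ℝ) ^ (k : ℤ) = 8 := by
    rw [hN, zpow_natCast]; field_simp
  have := h e
  rw [zpow_natCast] at this
  rwa [le_div_iff₀ p2] at this

theorem Cfg.exact4 (c : Cfg m₁ m₂ m₃ m₄ w₁ w₂ w₃ w₄ x₁ x₂ x₃ x₄ y₁ N H) (k : ℕ)
    (hN : N = 4 * 3 ^ k) : 7 * 2 ^ k ≤ H := by
  have p3 : (0 : ℝ) < 3 ^ ((k : ℤ) - 1) := by positivity
  have p2 : (0 : ℝ) < 2 ^ ((k : ℤ) - 1) := by positivity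
  have h := (c.scale ((k : ℤ) - 1)).n12
  have e3 : (3 : ℝ) ^ k = 3 ^ ((k : ℤ) - 1) * 3 := by
    rw [← zpow_add_one₀ (by norm_num), sub_add_cancel, zpow_natCast]
  have e2 : (2 : ℝ) ^ k = 2 ^ ((k : ℤ) - 1) * 2 := by
    rw [← zpow_add_one₀ (by norm_num), sub_add_cancel, zpow_natCast]
  have e : N / (3 : ℝ) ^ ((k : ℤ) - 1) = 12 := by
    rw [hN, e3, div_eq_iff p3.ne']; ring
  rw [e] at h
  have h' := h le_rfl (by norm_num)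
  rw [le_div_iff₀ p2] at h'
  rw [e2]
  linarith

/-- all the exact lower bounds -/
theorem Cfg.exact_all (c : Cfg m₁ m₂ m₃ m₄ w₁ w₂ w₃ w₄ x₁ x₂ x₃ x₄ y₁ N H) (ν k : ℕ)
    (h4 : 4 ≤ ν) (h8 : ν ≤ 8) (hN : N = (ν : ℝ) * 3 ^ k) : ((ν : ℝ) + 3) * 2 ^ k ≤ H := by
  rcases eq_or_lt_of_le h4 with h | h
  · subst h
    have := c.exact4 k (by rw [hN]; norm_num)
    norm_num
    linarith
  · rcases eq_or_lt_of_le h8 with h' | h'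
    · subst h'
      have := c.exact8 k (by rw [hN]; norm_num)
      norm_num
      linarith
    · have a : 5 ≤ ν := h
      have b : ν ≤ 7 := by omega
      exact c.exact (ν : ℝ) (by exact_mod_cast a) (by exact_mod_cast b) k hN

end Pool.Agent.Lib.H28P
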