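import Mathlib

/-!
# MP_33da41_co: stacked polytopes and their longest simple edge paths

The graphs of the stacked 3-polytopes (Apollonian networks), and the function of Moser's question
for this class of convex polyhedra.
-/

set_option autoImplicit false

namespace Pool.Agent.Lib.H28P

/-- `Stacked V E F`: `V`, `E`, `F` are the vertex set, the edge set and the set of facets (as triples
of vertices) of a stacked 3-polytope: a tetrahedron, or what one gets from a stacked polytope by
placing one new vertex `v` beyond a facet `xyz` (the edges `vx`, `vy`, `vz` appear, and the facet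
`xyz` is replaced by `vyz`, `vxz`, `vxy`). -/
inductive Stacked : Finset ℕ → Finset (Sym2 ℕ) → Finset (Finset ℕ) → Prop
  | tetrahedron (a b c d : ℕ) (hab : a ≠ b) (hac : a ≠ c) (had : a ≠ d) (hbc : b ≠ c)
      (hbd : b ≠ d) (hcd : c ≠ d) :
      Stacked {a, b, c, d} {s(a, b), s(a, c), s(a, d), s(b, c), s(b, d), s(c, d)}
        {{b, c, d}, {a, c, d}, {a, b, d}, {a, b, c}}
  | stack (V : Finset ℕ) (E : Finset (Sym2 ℕ)) (F : Finset (Finset ℕ)) (x y z v : ℕ)
      (h : Stacked V E F) (hf : {x, y, z} ∈ F) (hv : v ∉ V) :
      Stacked (insert v V) (E ∪ {s(v, x), s(v, y), s(v, z)})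
        (F.erase {x, y, z} ∪ {{v, y, z}, {v, x, z}, {v, x, y}})

/-- A simple edge path: pairwise distinct vertices, each consecutive pair is an edge. -/
def EdgePath (V : Finset ℕ) (E : Finset (Sym2 ℕ)) (l : List ℕ) : Prop :=
  l.Nodup ∧ (∀ v ∈ l, v ∈ V) ∧ l.IsChain (fun u v => s(u, v) ∈ E)

/-- The largest `k` such that every stacked polytope with exactly `n` vertices has a simple edge
path passing through `k` vertices. -/
noncomputable def fStacked (n : ℕ) : ℕ :=
  sSup {k | ∀ V E F, Stacked V E F → V.card = n → ∃ l, EdgePath V E l ∧ l.length = k}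

/-- `α = log 2 / log 3`. -/
noncomputable def alpha : ℝ := Real.log 2 / Real.log 3

end Pool.Agent.Lib.H28P
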