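import Pool.Agent.Lib.H28P.Defs

/-!
# U01 (S/M): basic facts on stacked polytopes

PROOFS by induction on `h`. Tetrahedron: `simp`, `decide`-style case checks with the inequalities.
Stack: a new face `{v, y, z}` has three elements since `{x, y, z}` has (induction hypothesis), so
`x, y, z` are distinct, and `v ∉ V` while `x, y, z ∈ V`; its pairs `v y`, `v z` are new edges and
`y z` is an old edge by the induction hypothesis for `{x, y, z}`. Number of faces: the three new faces
are different from each other and are not in `F` (they contain `v`, the faces in `F` are subsets of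
`V`), so `F'.card = F.card - 1 + 3`, and `V'.card = V.card + 1`.
-/

set_option autoImplicit false

namespace Pool.Agent.Lib.H28P

theorem stacked_basic {V : Finset ℕ} {E : Finset (Sym2 ℕ)} {F : Finset (Finset ℕ)}
    (h : Stacked V E F) :
    4 ≤ V.card ∧ F.card + 4 = 2 * V.card ∧
      (∀ f ∈ F, f.card = 3 ∧ f ⊆ V ∧ ∀ u ∈ f, ∀ v ∈ f, u ≠ v → s(u, v) ∈ E) ∧
      (∀ u v, s(u, v) ∈ E → u ∈ V ∧ v ∈ V ∧ u ≠ v) := by
  induction h with
  | tetrahedron a b c d hab hac had hbc hbd hcd =>
    have hV : ({a, b, c, d} : Finset ℕ).card = 4 := by
      rw [Finset.card_insert_of_notMem (by simp [hab, hac, had]),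
        Finset.card_insert_of_notMem (by simp [hbc, hbd]),
        Finset.card_insert_of_notMem (by simp [hcd]), Finset.card_singleton]
    have k1 : ({b, c, d} : Finset ℕ) ≠ {a, c, d} := by
      intro h
      have : a ∈ ({b, c, d} : Finset ℕ) := by rw [h]; simp
      simp [hab, hac, had] at this
    have k2 : ({b, c, d} : Finset ℕ) ≠ {a, b, d} := by
      intro h
      have : a ∈ ({b, c, d} : Finset ℕ) := by rw [h]; simp
      simp [hab, hac, had] at this
    have k3 : ({b, c, d} : Finset ℕ) ≠ {a, b, c} := by
      intro h
      have : a ∈ ({b, c, d} : Finset ℕ) := by rw [h]; simp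
      simp [hab, hac, had] at this
    have k4 : ({a, c, d} : Finset ℕ) ≠ {a, b, d} := by
      intro h
      have : b ∈ ({a, c, d} : Finset ℕ) := by rw [h]; simp
      simp [hab.symm, hbc, hbd] at this
    have k5 : ({a, c, d} : Finset ℕ) ≠ {a, b, c} := by
      intro h
      have : b ∈ ({a, c, d} : Finset ℕ) := by rw [h]; simp
      simp [hab.symm, hbc, hbd] at this
    have k6 : ({a, b, d} : Finset ℕ) ≠ {a, b, c} := by
      intro h
      have : c ∈ ({a, b, d} : Finset ℕ) := by rw [h]; simp
      simp [hac.symm, hbc.symm, hcd] at this
    refine ⟨by omega, ?_, ?_, ?_⟩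
    · rw [hV, Finset.card_insert_of_notMem, Finset.card_insert_of_notMem,
        Finset.card_insert_of_notMem, Finset.card_singleton]
      · simpa using k6
      · simp only [Finset.mem_insert, Finset.mem_singleton, not_or]
        exact ⟨k4, k5⟩
      · simp only [Finset.mem_insert, Finset.mem_singleton, not_or]
        exact ⟨k1, k2, k3⟩
    · intro f hf
      simp only [Finset.mem_insert, Finset.mem_singleton] at hf
      rcases hf with rfl | rfl | rfl | rfl
      · refine ⟨?_, ?_, ?_⟩
        · rw [Finset.card_insert_of_notMem (by simp [hbc, hbd]),
            Finset.card_insert_of_notMem (by simp [hcd]), Finset.card_singleton]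
        · intro t ht
          simp only [Finset.mem_insert, Finset.mem_singleton] at ht ⊢
          tauto
        · intro u hu w hw huw
          simp only [Finset.mem_insert, Finset.mem_singleton] at hu hw ⊢
          rcases hu with rfl | rfl | rfl <;> rcases hw with rfl | rfl | rfl <;>
            simp_all [Sym2.eq_swap]
      · refine ⟨?_, ?_, ?_⟩
        · rw [Finset.card_insert_of_notMem (by simp [hac, had]),
            Finset.card_insert_of_notMem (by simp [hcd]), Finset.card_singleton]
        · intro t ht
          simp only [Finset.mem_insert, Finset.mem_singleton] at ht ⊢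
          tauto
        · intro u hu w hw huw
          simp only [Finset.mem_insert, Finset.mem_singleton] at hu hw ⊢
          rcases hu with rfl | rfl | rfl <;> rcases hw with rfl | rfl | rfl <;>
            simp_all [Sym2.eq_swap]
      · refine ⟨?_, ?_, ?_⟩
        · rw [Finset.card_insert_of_notMem (by simp [hab, had]),
            Finset.card_insert_of_notMem (by simp [hbd]), Finset.card_singleton]
        · intro t ht
          simp only [Finset.mem_insert, Finset.mem_singleton] at ht ⊢
          tauto
        · intro u hu w hw huw
          simp only [Finset.mem_insert, Finset.mem_singleton] at hu hw ⊢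
          rcases hu with rfl | rfl | rfl <;> rcases hw with rfl | rfl | rfl <;>
            simp_all [Sym2.eq_swap]
      · refine ⟨?_, ?_, ?_⟩
        · rw [Finset.card_insert_of_notMem (by simp [hab, hac]),
            Finset.card_insert_of_notMem (by simp [hbc]), Finset.card_singleton]
        · intro t ht
          simp only [Finset.mem_insert, Finset.mem_singleton] at ht ⊢
          tauto
        · intro u hu w hw huw
          simp only [Finset.mem_insert, Finset.mem_singleton] at hu hw ⊢
          rcases hu with rfl | rfl | rfl <;> rcases hw with rfl | rfl | rfl <;>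
            simp_all [Sym2.eq_swap]
    · intro u w huw
      simp only [Finset.mem_insert, Finset.mem_singleton, Sym2.eq_iff] at huw ⊢
      rcases huw with h | h | h | h | h | h <;> rcases h with ⟨rfl, rfl⟩ | ⟨rfl, rfl⟩ <;>
        simp_all [eq_comm]
  | stack V E F x y z v h hf hv ih =>
    obtain ⟨i1, i2, i3, i4⟩ := ih
    obtain ⟨f1, f2, f3⟩ := i3 _ hf
    have hxV : x ∈ V := f2 (by simp)
    have hyV : y ∈ V := f2 (by simp)
    have hzV : z ∈ V := f2 (by simp)
    have hxy : x ≠ y := by
      rintro rfl
      have := Finset.card_le_two (a := x) (b := z)
      simp at f1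
      omega
    have hxz : x ≠ z := by
      rintro rfl
      have := Finset.card_le_two (a := x) (b := y)
      have e : ({x, y, x} : Finset ℕ) = {x, y} := by
        ext t; simp only [Finset.mem_insert, Finset.mem_singleton]; tauto
      rw [e] at f1
      omega
    have hyz : y ≠ z := by
      rintro rfl
      have := Finset.card_le_two (a := x) (b := y)
      simp at f1
      omega
    have hvx : v ≠ x := fun h => hv (h ▸ hxV)
    have hvy : v ≠ y := fun h => hv (h ▸ hyV)
    have hvz : v ≠ z := fun h => hv (h ▸ hzV)
    have k1 : ({v, y, z} : Finset ℕ) ≠ {v, x, z} := by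
      intro h
      have : x ∈ ({v, y, z} : Finset ℕ) := by rw [h]; simp
      simp [hvx.symm, hxy, hxz] at this
    have k2 : ({v, y, z} : Finset ℕ) ≠ {v, x, y} := by
      intro h
      have : x ∈ ({v, y, z} : Finset ℕ) := by rw [h]; simp
      simp [hvx.symm, hxy, hxz] at this
    have k3 : ({v, x, z} : Finset ℕ) ≠ {v, x, y} := by
      intro h
      have : y ∈ ({v, x, z} : Finset ℕ) := by rw [h]; simp
      simp [hvy.symm, hxy.symm, hyz] at this
    have hn : ({{v, y, z}, {v, x, z}, {v, x, y}} : Finset (Finset ℕ)).card = 3 := by
      rw [Finset.card_insert_of_notMem, Finset.card_insert_of_notMem, Finset.card_singleton]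
      · simpa using k3
      · simp only [Finset.mem_insert, Finset.mem_singleton, not_or]
        exact ⟨k1, k2⟩
    have hvn : ∀ f ∈ F, v ∉ f := fun f hf' h' => hv ((i3 f hf').2.1 h')
    have hd : Disjoint (F.erase {x, y, z})
        ({{v, y, z}, {v, x, z}, {v, x, y}} : Finset (Finset ℕ)) := by
      rw [Finset.disjoint_left]
      intro f hf' hf''
      have := hvn f (Finset.mem_of_mem_erase hf')
      simp only [Finset.mem_insert, Finset.mem_singleton] at hf''
      rcases hf'' with rfl | rfl | rfl <;> simp at this
    have hpos : 0 < F.card := Finset.card_pos.mpr ⟨_, hf⟩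
    refine ⟨?_, ?_, ?_, ?_⟩
    · rw [Finset.card_insert_of_notMem hv]
      omega
    · rw [Finset.card_insert_of_notMem hv, Finset.card_union_of_disjoint hd, hn,
        Finset.card_erase_of_mem hf]
      omega
    · intro f hf'
      rw [Finset.mem_union] at hf'
      rcases hf' with hf' | hf'
      · obtain ⟨g1, g2, g3⟩ := i3 f (Finset.mem_of_mem_erase hf')
        refine ⟨g1, g2.trans (Finset.subset_insert _ _), fun u hu w hw huw => ?_⟩
        exact Finset.mem_union_left _ (g3 u hu w hw huw)
      · have exy : s(x, y) ∈ E := f3 x (by simp) y (by simp) hxy
        have exz : s(x, z) ∈ E := f3 x (by simp) z (by simp) hxz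
        have eyz : s(y, z) ∈ E := f3 y (by simp) z (by simp) hyz
        have eyx : s(y, x) ∈ E := f3 y (by simp) x (by simp) hxy.symm
        have ezx : s(z, x) ∈ E := f3 z (by simp) x (by simp) hxz.symm
        have ezy : s(z, y) ∈ E := f3 z (by simp) y (by simp) hyz.symm
        simp only [Finset.mem_insert, Finset.mem_singleton] at hf'
        rcases hf' with rfl | rfl | rfl
        · refine ⟨?_, ?_, ?_⟩
          · rw [Finset.card_insert_of_notMem (by simp [hvy, hvz]),
              Finset.card_insert_of_notMem (by simp [hyz]), Finset.card_singleton]
          · intro t ht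
            simp only [Finset.mem_insert, Finset.mem_singleton] at ht ⊢
            rcases ht with rfl | rfl | rfl <;> simp_all
          · intro u hu w hw huw
            simp only [Finset.mem_insert, Finset.mem_singleton] at hu hw
            rcases hu with rfl | rfl | rfl <;> rcases hw with rfl | rfl | rfl <;>
              first
                | exact absurd rfl huw
                | exact Finset.mem_union_left _ (by assumption)
                | (apply Finset.mem_union_right; simp)
        · refine ⟨?_, ?_, ?_⟩
          · rw [Finset.card_insert_of_notMem (by simp [hvx, hvz]),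
              Finset.card_insert_of_notMem (by simp [hxz]), Finset.card_singleton]
          · intro t ht
            simp only [Finset.mem_insert, Finset.mem_singleton] at ht ⊢
            rcases ht with rfl | rfl | rfl <;> simp_all
          · intro u hu w hw huw
            simp only [Finset.mem_insert, Finset.mem_singleton] at hu hw
            rcases hu with rfl | rfl | rfl <;> rcases hw with rfl | rfl | rfl <;>
              first
                | exact absurd rfl huw
                | exact Finset.mem_union_left _ (by assumption)
                | (apply Finset.mem_union_right; simp)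
        · refine ⟨?_, ?_, ?_⟩
          · rw [Finset.card_insert_of_notMem (by simp [hvx, hvy]),
              Finset.card_insert_of_notMem (by simp [hxy]), Finset.card_singleton]
          · intro t ht
            simp only [Finset.mem_insert, Finset.mem_singleton] at ht ⊢
            rcases ht with rfl | rfl | rfl <;> simp_all
          · intro u hu w hw huw
            simp only [Finset.mem_insert, Finset.mem_singleton] at hu hw
            rcases hu with rfl | rfl | rfl <;> rcases hw with rfl | rfl | rfl <;>
              first
                | exact absurd rfl huw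
                | exact Finset.mem_union_left _ (by assumption)
                | (apply Finset.mem_union_right; simp)
    · intro u w huw
      rw [Finset.mem_union] at huw
      rcases huw with huw | huw
      · obtain ⟨g1, g2, g3⟩ := i4 u w huw
        exact ⟨Finset.mem_insert_of_mem g1, Finset.mem_insert_of_mem g2, g3⟩
      · simp only [Finset.mem_insert, Finset.mem_singleton, Sym2.eq_iff] at huw ⊢
        rcases huw with h | h | h <;> rcases h with ⟨rfl, rfl⟩ | ⟨rfl, rfl⟩ <;>
          simp_all [eq_comm]

/-- Stacked polytopes with any number `n ≥ 4` of vertices exist (stack on any facet; `F` is never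
empty by the formula `F.card + 4 = 2 * V.card`; a face with three elements is `{x, y, z}`:
`Finset.card_eq_three`; a natural number outside `V` exists: `Infinite.exists_notMem_finset`). -/
theorem exists_stacked (n : ℕ) (hn : 4 ≤ n) : ∃ V E F, Stacked V E F ∧ V.card = n := by
  induction n, hn using Nat.le_induction with
  | base =>
    refine ⟨_, _, _, Stacked.tetrahedron 0 1 2 3 (by decide) (by decide) (by decide) (by decide)
      (by decide) (by decide), by decide⟩
  | succ n hn ih =>
    obtain ⟨V, E, F, h, hc⟩ := ih
    obtain ⟨h1, h2, h3, h4⟩ := stacked_basic h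
    have hpos : 0 < F.card := by omega
    obtain ⟨f, hf⟩ := Finset.card_pos.mp hpos
    obtain ⟨x, y, z, hxy, hxz, hyz, rfl⟩ := Finset.card_eq_three.mp (h3 f hf).1
    obtain ⟨v, hv⟩ := Infinite.exists_notMem_finset V
    refine ⟨_, _, _, Stacked.stack V E F x y z v h hf hv, ?_⟩
    rw [Finset.card_insert_of_notMem hv, hc]

end Pool.Agent.Lib.H28P
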