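import Pool.Agent.Lib.H28P.U01

/-!
# U02 (M): stacking on all facets at once

PROOF: induction on the finset `F₀ ⊆ F` (`Finset.induction_on`) of the statement of
`stack_some` below; `V' = V`, `τ` arbitrary at the start. Step: `f ∈ F \ F₀` is still a facet of
`(V', E', F')`; write `f = {x, y, z}` (`Finset.card_eq_three` and `stacked_basic`), choose `v ∉ V'`,
apply `Stacked.stack`, put `τ v = f` (`Function.update`). The facets of `F` not in `insert f F₀` are in
`F'.erase f`. New edges are `s(v, u)` with `u ∈ f = τ v`.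
-/

set_option autoImplicit false

namespace Pool.Agent.Lib.H28P

theorem stack_some {V : Finset ℕ} {E : Finset (Sym2 ℕ)} {F : Finset (Finset ℕ)}
    (h : Stacked V E F) (F₀ : Finset (Finset ℕ)) (hF : F₀ ⊆ F) :
    ∃ V' E' F', Stacked V' E' F' ∧ V ⊆ V' ∧ V'.card = V.card + F₀.card ∧ F \ F₀ ⊆ F' ∧
      ∃ τ : ℕ → Finset ℕ, (∀ v ∈ V', v ∉ V → τ v ∈ F) ∧
        ∀ e ∈ E', e ∈ E ∨ ∃ v u, v ∈ V' ∧ v ∉ V ∧ u ∈ τ v ∧ e = s(v, u) := by
  induction F₀ using Finset.induction_on with
  | empty =>
    exact ⟨V, E, F, h, subset_rfl, by simp, Finset.sdiff_subset, fun _ => ∅,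
      fun v hv hv' => absurd hv hv', fun e he => Or.inl he⟩
  | insert f F₀ hf ih =>
    obtain ⟨V', E', F', hS, hV, hc, hFF, τ, hτ, hE⟩ :=
      ih ((Finset.subset_insert _ _).trans hF)
    have hfF : f ∈ F := hF (Finset.mem_insert_self _ _)
    have hfF' : f ∈ F' := hFF (Finset.mem_sdiff.2 ⟨hfF, hf⟩)
    obtain ⟨x, y, z, -, -, -, hxyz⟩ := Finset.card_eq_three.1 ((stacked_basic h).2.2.1 f hfF).1
    obtain ⟨v, hv⟩ := Infinite.exists_notMem_finset V'
    have hvV : v ∉ V := fun hh => hv (hV hh)
    refine ⟨_, _, _, Stacked.stack V' E' F' x y z v hS (hxyz ▸ hfF') hv,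
      hV.trans (Finset.subset_insert _ _), ?_, ?_, Function.update τ v f, ?_, ?_⟩
    · rw [Finset.card_insert_of_notMem hv, Finset.card_insert_of_notMem hf, hc]
      omega
    · intro g hg
      rw [Finset.mem_sdiff, Finset.mem_insert, not_or] at hg
      apply Finset.mem_union_left
      rw [Finset.mem_erase, ← hxyz]
      exact ⟨hg.2.1, hFF (Finset.mem_sdiff.2 ⟨hg.1, hg.2.2⟩)⟩
    · intro u hu hu'
      rcases eq_or_ne u v with rfl | huv
      · rw [Function.update_self]
        exact hfF
      · rw [Function.update_of_ne huv]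
        exact hτ u ((Finset.mem_insert.1 hu).resolve_left huv) hu'
    · intro e he
      rcases Finset.mem_union.1 he with he | he
      · rcases hE e he with h1 | ⟨w, u, hw, hw', hu, rfl⟩
        · exact Or.inl h1
        · refine Or.inr ⟨w, u, Finset.mem_insert_of_mem hw, hw', ?_, rfl⟩
          have hwv : w ≠ v := fun hwv => hv (hwv ▸ hw)
          rw [Function.update_of_ne hwv]
          exact hu
      · have key : ∀ u ∈ f, s(v, u) ∈ E ∨ ∃ w u', w ∈ insert v V' ∧ w ∉ V ∧
            u' ∈ Function.update τ v f w ∧ s(v, u) = s(w, u') := by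
          intro u hu
          refine Or.inr ⟨v, u, Finset.mem_insert_self _ _, hvV, ?_, rfl⟩
          rw [Function.update_self]
          exact hu
        simp only [Finset.mem_insert, Finset.mem_singleton] at he
        rcases he with rfl | rfl | rfl
        · exact key x (by rw [hxyz]; simp)
        · exact key y (by rw [hxyz]; simp)
        · exact key z (by rw [hxyz]; simp)

end Pool.Agent.Lib.H28P
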