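import Pool.Agent.Lib.H28P.Defs

/-!
# U03 (S/M): a lemma on lists

`P` is the set of old vertices, `r` adjacency in the new graph, `r'` in the old graph. Two
consecutive elements are never both new; two old elements which are adjacent, or separated by one new
element, are adjacent in the old graph. Then the old elements of a chain form a chain, and at least
about half of the elements are old.

PROOF: strong induction on the length of `l` (or induction over `l` looking at the first three
elements). Prove together with the third statement `hh`: if the head of `l` satisfies `P` then
`l.length ≤ 2 * (l.filter P).length`. For `l = v :: w :: l'`: if `v` is new, `w` is old and `l` without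
`v` is covered by the induction hypothesis, with the better bound of `hh`. If `v` is old and `w` is old,
use the hypothesis for `w :: l'`. If `v` is old and `w` is new, then `l' = []` or `l' = u :: l''` with
`u` old and `r' v u` by `h3` (`v ≠ u` because there are no duplicates): use the hypothesis for `u :: l''`.
-/

set_option autoImplicit false

namespace Pool.Agent.Lib.H28P

theorem filter_chain {A : Type*} (P : A → Prop) [DecidablePred P] (r r' : A → A → Prop)
    (h1 : ∀ u v, r u v → P u ∨ P v) (h2 : ∀ u v, P u → P v → r u v → r' u v)
    (h3 : ∀ u w v, P u → ¬ P w → P v → u ≠ v → r u w → r w v → r' u v)
    (l : List A) (hn : l.Nodup) (hl : l.IsChain r) :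
    (l.filter P).IsChain r' ∧ l.length ≤ 2 * (l.filter P).length + 1 := by
  have key : ∀ (n : ℕ) (l : List A), l.length ≤ n → l.Nodup → l.IsChain r →
      (l.filter P).IsChain r' ∧ l.length ≤ 2 * (l.filter P).length + 1 ∧
        ∀ v l', l = v :: l' → P v → l.length ≤ 2 * (l.filter P).length := by
    intro n
    induction n with
    | zero =>
      intro l hl _ _
      have h0 : l = [] := List.eq_nil_of_length_eq_zero (by omega)
      subst h0
      simp
    | succ n ih =>
      intro l hl hn hc
      match l, hl, hn, hc with
      | [], _, _, _ => simp
      | [v], _, _, _ =>
        by_cases hv : P v
        · simp [hv]
        · simp [hv]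
      | v :: w :: l', hl, hn, hc =>
        rw [List.isChain_cons_cons] at hc
        have hn' := (List.nodup_cons.1 hn).2
        have hlen : (w :: l').length ≤ n := by
          simp only [List.length_cons] at hl ⊢
          omega
        obtain ⟨i1, i2, i3⟩ := ih (w :: l') hlen hn' hc.2
        by_cases hv : P v
        · by_cases hw : P w
          · have i4 := i3 w l' rfl hw
            have e1 : (v :: w :: l').filter P = v :: (w :: l').filter P := by simp [hv]
            have e2 : (w :: l').filter P = w :: l'.filter P := by simp [hw]
            rw [e1]
            refine ⟨?_, ?_, ?_⟩
            · rw [e2, List.isChain_cons_cons]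
              rw [e2] at i1
              exact ⟨h2 v w hv hw hc.1, i1⟩
            · simp only [List.length_cons] at i4 ⊢
              omega
            · intro _ _ _ _
              simp only [List.length_cons] at i4 ⊢
              omega
          · match l', hl, hn, hn', hc, hlen, i1, i2, i3 with
            | [], _, _, _, _, _, _, _, _ => simp [hv, hw]
            | u :: l'', hl, hn, hn', hc, hlen, i1, i2, i3 =>
              have hc2 := hc.2
              rw [List.isChain_cons_cons] at hc2
              have hu : P u := (h1 w u hc2.1).resolve_left hw
              have hlen2 : (u :: l'').length ≤ n := by
                simp only [List.length_cons] at hl ⊢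
                omega
              obtain ⟨j1, j2, j3⟩ := ih (u :: l'') hlen2 (List.nodup_cons.1 hn').2 hc2.2
              have j4 := j3 u l'' rfl hu
              have hne : v ≠ u := by
                rintro rfl
                exact (List.nodup_cons.1 hn).1 (by simp)
              have e1 : (v :: w :: u :: l'').filter P = v :: (u :: l'').filter P := by
                simp [hv, hw]
              have e2 : (u :: l'').filter P = u :: l''.filter P := by simp [hu]
              rw [e1]
              refine ⟨?_, ?_, ?_⟩
              · rw [e2, List.isChain_cons_cons]
                rw [e2] at j1
                exact ⟨h3 v w u hv hw hu hne hc.1 hc2.1, j1⟩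
              · simp only [List.length_cons] at j4 ⊢
                omega
              · intro _ _ _ _
                simp only [List.length_cons] at j4 ⊢
                omega
        · have hw : P w := (h1 v w hc.1).resolve_left hv
          have i4 := i3 w l' rfl hw
          have e1 : (v :: w :: l').filter P = (w :: l').filter P := by simp [hv]
          rw [e1]
          refine ⟨i1, ?_, ?_⟩
          · simp only [List.length_cons] at i4 ⊢
            omega
          · intro v' _ h4 h5
            have : v = v' := (List.cons.inj h4).1
            subst this
            exact absurd h5 hv
  obtain ⟨k1, k2, -⟩ := key l.length l le_rfl hn hl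
  exact ⟨k1, k2⟩

end Pool.Agent.Lib.H28P
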