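import Pool.Agent.Lib.H28P.U02
import Pool.Agent.Lib.H28P.U03

/-!
# U04 (S/M): tripling

`UB n p`: there is a stacked polytope with `n` vertices on which every simple edge path has at most
`p` vertices.

PROOFS. `ub_base`: `exists_stacked`, and a list without duplicates inside `V` has at most `V.card`
elements. `ub_triple`: apply `stack_some` with `F₀ = F`; the new polytope has
`n + (2 n - 4) = 3 n - 4` vertices. Let `l` be a path in it and apply `filter_chain` with `P v` the
statement `v ∈ V`, `r u v` the statement `s(u, v) ∈ E'`, `r' u v` the statement `s(u, v) ∈ E`.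
`h1`, `h2`: an edge of `E'` is in `E` (both ends in `V`) or it is `s(v, u)` with `v` new and
`u ∈ τ v ⊆ V` old. `h3`: `u, v ∈ τ w` and `τ w` is a facet in `F`, so `s(u, v) ∈ E`
by `stacked_basic`. So the old vertices of `l` form a path of the old polytope, at most `p` vertices,
and `l.length ≤ 2 p + 1`. `ub_iterate`: induction on `k`.
-/

set_option autoImplicit false

namespace Pool.Agent.Lib.H28P

/-- some stacked polytope with `n` vertices has no simple edge path with more than `p` vertices -/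
def UB (n p : ℕ) : Prop :=
  ∃ V E F, Stacked V E F ∧ V.card = n ∧ ∀ l, EdgePath V E l → l.length ≤ p

theorem u04_len {V : Finset ℕ} {E : Finset (Sym2 ℕ)} {l : List ℕ} (h : EdgePath V E l) :
    l.length ≤ V.card := by
  rw [← List.toFinset_card_of_nodup h.1]
  refine Finset.card_le_card fun v hv => h.2.1 v (List.mem_toFinset.1 hv)

theorem ub_base (n : ℕ) (hn : 4 ≤ n) : UB n n := by
  obtain ⟨V, E, F, h, hc⟩ := exists_stacked n hn
  exact ⟨V, E, F, h, hc, fun l hl => (u04_len hl).trans hc.le⟩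

theorem ub_triple (n p : ℕ) (h : UB n p) : UB (3 * n - 4) (2 * p + 1) := by
  classical
  obtain ⟨V, E, F, hS, hc, hp⟩ := h
  obtain ⟨h4, hF, hface, hedge⟩ := stacked_basic hS
  obtain ⟨V', E', F', hS', -, hc', -, τ, hτ, hE⟩ := stack_some hS F (Finset.Subset.refl F)
  refine ⟨V', E', F', hS', by omega, fun l hl => ?_⟩
  have key : ∀ u v, s(u, v) ∈ E' → (u ∈ V ∧ v ∈ V ∧ s(u, v) ∈ E) ∨
      (u ∈ V' ∧ u ∉ V ∧ v ∈ τ u ∧ v ∈ V) ∨ (v ∈ V' ∧ v ∉ V ∧ u ∈ τ v ∧ u ∈ V) := by
    intro u v huv
    rcases hE _ huv with h1 | ⟨v0, u0, a1, a2, a3, a4⟩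
    · obtain ⟨b1, b2, -⟩ := hedge u v h1
      exact Or.inl ⟨b1, b2, h1⟩
    · have hu0 : u0 ∈ V := (hface _ (hτ v0 a1 a2)).2.1 a3
      rcases Sym2.eq_iff.1 a4 with ⟨rfl, rfl⟩ | ⟨rfl, rfl⟩
      · exact Or.inr (Or.inl ⟨a1, a2, a3, hu0⟩)
      · exact Or.inr (Or.inr ⟨a1, a2, a3, hu0⟩)
  obtain ⟨f1, f2⟩ := filter_chain (fun v => v ∈ V) (fun u v => s(u, v) ∈ E')
    (fun u v => s(u, v) ∈ E) (by
      intro u v huv
      rcases key u v huv with h1 | h1 | h1
      · exact Or.inl h1.1
      · exact Or.inr h1.2.2.2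
      · exact Or.inl h1.2.2.2) (by
      intro u v hu hv huv
      rcases key u v huv with h1 | h1 | h1
      · exact h1.2.2
      · exact absurd hu h1.2.1
      · exact absurd hv h1.2.1) (by
      intro u w v hu hw hv huv h1 h2
      have a1 : w ∈ V' ∧ u ∈ τ w := by
        rcases key u w h1 with h3 | h3 | h3
        · exact absurd h3.2.1 hw
        · exact absurd hu h3.2.1
        · exact ⟨h3.1, h3.2.2.1⟩
      have a2 : v ∈ τ w := by
        rcases key w v h2 with h3 | h3 | h3
        · exact absurd h3.1 hw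
        · exact h3.2.2.1
        · exact absurd hv h3.2.1
      exact (hface _ (hτ w a1.1 hw)).2.2 u a1.2 v a2 huv) l hl.1 hl.2.2
  have hl' : EdgePath V E (l.filter fun v => v ∈ V) := by
    refine ⟨hl.1.filter _, fun v hv => ?_, f1⟩
    have := (List.mem_filter.1 hv).2
    simpa using this
  have h5 := hp _ hl'
  omega

theorem ub_iterate (N H k : ℕ) (h : UB (N + 2) (H - 1)) (hH : 1 ≤ H) :
    UB (N * 3 ^ k + 2) (H * 2 ^ k - 1) := by
  induction k with
  | zero => simpa using h
  | succ k ih =>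
    have h1 := ub_triple _ _ ih
    have h2 : 3 * (N * 3 ^ k + 2) - 4 = N * 3 ^ (k + 1) + 2 := by
      rw [pow_succ]
      have : N * (3 ^ k * 3) = 3 * (N * 3 ^ k) := by ring
      omega
    have h3 : 2 * (H * 2 ^ k - 1) + 1 = H * 2 ^ (k + 1) - 1 := by
      rw [pow_succ]
      have h4 : H * (2 ^ k * 2) = 2 * (H * 2 ^ k) := by ring
      have h5 : 0 < H * 2 ^ k := Nat.mul_pos hH (by positivity)
      omega
    rw [h2, h3] at h1
    exact h1

end Pool.Agent.Lib.H28P
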