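import Pool.Agent.Lib.H28P.U04

/-!
# U05 (S): the function of Moser for stacked polytopes

PROOFS. The set in the definition of `fStacked n` is `{k | every stacked polytope with n vertices has a
path with exactly k vertices}`. `fStacked_le`: if `UB n p`, all its elements are at most `p`
(`csSup_le'` or `Nat.sSup_mem`; for the empty set the supremum is `0`). `le_fStacked`: if every
stacked polytope has a path with at least `k` vertices then it has one with exactly `k` (`List.take k`
of a path is a path: `List.IsChain.take`, `List.Nodup.sublist`), so `k` is in the set, which is bounded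
above by `n` because `exists_stacked` (a path has at most `V.card` vertices): `le_csSup`.
-/

set_option autoImplicit false

namespace Pool.Agent.Lib.H28P

theorem u05_ub {n p : ℕ} (h : UB n p) :
    p ∈ upperBounds {k | ∀ V E F, Stacked V E F → V.card = n → ∃ l, EdgePath V E l ∧ l.length = k} := by
  obtain ⟨V, E, F, h1, h2, h3⟩ := h
  intro k hk
  obtain ⟨l, h4, h5⟩ := hk V E F h1 h2
  rw [← h5]
  exact h3 l h4

theorem fStacked_le {n p : ℕ} (h : UB n p) : fStacked n ≤ p :=
  csSup_le' (u05_ub h)

theorem le_fStacked {n k : ℕ} (hn : 4 ≤ n)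
    (h : ∀ V E F, Stacked V E F → V.card = n → ∃ l, EdgePath V E l ∧ k ≤ l.length) :
    k ≤ fStacked n := by
  refine le_csSup ⟨n, u05_ub (ub_base n hn)⟩ ?_
  intro V E F hS hV
  obtain ⟨l, ⟨h1, h2, h3⟩, h4⟩ := h V E F hS hV
  refine ⟨l.take k, ⟨(List.take_sublist k l).nodup h1, fun v hv => h2 v (List.mem_of_mem_take hv),
    h3.take k⟩, ?_⟩
  rw [List.length_take]
  exact min_eq_left h4

end Pool.Agent.Lib.H28P
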