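import Pool.Agent.Lib.H28P.U04

/-!
# U06: stacking on some of the facets; upper bounds for all numbers of vertices
-/

set_option autoImplicit false

namespace Pool.Agent.Lib.H28P

theorem ub_mid (n p n' : ℕ) (h : UB n p) (h1 : n ≤ n') (h2 : n' ≤ 3 * n - 4) :
    UB n' (2 * p + 1) := by
  classical
  obtain ⟨V, E, F, hS, hc, hp⟩ := h
  obtain ⟨h4, hF, hface, hedge⟩ := stacked_basic hS
  obtain ⟨F₀, hF₀, hcF₀⟩ := Finset.exists_subset_card_eq (s := F) (n := n' - n) (by omega)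
  obtain ⟨V', E', F', hS', -, hc', -, τ, hτ, hE⟩ := stack_some hS F₀ hF₀
  refine ⟨V', E', F', hS', by omega, fun l hl => ?_⟩
  have key : ∀ u v, s(u, v) ∈ E' → (u ∈ V ∧ v ∈ V ∧ s(u, v) ∈ E) ∨
      (u ∈ V' ∧ u ∉ V ∧ v ∈ τ u ∧ v ∈ V) ∨ (v ∈ V' ∧ v ∉ V ∧ u ∈ τ v ∧ u ∈ V) := by
    intro u v huv
    rcases hE _ huv with h1 | ⟨v0, u0, a1, a2, a3, a4⟩
    · obtain ⟨b1, b2, -⟩ := hedge u v h1
      exact Or.inl ⟨b1, b2, h1⟩
    · have hu0 : u0 ∈ V := (hface _ (hτ v0 a1 a2)).2.1 a3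
      rcases Sym2.eq_iff.1 a4 with ⟨rfl, rfl⟩ | ⟨rfl, rfl⟩
      · exact Or.inr (Or.inl ⟨a1, a2, a3, hu0⟩)
      · exact Or.inr (Or.inr ⟨a1, a2, a3, hu0⟩)
  obtain ⟨f1, f2⟩ := filter_chain (fun v => v ∈ V) (fun u v => s(u, v) ∈ E')
    (fun u v => s(u, v) ∈ E) (by
      intro u v huv
      rcases key u v huv with h1 | h1 | h1
      · exact Or.inl h1.1
      · exact Or.inr h1.2.2.2
      · exact Or.inl h1.2.2.2) (by
      intro u v hu hv huv
      rcases key u v huv with h1 | h1 | h1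
      · exact h1.2.2
      · exact absurd hu h1.2.1
      · exact absurd hv h1.2.1) (by
      intro u w v hu hw hv huv h1 h2
      have a1 : w ∈ V' ∧ u ∈ τ w := by
        rcases key u w h1 with h3 | h3 | h3
        · exact absurd h3.2.1 hw
        · exact absurd hu h3.2.1
        · exact ⟨h3.1, h3.2.2.1⟩
      have a2 : v ∈ τ w := by
        rcases key w v h2 with h3 | h3 | h3
        · exact absurd h3.1 hw
        · exact h3.2.2.1
        · exact absurd hv h3.2.1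
      exact (hface _ (hτ w a1.1 hw)).2.2 u a1.2 v a2 huv) l hl.1 hl.2.2
  have hl' : EdgePath V E (l.filter fun v => v ∈ V) := by
    refine ⟨hl.1.filter _, fun v hv => ?_, f1⟩
    have := (List.mem_filter.1 hv).2
    simpa using this
  have h5 := hp _ hl'
  omega

/-- windows: for `(ν - 1) * 3 ^ k < N ≤ ν * 3 ^ k` -/
theorem ub_window (ν H : ℕ) (hH : 1 ≤ H) (h : UB (ν + 2) (H - 1)) (k : ℕ) :
    ∀ N : ℕ, (ν - 1) * 3 ^ k < N → N ≤ ν * 3 ^ k → UB (N + 2) (H * 2 ^ k - 1) := by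
  induction k with
  | zero =>
    intro N h1 h2
    have : N = ν := by simp at h1 h2; omega
    subst this
    simpa using h
  | succ k ih =>
    intro N h1 h2
    rw [pow_succ] at h1 h2
    have e1 : (ν - 1) * (3 ^ k * 3) = 3 * ((ν - 1) * 3 ^ k) := by ring
    have e2 : ν * (3 ^ k * 3) = 3 * (ν * 3 ^ k) := by ring
    have h3 := ih ((N + 2) / 3) (by omega) (by omega)
    have h4 := ub_mid _ _ (N + 2) h3 (by omega) (by omega)
    have h5 : 2 * (H * 2 ^ k - 1) + 1 = H * 2 ^ (k + 1) - 1 := by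
      rw [pow_succ]
      have h6 : H * (2 ^ k * 2) = 2 * (H * 2 ^ k) := by ring
      have h7 : 0 < H * 2 ^ k := Nat.mul_pos hH (by positivity)
      omega
    rwa [h5] at h4

end Pool.Agent.Lib.H28P
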