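import Pool.Agent.Lib.H28P.U06

/-!
# U07: one more vertex; a table of upper bounds
-/

set_option autoImplicit false

namespace Pool.Agent.Lib.H28P

theorem ub_add (n p : ℕ) (h : UB n p) : UB (n + 1) (p + 1) := by
  classical
  obtain ⟨V, E, F, hS, hc, hp⟩ := h
  obtain ⟨h4, hF, hface, hedge⟩ := stacked_basic hS
  obtain ⟨F₀, hF₀, hcF₀⟩ := Finset.exists_subset_card_eq (s := F) (n := 1) (by omega)
  obtain ⟨V', E', F', hS', hVV', hc', -, τ, hτ, hE⟩ := stack_some hS F₀ hF₀
  refine ⟨V', E', F', hS', by omega, fun l hl => ?_⟩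
  have key : ∀ u v, s(u, v) ∈ E' → (u ∈ V ∧ v ∈ V ∧ s(u, v) ∈ E) ∨
      (u ∈ V' ∧ u ∉ V ∧ v ∈ τ u ∧ v ∈ V) ∨ (v ∈ V' ∧ v ∉ V ∧ u ∈ τ v ∧ u ∈ V) := by
    intro u v huv
    rcases hE _ huv with h1 | ⟨v0, u0, a1, a2, a3, a4⟩
    · obtain ⟨b1, b2, -⟩ := hedge u v h1
      exact Or.inl ⟨b1, b2, h1⟩
    · have hu0 : u0 ∈ V := (hface _ (hτ v0 a1 a2)).2.1 a3
      rcases Sym2.eq_iff.1 a4 with ⟨rfl, rfl⟩ | ⟨rfl, rfl⟩
      · exact Or.inr (Or.inl ⟨a1, a2, a3, hu0⟩)
      · exact Or.inr (Or.inr ⟨a1, a2, a3, hu0⟩)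
  obtain ⟨f1, -⟩ := filter_chain (fun v => v ∈ V) (fun u v => s(u, v) ∈ E')
    (fun u v => s(u, v) ∈ E) (by
      intro u v huv
      rcases key u v huv with h1 | h1 | h1
      · exact Or.inl h1.1
      · exact Or.inr h1.2.2.2
      · exact Or.inl h1.2.2.2) (by
      intro u v hu hv huv
      rcases key u v huv with h1 | h1 | h1
      · exact h1.2.2
      · exact absurd hu h1.2.1
      · exact absurd hv h1.2.1) (by
      intro u w v hu hw hv huv h1 h2
      have a1 : w ∈ V' ∧ u ∈ τ w := by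
        rcases key u w h1 with h3 | h3 | h3
        · exact absurd h3.2.1 hw
        · exact absurd hu h3.2.1
        · exact ⟨h3.1, h3.2.2.1⟩
      have a2 : v ∈ τ w := by
        rcases key w v h2 with h3 | h3 | h3
        · exact absurd h3.1 hw
        · exact h3.2.2.1
        · exact absurd hv h3.2.1
      exact (hface _ (hτ w a1.1 hw)).2.2 u a1.2 v a2 huv) l hl.1 hl.2.2
  have hl' : EdgePath V E (l.filter fun v => v ∈ V) := by
    refine ⟨hl.1.filter _, fun v hv => ?_, f1⟩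
    have := (List.mem_filter.1 hv).2
    simpa using this
  have h5 := hp _ hl'
  have h6 : (l.filter fun v => ¬ (v ∈ V)).length ≤ 1 := by
    have h7 : (l.filter fun v => ¬ (v ∈ V)).Nodup := hl.1.filter _
    rw [← List.toFinset_card_of_nodup h7]
    have h8 : (l.filter fun v => ¬ (v ∈ V)).toFinset ⊆ V' \ V := by
      intro v hv
      have h9 := List.mem_filter.1 (List.mem_toFinset.1 hv)
      have h10 : v ∉ V := by simpa using h9.2
      exact Finset.mem_sdiff.2 ⟨hl.2.1 v h9.1, h10⟩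
    refine (Finset.card_le_card h8).trans ?_
    rw [Finset.card_sdiff_of_subset hVV']
    omega
  have h11 : l.length = (l.filter fun v => v ∈ V).length + (l.filter fun v => ¬ (v ∈ V)).length := by
    have := List.length_eq_length_filter_add (l := l) (fun v => decide (v ∈ V))
    simpa using this
  omega

/-- `H = p + 1`, `N = n - 2` -/
def UH (N H : ℕ) : Prop := 1 ≤ H ∧ UB (N + 2) (H - 1)

theorem UH.base {N : ℕ} (hN : 2 ≤ N) : UH N (N + 3) := by
  refine ⟨by omega, ?_⟩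
  have := ub_base (N + 2) (by omega)
  simpa using this

theorem UH.add {N H : ℕ} (h : UH N H) : UH (N + 1) (H + 1) := by
  refine ⟨by omega, ?_⟩
  have h1 := ub_add _ _ h.2
  have e : H - 1 + 1 = H + 1 - 1 := by have := h.1; omega
  rwa [e] at h1

theorem UH.mid {N H : ℕ} (h : UH N H) (N' : ℕ) (h1 : N ≤ N') (h2 : N' ≤ 3 * N) :
    UH N' (2 * H) := by
  refine ⟨by have := h.1; omega, ?_⟩
  have h3 := ub_mid _ _ (N' + 2) h.2 (by omega) (by omega)
  have e : 2 * (H - 1) + 1 = 2 * H - 1 := by have := h.1; omega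
  rwa [e] at h3

theorem UH.window {ν H : ℕ} (h : UH ν H) (k N : ℕ) (h1 : (ν - 1) * 3 ^ k < N)
    (h2 : N ≤ ν * 3 ^ k) : UH N (H * 2 ^ k) :=
  ⟨Nat.mul_pos h.1 (by positivity), ub_window ν H h.1 h.2 k N h1 h2⟩

/-- table of upper bounds for `15 ≤ t ≤ 44` -/
def tab : ℕ → ℕ
  | 15 => 17 | 16 => 18 | 17 => 18 | 18 => 19 | 19 => 20 | 20 => 20 | 21 => 21 | 22 => 22
  | 23 => 22 | 24 => 23 | 25 => 24 | 26 => 24 | 27 => 25 | 28 => 26 | 29 => 26 | 30 => 27
  | 31 => 28 | 32 => 28 | 33 => 28 | 34 => 28 | 35 => 28 | 36 => 29 | 37 => 30 | 38 => 30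
  | 39 => 31 | 40 => 32 | 41 => 32 | 42 => 32 | 43 => 32 | 44 => 32
  | _ => 0

theorem uh_tab (t : ℕ) (h15 : 15 ≤ t) (h44 : t ≤ 44) : UH (t + 1) (tab t) := by
  have b4 : UH 4 7 := UH.base (by norm_num)
  have b5 : UH 5 8 := UH.base (by norm_num)
  have b6 : UH 6 9 := UH.base (by norm_num)
  have b7 : UH 7 10 := UH.base (by norm_num)
  have b8 : UH 8 11 := UH.base (by norm_num)
  have b9 : UH 9 12 := UH.base (by norm_num)
  have b10 : UH 10 13 := UH.base (by norm_num)
  have b11 : UH 11 14 := UH.base (by norm_num)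
  have b12 : UH 12 14 := b4.mid 12 (by norm_num) (by norm_num)
  have b13 : UH 13 15 := b12.add
  have b14 : UH 14 16 := b13.add
  have b15 : UH 15 16 := b5.mid 15 (by norm_num) (by norm_num)
  have b16 : UH 16 17 := b15.add
  have b17 : UH 17 18 := b16.add
  have b18 : UH 18 18 := b6.mid 18 (by norm_num) (by norm_num)
  have b19 : UH 19 19 := b18.add
  have b20 : UH 20 20 := b19.add
  have b21 : UH 21 20 := b7.mid 21 (by norm_num) (by norm_num)
  have b22 : UH 22 21 := b21.add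
  have b23 : UH 23 22 := b22.add
  have b24 : UH 24 22 := b8.mid 24 (by norm_num) (by norm_num)
  have b25 : UH 25 23 := b24.add
  have b26 : UH 26 24 := b25.add
  have b27 : UH 27 24 := b9.mid 27 (by norm_num) (by norm_num)
  have b28 : UH 28 25 := b27.add
  have b29 : UH 29 26 := b28.add
  have b30 : UH 30 26 := b10.mid 30 (by norm_num) (by norm_num)
  have b31 : UH 31 27 := b30.add
  have b32 : UH 32 28 := b31.add
  have b36 : ∀ N, 12 ≤ N → N ≤ 36 → UH N 28 := fun N h1 h2 => b12.mid N h1 (by omega)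
  have b37 : UH 37 29 := (b36 36 (by norm_num) (by norm_num)).add
  have b38 : UH 38 30 := b37.add
  have b39 : UH 39 30 := b13.mid 39 (by norm_num) (by norm_num)
  have b40 : UH 40 31 := b39.add
  have b45 : ∀ N, 15 ≤ N → N ≤ 45 → UH N 32 := fun N h1 h2 => b15.mid N h1 (by omega)
  interval_cases t
  all_goals simp only [tab]
  all_goals first
    | assumption
    | exact b36 _ (by norm_num) (by norm_num)
    | exact b45 _ (by norm_num) (by norm_num)

end Pool.Agent.Lib.H28P
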