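import Pool.Agent.Lib.H28P.G11
import Pool.Agent.Lib.H28P.U05
import Pool.Agent.Lib.H28P.N14

/-!
# Z01: exact values and the lower bound for stacked polytopes
-/

set_option autoImplicit false

open Filter Topology

namespace Pool.Agent.Lib.H28P

theorem exists_longest {V : Finset ℕ} {E : Finset (Sym2 ℕ)} :
    ∃ l, EdgePath V E l ∧ ∀ l', EdgePath V E l' → l'.length ≤ l.length := by
  set S : Set ℕ := {k | ∃ l, EdgePath V E l ∧ l.length = k} with hS
  have hne : S.Nonempty := ⟨0, [], ⟨List.nodup_nil, by simp, List.isChain_nil⟩, rfl⟩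
  have hb : BddAbove S := by
    refine ⟨V.card, ?_⟩
    rintro k ⟨l, hl, rfl⟩
    have h1 : l.toFinset ⊆ V := by
      intro v hv
      exact hl.2.1 v (List.mem_toFinset.1 hv)
    have h2 := Finset.card_le_card h1
    rwa [List.toFinset_card_of_nodup hl.1] at h2
  obtain ⟨l, hl, hk⟩ := Nat.sSup_mem hne hb
  refine ⟨l, hl, fun l' hl' => ?_⟩
  rw [hk]
  exact le_csSup hb ⟨l', hl', rfl⟩

/-- every stacked polytope gives a sorted configuration with `H` the number of vertices of a longest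
path plus one -/
theorem stacked_cfg {V : Finset ℕ} {E : Finset (Sym2 ℕ)} {F : Finset (Finset ℕ)}
    (h : Stacked V E F) :
    ∃ l, EdgePath V E l ∧ ∃ m₁ m₂ m₃ m₄ w₁ w₂ w₃ w₄ x₁ x₂ x₃ x₄ y₁ : ℝ,
      Cfg m₁ m₂ m₃ m₄ w₁ w₂ w₃ w₄ x₁ x₂ x₃ x₄ y₁ ((V.card - 2 : ℕ) : ℝ)
        ((l.length + 1 : ℕ) : ℝ) := by
  obtain ⟨l, hl, hmax⟩ := exists_longest (V := V) (E := E)
  obtain ⟨M, w, X, Y, h1, h2, h3, h4, h5, h6, h7, h8⟩ :=
    h.numeric (l.length + 1) (fun l' hl' => by have := hmax l' hl'; omega)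
  exact ⟨l, hl, exists_cfg _ _ M w X Y h1 h3 h4 h5 h6 h7 h8⟩

/-- the lower bound for all stacked polytopes -/
theorem lower_bound (n : ℕ) (hn : 4 ≤ n) : pw ((n : ℝ) - 2) ≤ (fStacked n : ℝ) + 1 := by
  have key : ⌈pw ((n : ℝ) - 2)⌉₊ - 1 ≤ fStacked n := by
    apply le_fStacked hn
    intro V E F hS hV
    obtain ⟨l, hl, m₁, m₂, m₃, m₄, w₁, w₂, w₃, w₄, x₁, x₂, x₃, x₄, y₁, c⟩ := stacked_cfg hS
    refine ⟨l, hl, ?_⟩
    have e : ((V.card - 2 : ℕ) : ℝ) = (n : ℝ) - 2 := by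
      rw [hV, Nat.cast_sub (by omega)]; norm_num
    rw [e] at c
    have hpos : (0 : ℝ) < (n : ℝ) - 2 := by
      have : (4 : ℝ) ≤ n := by exact_mod_cast hn
      linarith
    have := c.lower hpos
    have := Nat.ceil_le.2 this
    omega
  have h1 := Nat.le_ceil (pw ((n : ℝ) - 2))
  have h2 : (⌈pw ((n : ℝ) - 2)⌉₊ : ℝ) ≤ (fStacked n : ℝ) + 1 := by
    have : ⌈pw ((n : ℝ) - 2)⌉₊ ≤ fStacked n + 1 := by omega
    exact_mod_cast this
  linarith

/-- the exact values -/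
theorem exact_value (ν k : ℕ) (h4 : 4 ≤ ν) (h8 : ν ≤ 8) :
    fStacked (ν * 3 ^ k + 2) + 1 = (ν + 3) * 2 ^ k := by
  have hpos3 : 1 ≤ 3 ^ k := Nat.one_le_pow _ _ (by norm_num)
  have hpos2 : 1 ≤ 2 ^ k := Nat.one_le_pow _ _ (by norm_num)
  have hn : 4 ≤ ν * 3 ^ k + 2 := by nlinarith
  apply le_antisymm
  · have h := ub_iterate ν (ν + 3) k (by
      have := ub_base (ν + 2) (by omega)
      simpa using this) (by omega)
    have := fStacked_le h
    have h9 : 1 ≤ (ν + 3) * 2 ^ k := by nlinarith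
    omega
  · have key : (ν + 3) * 2 ^ k - 1 ≤ fStacked (ν * 3 ^ k + 2) := by
      apply le_fStacked hn
      intro V E F hS hV
      obtain ⟨l, hl, m₁, m₂, m₃, m₄, w₁, w₂, w₃, w₄, x₁, x₂, x₃, x₄, y₁, c⟩ := stacked_cfg hS
      refine ⟨l, hl, ?_⟩
      have e : ((V.card - 2 : ℕ) : ℝ) = (ν : ℝ) * 3 ^ k := by
        rw [hV]; push_cast [Nat.add_sub_cancel]; ring
      rw [e] at c
      have h := c.exact_all ν k h4 h8 rfl
      have h' : (ν + 3) * 2 ^ k ≤ l.length + 1 := by exact_mod_cast h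
      omega
    omega

end Pool.Agent.Lib.H28P
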