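import Pool.Agent.Lib.H28P.Z01

/-!
# Z02: lower limit, subsequences, no limit
-/

set_option autoImplicit false

open Filter Topology

namespace Pool.Agent.Lib.H28P

theorem pow_two_tendsto : Tendsto (fun k : ℕ => ((2 : ℝ) ^ k)⁻¹) atTop (𝓝 0) :=
  tendsto_inv_atTop_zero.comp (tendsto_pow_atTop_atTop_of_one_lt (by norm_num))

theorem pow_three_tendsto : Tendsto (fun k : ℕ => ((3 : ℝ) ^ k)⁻¹) atTop (𝓝 0) :=
  tendsto_inv_atTop_zero.comp (tendsto_pow_atTop_atTop_of_one_lt (by norm_num))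

theorem rpow_three_pow (k : ℕ) : ((3 : ℝ) ^ k) ^ alpha = 2 ^ k := by
  rw [← Real.rpow_natCast 3 k, ← Real.rpow_mul (by norm_num), mul_comm,
    Real.rpow_mul (by norm_num), three_rpow_alpha, Real.rpow_natCast]

/-- the ratio along the subsequences -/
theorem tendsto_ratio (ν : ℕ) (h4 : 4 ≤ ν) (h8 : ν ≤ 8) :
    Tendsto (fun k : ℕ => (fStacked (ν * 3 ^ k + 2) : ℝ) / ((ν * 3 ^ k + 2 : ℕ) : ℝ) ^ alpha) atTop
      (𝓝 (((ν : ℝ) + 3) / (ν : ℝ) ^ alpha)) := by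
  have hν : (0 : ℝ) < ν := by
    have : (4 : ℝ) ≤ ν := by exact_mod_cast h4
    linarith
  have key : ∀ k : ℕ, (fStacked (ν * 3 ^ k + 2) : ℝ) / ((ν * 3 ^ k + 2 : ℕ) : ℝ) ^ alpha =
      (((ν : ℝ) + 3) - ((2 : ℝ) ^ k)⁻¹) /
        ((ν : ℝ) ^ alpha * (1 + 2 / ν * ((3 : ℝ) ^ k)⁻¹) ^ alpha) := by
    intro k
    have h := exact_value ν k h4 h8
    have hR : (fStacked (ν * 3 ^ k + 2) : ℝ) = ((ν : ℝ) + 3) * 2 ^ k - 1 := by
      have : (fStacked (ν * 3 ^ k + 2) : ℝ) + 1 = ((ν : ℝ) + 3) * 2 ^ k := by exact_mod_cast h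
      linarith
    have p3 : (0 : ℝ) < 3 ^ k := by positivity
    have p2 : (0 : ℝ) < 2 ^ k := by positivity
    have e : ((ν * 3 ^ k + 2 : ℕ) : ℝ) = (ν : ℝ) * 3 ^ k * (1 + 2 / ν * ((3 : ℝ) ^ k)⁻¹) := by
      push_cast; field_simp
    rw [hR, e, Real.mul_rpow (by positivity) (by positivity), Real.mul_rpow hν.le p3.le,
      rpow_three_pow]
    have q : (0 : ℝ) < (1 + 2 / ν * ((3 : ℝ) ^ k)⁻¹) ^ alpha := by positivity
    have q' : (0 : ℝ) < (ν : ℝ) ^ alpha := by positivity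
    rw [div_eq_div_iff (by positivity) (by positivity)]
    field_simp
  simp_rw [key]
  have t1 : Tendsto (fun k : ℕ => ((ν : ℝ) + 3) - ((2 : ℝ) ^ k)⁻¹) atTop
      (𝓝 (((ν : ℝ) + 3) - 0)) := tendsto_const_nhds.sub pow_two_tendsto
  have t2 : Tendsto (fun k : ℕ => (1 + 2 / (ν : ℝ) * ((3 : ℝ) ^ k)⁻¹)) atTop
      (𝓝 (1 + 2 / (ν : ℝ) * 0)) := tendsto_const_nhds.add (tendsto_const_nhds.mul pow_three_tendsto)
  have t3 : Tendsto (fun k : ℕ => (1 + 2 / (ν : ℝ) * ((3 : ℝ) ^ k)⁻¹) ^ alpha) atTop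
      (𝓝 ((1 + 2 / (ν : ℝ) * 0) ^ alpha)) := t2.rpow_const (Or.inl (by norm_num))
  have t4 := t1.div (tendsto_const_nhds (x := (ν : ℝ) ^ alpha) |>.mul t3)
    (by
      rw [mul_zero, add_zero, Real.one_rpow, mul_one]
      positivity)
  have e : ((ν : ℝ) + 3 - 0) / ((ν : ℝ) ^ alpha * (1 + 2 / (ν : ℝ) * 0) ^ alpha) =
      ((ν : ℝ) + 3) / (ν : ℝ) ^ alpha := by simp
  rw [← e]
  exact t4

theorem sub_tendsto (ν : ℕ) (h4 : 4 ≤ ν) : Tendsto (fun k : ℕ => ν * 3 ^ k + 2) atTop atTop := by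
  apply tendsto_atTop_mono (f := fun k : ℕ => k)
  · intro k
    have : k < 3 ^ k := Nat.lt_pow_self (by norm_num)
    nlinarith
  · exact tendsto_id

/-- a lower function for the ratio -/
theorem ratio_ge (n : ℕ) (hn : 4 ≤ n) :
    8 / 5 ^ alpha * (1 - 2 * (n : ℝ)⁻¹) ^ alpha - ((n : ℝ) ^ alpha)⁻¹ ≤
      (fStacked n : ℝ) / (n : ℝ) ^ alpha := by
  have h4 : (4 : ℝ) ≤ n := by exact_mod_cast hn
  have hn0 : (0 : ℝ) < n := by linarith
  have h := lower_bound n hn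
  have hp : (0 : ℝ) < (n : ℝ) ^ alpha := by positivity
  have e1 : (n : ℝ) - 2 = n * (1 - 2 * (n : ℝ)⁻¹) := by field_simp
  have hq : 0 ≤ 1 - 2 * (n : ℝ)⁻¹ := by
    have : (n : ℝ)⁻¹ ≤ 4⁻¹ := by gcongr
    linarith
  have e2 : pw ((n : ℝ) - 2) = 8 / 5 ^ alpha * (1 - 2 * (n : ℝ)⁻¹) ^ alpha * (n : ℝ) ^ alpha := by
    unfold pw
    rw [Real.div_rpow (by linarith) (by norm_num), e1, Real.mul_rpow hn0.le hq]
    ring
  rw [e2] at h
  rw [le_div_iff₀ hp, sub_mul, inv_mul_cancel₀ hp.ne']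
  linarith

theorem lower_tendsto : Tendsto (fun n : ℕ =>
    8 / 5 ^ alpha * (1 - 2 * (n : ℝ)⁻¹) ^ alpha - ((n : ℝ) ^ alpha)⁻¹) atTop
    (𝓝 (8 / 5 ^ alpha)) := by
  have t0 : Tendsto (fun n : ℕ => (n : ℝ)⁻¹) atTop (𝓝 0) := tendsto_inv_atTop_nhds_zero_nat
  have t1 : Tendsto (fun n : ℕ => (1 - 2 * (n : ℝ)⁻¹)) atTop (𝓝 (1 - 2 * 0)) :=
    tendsto_const_nhds.sub (tendsto_const_nhds.mul t0)
  have t2 : Tendsto (fun n : ℕ => (1 - 2 * (n : ℝ)⁻¹) ^ alpha) atTop (𝓝 ((1 - 2 * 0) ^ alpha)) :=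
    t1.rpow_const (Or.inl (by norm_num))
  have t3 : Tendsto (fun n : ℕ => ((n : ℝ) ^ alpha)⁻¹) atTop (𝓝 0) :=
    tendsto_inv_atTop_zero.comp ((tendsto_rpow_atTop alpha_pos).comp tendsto_natCast_atTop_atTop)
  have t4 := (tendsto_const_nhds (x := (8 : ℝ) / 5 ^ alpha)).mul t2 |>.sub t3
  have e : (8 : ℝ) / 5 ^ alpha * (1 - 2 * 0) ^ alpha - 0 = 8 / 5 ^ alpha := by simp
  rw [e] at t4
  exact t4

/-- the ratio -/
noncomputable def rat (n : ℕ) : ℝ := (fStacked n : ℝ) / (n : ℝ) ^ alpha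

theorem eventually_ge (ε : ℝ) (hε : 0 < ε) : ∀ᶠ n in atTop, 8 / 5 ^ alpha - ε ≤ rat n := by
  have h := lower_tendsto.eventually (lt_mem_nhds (show 8 / 5 ^ alpha - ε < 8 / 5 ^ alpha by linarith))
  filter_upwards [h, eventually_ge_atTop 4] with n hn h4
  exact hn.le.trans (ratio_ge n h4)

theorem frequently_near (ν : ℕ) (h4 : 4 ≤ ν) (h8 : ν ≤ 8) (P : ℝ → Prop)
    (hP : ∀ᶠ x in 𝓝 (((ν : ℝ) + 3) / (ν : ℝ) ^ alpha), P x) : ∃ᶠ n in atTop, P (rat n) := by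
  have h := (tendsto_ratio ν h4 h8).eventually hP
  exact (sub_tendsto ν h4).frequently h.frequently

theorem rat_nonneg (n : ℕ) : 0 ≤ rat n := by
  unfold rat; positivity

theorem liminf_rat : liminf rat atTop = 8 / 5 ^ alpha := by
  have hbd : IsBoundedUnder (· ≥ ·) atTop rat := ⟨0, by
    simp only [eventually_map]
    exact Eventually.of_forall rat_nonneg⟩
  have hfr : ∀ ε : ℝ, 0 < ε → ∃ᶠ n in atTop, rat n ≤ 8 / 5 ^ alpha + ε := by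
    intro ε hε
    refine frequently_near 5 (by norm_num) (by norm_num) (fun x => x ≤ 8 / 5 ^ alpha + ε) ?_
    have e : (((5 : ℕ) : ℝ) + 3) / ((5 : ℕ) : ℝ) ^ alpha = 8 / 5 ^ alpha := by norm_num
    rw [e]
    filter_upwards [gt_mem_nhds (show 8 / 5 ^ alpha < 8 / 5 ^ alpha + ε by linarith)] with x hx
    exact hx.le
  have hco : IsCoboundedUnder (· ≥ ·) atTop rat := by
    refine IsCoboundedUnder.of_frequently_le (a := 8 / 5 ^ alpha + 1) ?_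
    exact hfr 1 one_pos
  apply le_antisymm
  · refine le_of_forall_pos_le_add fun ε hε => ?_
    exact liminf_le_of_frequently_le (hfr ε hε) hbd
  · refine le_of_forall_pos_le_add fun ε hε => ?_
    have := le_liminf_of_le hco (eventually_ge ε hε)
    linarith

end Pool.Agent.Lib.H28P
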