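import Pool.Agent.Lib.H28P.Z02
import Pool.Agent.Lib.H28P.U07

/-!
# Z03: upper bounds, upper limit, no limit
-/

set_option autoImplicit false

open Filter Topology

namespace Pool.Agent.Lib.H28P

theorem rpow_alpha_ge {x P : ℝ} (hx : 1 ≤ x) (hP : 0 ≤ P) (h : P ^ 65 ≤ x ^ 41) :
    P ≤ x ^ alpha := by
  have h2 : x ^ ((41 : ℝ) / 65) ≤ x ^ alpha := Real.rpow_le_rpow_of_exponent_le hx le_alpha
  have h3 : P ≤ x ^ ((41 : ℝ) / 65) := by
    have e1 : x ^ ((41 : ℝ) / 65) = (x ^ 41) ^ ((1 : ℝ) / 65) := by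
      rw [← Real.rpow_natCast, ← Real.rpow_mul (by positivity)]
      norm_num
    have e2 : P = (P ^ 65) ^ ((1 : ℝ) / 65) := by
      rw [← Real.rpow_natCast, ← Real.rpow_mul (by positivity)]
      norm_num
    rw [e1, e2]
    exact Real.rpow_le_rpow (by positivity) h (by norm_num)
  exact h3.trans h2

theorem rpow_alpha_ge' {x P : ℝ} (hx0 : 0 < x) (hx : x ≤ 1) (hP : 0 ≤ P)
    (h : P ^ 84 ≤ x ^ 53) : P ≤ x ^ alpha := by
  have h2 : x ^ ((53 : ℝ) / 84) ≤ x ^ alpha :=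
    Real.rpow_le_rpow_of_exponent_ge hx0 hx alpha_le
  have h3 : P ≤ x ^ ((53 : ℝ) / 84) := by
    have e1 : x ^ ((53 : ℝ) / 84) = (x ^ 53) ^ ((1 : ℝ) / 84) := by
      rw [← Real.rpow_natCast, ← Real.rpow_mul (by positivity)]
      norm_num
    have e2 : (P ^ 84) ^ ((1 : ℝ) / 84) = P := by
      rw [← Real.rpow_natCast, ← Real.rpow_mul (by positivity)]
      norm_num
    have h5 : (0 : ℝ) ≤ P ^ 84 := pow_nonneg hP _
    have h4 : (P ^ 84) ^ ((1 : ℝ) / 84) ≤ (x ^ 53) ^ ((1 : ℝ) / 84) :=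
      Real.rpow_le_rpow h5 h (by norm_num)
    rw [e2] at h4
    rw [e1]
    exact h4
  exact h3.trans h2

theorem rpow_alpha_eq_one : (1 : ℝ) ^ alpha = 1 := Real.one_rpow _

theorem step_ineq (t : ℕ) (h15 : 15 ≤ t) (h44 : t ≤ 44) :
    (tab t : ℝ) ≤ 5 * ((t : ℝ) / 2) ^ alpha := by
  have key : (tab t : ℝ) / 5 ≤ ((t : ℝ) / 2) ^ alpha := by
    interval_cases t <;> simp only [tab] <;>
      refine rpow_alpha_ge (by norm_num) (by norm_num) (by norm_num)
  linarith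

theorem step_ineq2 (t : ℕ) (h15 : 15 ≤ t) (h44 : t ≤ 44) :
    (tab t : ℝ) ≤ 28 * ((t : ℝ) / 31) ^ alpha := by
  have key : (tab t : ℝ) / 28 ≤ ((t : ℝ) / 31) ^ alpha := by
    rcases Nat.lt_or_ge t 31 with h | h
    · interval_cases t <;> simp only [tab] <;>
        refine rpow_alpha_ge' (by norm_num) (by norm_num) (by norm_num) (by norm_num)
    · interval_cases t <;> simp only [tab] <;>
        refine rpow_alpha_ge (by norm_num) (by norm_num) (by norm_num)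
  linarith

theorem base_ineq (N : ℕ) (h2 : 2 ≤ N) (h14 : N ≤ 14) :
    (N : ℝ) + 3 ≤ 5 * ((N : ℝ) / 2) ^ alpha := by
  have key : ((N : ℝ) + 3) / 5 ≤ ((N : ℝ) / 2) ^ alpha := by
    interval_cases N <;> refine rpow_alpha_ge (by norm_num) (by norm_num) (by norm_num)
  linarith

theorem base_ineq15 : (16 : ℝ) ≤ 5 * ((15 : ℝ) / 2) ^ alpha := by
  have key : (16 : ℝ) / 5 ≤ ((15 : ℝ) / 2) ^ alpha :=
    rpow_alpha_ge (by norm_num) (by norm_num) (by norm_num)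
  linarith

theorem UH.le {N H : ℕ} (h : UH N H) : (fStacked (N + 2) : ℝ) + 1 ≤ H := by
  have h1 := fStacked_le h.2
  have h2 := h.1
  have h3 : fStacked (N + 2) + 1 ≤ H := by omega
  exact_mod_cast h3

/-- the decomposition of a large number -/
theorem big_decomp (N : ℕ) (hN : 16 ≤ N) :
    ∃ t k : ℕ, 15 ≤ t ∧ t ≤ 44 ∧ t * 3 ^ k < N ∧ N ≤ (t + 1) * 3 ^ k := by
  set k := Nat.log 3 ((N - 1) / 15) with hk
  have h0 : (N - 1) / 15 ≠ 0 := by
    have : 1 ≤ (N - 1) / 15 := by omega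
    omega
  have h1 : 3 ^ k ≤ (N - 1) / 15 := Nat.pow_log_le_self 3 h0
  have h2 : (N - 1) / 15 < 3 ^ (k + 1) := Nat.lt_pow_succ_log_self (by norm_num) _
  rw [pow_succ] at h2
  have p3 : 0 < 3 ^ k := by positivity
  set t := (N - 1) / 3 ^ k with ht
  have t1 : t * 3 ^ k ≤ N - 1 := Nat.div_mul_le_self _ _
  have t2 : N - 1 < (t + 1) * 3 ^ k := by
    have := Nat.div_add_mod (N - 1) (3 ^ k)
    have h5 := Nat.mod_lt (N - 1) p3
    rw [← ht] at this
    nlinarith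
  refine ⟨t, k, ?_, ?_, by omega, by omega⟩
  · rw [ht, Nat.le_div_iff_mul_le p3]
    omega
  · by_contra hc
    have : 45 ≤ t := by omega
    have : 45 * 3 ^ k ≤ t * 3 ^ k := Nat.mul_le_mul_right _ this
    omega

theorem big_upper (N : ℕ) (c d : ℝ) (hc : 0 ≤ c) (hd : 0 < d) (hN : 16 ≤ N)
    (hstep : ∀ t : ℕ, 15 ≤ t → t ≤ 44 → (tab t : ℝ) ≤ c * ((t : ℝ) / d) ^ alpha) :
    (fStacked (N + 2) : ℝ) + 1 ≤ c * ((N : ℝ) / d) ^ alpha := by
  obtain ⟨t, k, h15, h44, h1, h2⟩ := big_decomp N hN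
  have h3 := ((uh_tab t h15 h44).window k N (by simpa using h1) h2).le
  push_cast at h3
  have h10 := hstep t h15 h44
  have h12 : ((t : ℝ) / d) ^ alpha * 2 ^ k ≤ ((N : ℝ) / d) ^ alpha := by
    rw [← rpow_three_pow, ← Real.mul_rpow (by positivity) (by positivity)]
    apply Real.rpow_le_rpow (by positivity) _ alpha_pos.le
    have h4 : (t : ℝ) * 3 ^ k ≤ N := by exact_mod_cast h1.le
    calc (t : ℝ) / d * 3 ^ k = ((t : ℝ) * 3 ^ k) / d := by ring
      _ ≤ (N : ℝ) / d := by gcongr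
  have p2 : (0 : ℝ) < 2 ^ k := by positivity
  calc (fStacked (N + 2) : ℝ) + 1 ≤ (tab t : ℝ) * 2 ^ k := h3
    _ ≤ (c * ((t : ℝ) / d) ^ alpha) * 2 ^ k := mul_le_mul_of_nonneg_right h10 p2.le
    _ = c * (((t : ℝ) / d) ^ alpha * 2 ^ k) := by ring
    _ ≤ c * ((N : ℝ) / d) ^ alpha := mul_le_mul_of_nonneg_left h12 hc

theorem upper_nat (N : ℕ) (hN : 2 ≤ N) :
    (fStacked (N + 2) : ℝ) + 1 ≤ 5 * ((N : ℝ) / 2) ^ alpha := by
  rcases Nat.lt_or_ge N 15 with h | h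
  · have h1 := (UH.base hN).le
    have h2 := base_ineq N hN (by omega)
    push_cast at h1
    linarith
  · rcases eq_or_lt_of_le h with h' | h'
    · subst h'
      have b5 : UH 5 8 := UH.base (by norm_num)
      have h1 := (b5.mid 15 (by norm_num) (by norm_num)).le
      have h2 := base_ineq15
      push_cast at h1 ⊢
      linarith
    · exact big_upper N 5 2 (by norm_num) (by norm_num) h' step_ineq

theorem upper_nat2 (N : ℕ) (hN : 16 ≤ N) :
    (fStacked (N + 2) : ℝ) + 1 ≤ 28 * ((N : ℝ) / 31) ^ alpha :=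
  big_upper N 28 31 (by norm_num) (by norm_num) hN step_ineq2

/-- the upper bound for all stacked polytopes -/
theorem upper_bound (n : ℕ) (hn : 4 ≤ n) :
    (fStacked n : ℝ) + 1 ≤ 5 / 2 ^ alpha * ((n : ℝ) - 2) ^ alpha := by
  obtain ⟨N, rfl⟩ := Nat.exists_eq_add_of_le' (show 2 ≤ n by omega)
  have h := upper_nat N (by omega)
  rw [Real.div_rpow (by positivity) (by norm_num)] at h
  have e : ((N + 2 : ℕ) : ℝ) - 2 = N := by push_cast; ring
  rw [e]
  calc (fStacked (N + 2) : ℝ) + 1 ≤ 5 * ((N : ℝ) ^ alpha / 2 ^ alpha) := h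
    _ = _ := by ring

theorem upper_bound2 (n : ℕ) (hn : 18 ≤ n) :
    (fStacked n : ℝ) + 1 ≤ 28 / 31 ^ alpha * ((n : ℝ) - 2) ^ alpha := by
  obtain ⟨N, rfl⟩ := Nat.exists_eq_add_of_le' (show 2 ≤ n by omega)
  have h := upper_nat2 N (by omega)
  rw [Real.div_rpow (by positivity) (by norm_num)] at h
  have e : ((N + 2 : ℕ) : ℝ) - 2 = N := by push_cast; ring
  rw [e]
  calc (fStacked (N + 2) : ℝ) + 1 ≤ 28 * ((N : ℝ) ^ alpha / 31 ^ alpha) := h
    _ = _ := by ring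

/-- the lower bound in the same form -/
theorem lower_bound' (n : ℕ) (hn : 4 ≤ n) :
    8 / 5 ^ alpha * ((n : ℝ) - 2) ^ alpha ≤ (fStacked n : ℝ) + 1 := by
  have h := lower_bound n hn
  have h4 : (4 : ℝ) ≤ n := by exact_mod_cast hn
  unfold pw at h
  rw [Real.div_rpow (by linarith) (by norm_num)] at h
  calc 8 / 5 ^ alpha * ((n : ℝ) - 2) ^ alpha = 8 * (((n : ℝ) - 2) ^ alpha / 5 ^ alpha) := by ring
    _ ≤ _ := h

theorem rat_le (n : ℕ) (hn : 18 ≤ n) : rat n ≤ 28 / 31 ^ alpha := by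
  have h := upper_bound2 n hn
  have h4 : (18 : ℝ) ≤ n := by exact_mod_cast hn
  have hp : (0 : ℝ) < (n : ℝ) ^ alpha := by positivity
  have h2 : ((n : ℝ) - 2) ^ alpha ≤ (n : ℝ) ^ alpha :=
    Real.rpow_le_rpow (by linarith) (by linarith) alpha_pos.le
  have h3 : 28 / 31 ^ alpha * ((n : ℝ) - 2) ^ alpha ≤ 28 / 31 ^ alpha * (n : ℝ) ^ alpha :=
    mul_le_mul_of_nonneg_left h2 (by positivity)
  unfold rat
  rw [div_le_iff₀ hp]
  linarith

theorem bdd_above_rat : IsBoundedUnder (· ≤ ·) atTop rat := by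
  refine ⟨28 / 31 ^ alpha, ?_⟩
  simp only [eventually_map]
  filter_upwards [eventually_ge_atTop 18] with n hn
  exact rat_le n hn

theorem le_limsup_rat (ν : ℕ) (h4 : 4 ≤ ν) (h8 : ν ≤ 8) :
    ((ν : ℝ) + 3) / (ν : ℝ) ^ alpha ≤ limsup rat atTop := by
  refine le_of_forall_pos_le_add fun ε hε => ?_
  have h := frequently_near ν h4 h8 (fun x => ((ν : ℝ) + 3) / (ν : ℝ) ^ alpha - ε ≤ x) (by
    filter_upwards [lt_mem_nhds (show ((ν : ℝ) + 3) / (ν : ℝ) ^ alpha - ε <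
      ((ν : ℝ) + 3) / (ν : ℝ) ^ alpha by linarith)] with x hx
    exact hx.le)
  have := le_limsup_of_frequently_le h bdd_above_rat
  linarith

theorem limsup_rat_le : limsup rat atTop ≤ 28 / 31 ^ alpha := by
  have hco : IsCoboundedUnder (· ≤ ·) atTop rat :=
    IsCoboundedUnder.of_frequently_ge (a := 0) (Eventually.of_forall rat_nonneg).frequently
  refine limsup_le_of_le hco ?_
  filter_upwards [eventually_ge_atTop 18] with n hn
  exact rat_le n hn

theorem five_lt_eight : 8 / (5 : ℝ) ^ alpha < 11 / 8 ^ alpha := by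
  have h1 : (8 : ℝ) ^ alpha = 5 ^ alpha * (8 / 5) ^ alpha := by
    rw [← Real.mul_rpow (by norm_num) (by norm_num)]; norm_num
  have h2 : ((8 : ℝ) / 5) ^ alpha < 11 / 8 := by
    have h3 : ((8 : ℝ) / 5) ^ alpha ≤ (8 / 5) ^ ((53 : ℝ) / 84) :=
      Real.rpow_le_rpow_of_exponent_le (by norm_num) alpha_le
    have h4 : ((8 : ℝ) / 5) ^ ((53 : ℝ) / 84) < 11 / 8 := by
      have e1 : ((8 : ℝ) / 5) ^ ((53 : ℝ) / 84) = (((8 : ℝ) / 5) ^ 53) ^ ((1 : ℝ) / 84) := by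
        rw [← Real.rpow_natCast, ← Real.rpow_mul (by positivity)]
        norm_num
      have e2 : (11 : ℝ) / 8 = ((11 / 8 : ℝ) ^ 84) ^ ((1 : ℝ) / 84) := by
        rw [← Real.rpow_natCast, ← Real.rpow_mul (by positivity)]
        norm_num
      rw [e1, e2]
      exact Real.rpow_lt_rpow (by positivity) (by norm_num) (by norm_num)
    exact h3.trans_lt h4
  have p5 : (0 : ℝ) < 5 ^ alpha := by positivity
  have p8 : (0 : ℝ) < (8 / 5) ^ alpha := by positivity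
  rw [h1, div_lt_div_iff₀ p5 (by positivity)]
  nlinarith

theorem no_limit : ¬ ∃ L : ℝ, Tendsto rat atTop (𝓝 L) := by
  rintro ⟨L, hL⟩
  have h1 := hL.liminf_eq
  have h2 := hL.limsup_eq
  have h3 := le_limsup_rat 8 (by norm_num) (by norm_num)
  have h4 := liminf_rat
  have h5 := five_lt_eight
  norm_num at h3
  linarith

end Pool.Agent.Lib.H28P
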